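import Pool.Agent.Q40.BT.Ring2

set_option autoImplicit false

/-! The surfaces of the family are birational to each other: algebra. -/

namespace Q40.BT

section identities

variable {E : Type*} [CommRing E] {i u y t m x s r U : E}

lemma f1 (ht : u * t = 1) (hm : m = y * t + u ^ 2) : u * m = y + u ^ 3 := by
  rw [hm]; linear_combination y * ht

lemma f2 (ht : u * t = 1) (h : y ^ 2 = (u ^ 2) ^ 3 + 4 * u ^ 2) (hm : m = y * t + u ^ 2) :
    2 * u ^ 2 * m = m ^ 2 - 4 := by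
  rw [hm]; linear_combination (-(t ^ 2)) * h - (u ^ 4 + 4) * (u * t + 1) * ht

lemma f2' (ht : u * t = 1) (h : y ^ 2 = (u ^ 2) ^ 3 + 4 * u ^ 2) (hm : m = y * t + u ^ 2) :
    m * (y * t - u ^ 2) = 4 := by
  rw [hm]; linear_combination (t ^ 2) * h + (u ^ 4 + 4) * (u * t + 1) * ht

lemma f3 (hi : i ^ 2 = -1) (ht : u * t = 1) (h : y ^ 2 = (u ^ 2) ^ 3 + 4 * u ^ 2)
    (hm : m = y * t + u ^ 2) :
    ((1 + i) * (y + u ^ 3)) ^ 2 = (-i * m) ^ 3 + 4 * (-i * m) := by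
  have h1 := f1 ht hm
  have h2 := f2 ht h hm
  linear_combination ((y + u ^ 3) ^ 2 + i * m ^ 3) * hi - 2 * i * (y + u ^ 3 + u * m) * h1 +
    i * m * h2

lemma f3' (hi : i ^ 2 = -1) (ht : u * t = 1) (h : y ^ 2 = (u ^ 2) ^ 3 + 4 * u ^ 2)
    (hm : m = y * t + u ^ 2) :
    ((1 + i) * (y + u ^ 3)) * ((1 - i) * t * (y * t - u ^ 2)) = 8 := by
  have h1 := f1 ht hm
  have h2 := f2' ht h hm
  have h3 : (1 + i) * (1 - i) = 2 := by linear_combination -hi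
  calc ((1 + i) * (y + u ^ 3)) * ((1 - i) * t * (y * t - u ^ 2)) =
      ((1 + i) * (1 - i)) * ((u * m) * t * (y * t - u ^ 2)) := by rw [h1]; ring
    _ = 2 * ((u * t) * (m * (y * t - u ^ 2))) := by rw [h3]; ring
    _ = 8 := by rw [ht, h2]; norm_num

/-- `U² = ...` -/
lemma f4 (hi : i ^ 2 = -1) (hr : 2 * r = 1) (hs : y * s = 1) (h : y ^ 2 = x ^ 3 + 4 * x)
    (hU : U = -(1 + i) * r * (x ^ 2 + 4) * s) : 2 * (i * x) * U ^ 2 = (i * x) ^ 2 - 4 := by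
  have h1 : U ^ 2 = 2 * i * r ^ 2 * (x ^ 2 + 4) ^ 2 * s ^ 2 := by
    rw [hU]; linear_combination (r ^ 2 * (x ^ 2 + 4) ^ 2 * s ^ 2) * hi
  have h2 : y ^ 2 * s ^ 2 = 1 := by rw [← mul_pow, hs, one_pow]
  have h3 : (2 * r) ^ 2 = 1 := by rw [hr, one_pow]
  rw [h1]
  have h4 : 2 * (i * x) * (2 * i * r ^ 2 * (x ^ 2 + 4) ^ 2 * s ^ 2) =
      i ^ 2 * (2 * r) ^ 2 * ((x ^ 3 + 4 * x) * s ^ 2) * (x ^ 2 + 4) := by ring
  rw [h4, hi, h3, ← h, h2]
  linear_combination (-(x ^ 2)) * hi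

lemma f5 (h : 2 * m * U ^ 2 = m ^ 2 - 4) :
    (U * m - U ^ 3) ^ 2 = (U ^ 2) ^ 3 + 4 * U ^ 2 := by
  linear_combination (-(U ^ 2)) * h

lemma f6 (hi : i ^ 2 = -1) (hr : 2 * r = 1) (hs : y * s = 1) (h : y ^ 2 = x ^ 3 + 4 * x)
    (hU : U = -(1 + i) * r * (x ^ 2 + 4) * s) : (1 + i) * U * (i * x) = y := by
  have h1 : (1 + i) ^ 2 * i = -2 := by linear_combination (2 + i) * hi
  have h2 : (1 + i) * U * (i * x) = -((1 + i) ^ 2 * i) * r * ((x ^ 3 + 4 * x) * s) := by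
    rw [hU]; ring
  rw [h2, h1, ← h]
  linear_combination (y ^ 2 * s) * hr + y * hs

end identities

section iso

variable {k : Type} [Field k]

/-- rescaling `w` -/
noncomputable def scaleTo (e d : ℕ) {c : k} (hc : c ≠ 0) : BR e d c →ₐ[k] BR e d (1 : k) :=
  BR.lift (BR.u e d 1) (algebraMap k _ c⁻¹ * BR.w e d 1) (BR.y e d 1) (by
    rw [← mul_assoc, ← map_mul, mul_inv_cancel₀ hc]
    exact BR.rel e d (1 : k))

/-- rescaling `w` -/
noncomputable def scaleFrom (e d : ℕ) (c : k) : BR e d (1 : k) →ₐ[k] BR e d c :=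
  BR.lift (BR.u e d c) (algebraMap k _ c * BR.w e d c) (BR.y e d c) (by
    rw [map_one, one_mul]
    exact BR.rel e d c)

section
variable (e d : ℕ) {c : k} (hc : c ≠ 0)

lemma scaleTo_u : scaleTo e d hc (BR.u e d c) = BR.u e d 1 := BR.lift_u _ _ _ _
lemma scaleTo_w : scaleTo e d hc (BR.w e d c) = algebraMap k _ c⁻¹ * BR.w e d 1 :=
  BR.lift_w _ _ _ _
lemma scaleTo_y : scaleTo e d hc (BR.y e d c) = BR.y e d 1 := BR.lift_y _ _ _ _
lemma scaleFrom_u : scaleFrom e d c (BR.u e d 1) = BR.u e d c := BR.lift_u _ _ _ _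
lemma scaleFrom_w : scaleFrom e d c (BR.w e d 1) = algebraMap k _ c * BR.w e d c :=
  BR.lift_w _ _ _ _
lemma scaleFrom_y : scaleFrom e d c (BR.y e d 1) = BR.y e d c := BR.lift_y _ _ _ _
end

/-- the surfaces for `c ≠ 0` are isomorphic -/
noncomputable def scaleEquiv (e d : ℕ) {c : k} (hc : c ≠ 0) : BR e d c ≃ₐ[k] BR e d (1 : k) :=
  AlgEquiv.ofAlgHom (scaleTo e d hc) (scaleFrom e d c)
    (by
      apply BR.algHom_ext
      · rw [AlgHom.comp_apply, AlgHom.id_apply, scaleFrom_u, scaleTo_u]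
      · rw [AlgHom.comp_apply, AlgHom.id_apply, scaleFrom_w, map_mul, AlgHom.commutes, scaleTo_w,
          ← mul_assoc, ← map_mul, mul_inv_cancel₀ hc, map_one, one_mul]
      · rw [AlgHom.comp_apply, AlgHom.id_apply, scaleFrom_y, scaleTo_y])
    (by
      apply BR.algHom_ext
      · rw [AlgHom.comp_apply, AlgHom.id_apply, scaleTo_u, scaleFrom_u]
      · rw [AlgHom.comp_apply, AlgHom.id_apply, scaleTo_w, map_mul, AlgHom.commutes, scaleFrom_w,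
          ← mul_assoc, ← map_mul, inv_mul_cancel₀ hc, map_one, one_mul]
      · rw [AlgHom.comp_apply, AlgHom.id_apply, scaleTo_y, scaleFrom_y])

section two

variable (h2 : (2 : k) = 0)

include h2 in
lemma two_zero (E : Type) [CommRing E] [Algebra k E] : (2 : E) = 0 := by
  have := congrArg (algebraMap k E) h2
  rwa [map_ofNat, map_zero] at this

/-- characteristic two: from the fibre at zero -/
noncomputable def twoTo : BR 1 0 (0 : k) →ₐ[k] BR 1 0 (1 : k) :=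
  BR.lift (BR.u 1 0 1 ^ 2 - BR.w 1 0 1) (BR.u 1 0 1)
    (BR.y 1 0 1 + (BR.u 1 0 1 ^ 2 - BR.w 1 0 1) ^ 3) (by
    have h := BR.rel 1 0 (1 : k)
    have h0 := two_zero h2 (BR 1 0 (1 : k))
    rw [map_one, one_mul] at h
    rw [map_zero, zero_mul, sub_zero]
    push_cast at h ⊢
    linear_combination h + ((BR.u 1 0 1 ^ 2 - BR.w 1 0 1) ^ 3 +
      BR.y 1 0 1 * (BR.u 1 0 1 ^ 2 - BR.w 1 0 1) ^ 3) * h0)

/-- characteristic two: to the fibre at zero -/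
noncomputable def twoFrom : BR 1 0 (1 : k) →ₐ[k] BR 1 0 (0 : k) :=
  BR.lift (BR.w 1 0 0) (BR.w 1 0 0 ^ 2 - BR.u 1 0 0) (BR.y 1 0 0 + BR.u 1 0 0 ^ 3) (by
    have h := BR.rel 1 0 (0 : k)
    have h0 := two_zero h2 (BR 1 0 (0 : k))
    rw [map_zero, zero_mul, sub_zero] at h
    rw [map_one, one_mul]
    push_cast at h ⊢
    linear_combination h + (BR.u 1 0 0 ^ 6 + BR.y 1 0 0 * BR.u 1 0 0 ^ 3) * h0)

lemma twoTo_u : twoTo h2 (BR.u 1 0 0) = BR.u 1 0 1 ^ 2 - BR.w 1 0 1 := BR.lift_u _ _ _ _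
lemma twoTo_w : twoTo h2 (BR.w 1 0 0) = BR.u 1 0 1 := BR.lift_w _ _ _ _
lemma twoTo_y : twoTo h2 (BR.y 1 0 0) = BR.y 1 0 1 + (BR.u 1 0 1 ^ 2 - BR.w 1 0 1) ^ 3 :=
  BR.lift_y _ _ _ _
lemma twoFrom_u : twoFrom h2 (BR.u 1 0 1) = BR.w 1 0 0 := BR.lift_u _ _ _ _
lemma twoFrom_w : twoFrom h2 (BR.w 1 0 1) = BR.w 1 0 0 ^ 2 - BR.u 1 0 0 := BR.lift_w _ _ _ _
lemma twoFrom_y : twoFrom h2 (BR.y 1 0 1) = BR.y 1 0 0 + BR.u 1 0 0 ^ 3 := BR.lift_y _ _ _ _

/-- characteristic two -/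
noncomputable def twoEquiv : BR 1 0 (0 : k) ≃ₐ[k] BR 1 0 (1 : k) :=
  AlgEquiv.ofAlgHom (twoTo h2) (twoFrom h2)
    (by
      have h0 := two_zero h2 (BR 1 0 (1 : k))
      apply BR.algHom_ext
      · rw [AlgHom.comp_apply, AlgHom.id_apply, twoFrom_u, twoTo_w]
      · rw [AlgHom.comp_apply, AlgHom.id_apply, twoFrom_w, map_sub, map_pow, twoTo_w, twoTo_u]
        ring
      · rw [AlgHom.comp_apply, AlgHom.id_apply, twoFrom_y, map_add, map_pow, twoTo_y, twoTo_u]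
        linear_combination ((BR.u 1 0 1 ^ 2 - BR.w 1 0 1) ^ 3) * h0)
    (by
      have h0 := two_zero h2 (BR 1 0 (0 : k))
      apply BR.algHom_ext
      · rw [AlgHom.comp_apply, AlgHom.id_apply, twoTo_u, map_sub, map_pow, twoFrom_u, twoFrom_w]
        ring
      · rw [AlgHom.comp_apply, AlgHom.id_apply, twoTo_w, twoFrom_u]
      · rw [AlgHom.comp_apply, AlgHom.id_apply, twoTo_y, map_add, map_pow, map_sub, map_pow,
          twoFrom_y, twoFrom_u, twoFrom_w]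
        linear_combination (BR.u 1 0 0 ^ 3) * h0)

end two

end iso

end Q40.BT
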