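import Pool.Agent.Q40.BT.Bir

set_option autoImplicit false

/-! The surfaces of the family are birational to each other: characteristic not two. -/

namespace Q40.BT

section odd

variable {k : Type} [Field k] {i : k} (hi : i ^ 2 = -1) (h2 : (2 : k) ≠ 0)

/-- open part of the surface for `c = 0` -/
abbrev D0 (k : Type) [Field k] : Type := Localization.Away (BR.u 0 4 (0 : k))

/-- open part of the surface for `c = 1` -/
abbrev D1 (k : Type) [Field k] : Type := Localization.Away (BR.y 0 4 (1 : k))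

namespace D0

/-- `u` -/
noncomputable def u (k : Type) [Field k] : D0 k := algebraMap (BR 0 4 (0 : k)) (D0 k) (BR.u 0 4 0)
/-- `w` -/
noncomputable def w (k : Type) [Field k] : D0 k := algebraMap (BR 0 4 (0 : k)) (D0 k) (BR.w 0 4 0)
/-- `y` -/
noncomputable def y (k : Type) [Field k] : D0 k := algebraMap (BR 0 4 (0 : k)) (D0 k) (BR.y 0 4 0)
/-- `1 / u` -/
noncomputable def t (k : Type) [Field k] : D0 k := IsLocalization.Away.invSelf (BR.u 0 4 (0 : k))
/-- `y / u + u²` -/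
noncomputable def m (k : Type) [Field k] : D0 k := y k * t k + u k ^ 2

lemma ut : u k * t k = 1 := IsLocalization.Away.mul_invSelf _

lemma rel : y k ^ 2 = (u k ^ 2) ^ 3 + 4 * u k ^ 2 := by
  have h := congrArg (algebraMap (BR 0 4 (0 : k)) (D0 k)) (BR.rel 0 4 (0 : k))
  rw [map_zero, zero_mul, sub_zero] at h
  simp only [map_add, map_mul, map_pow, map_natCast] at h
  push_cast at h
  unfold y u
  linear_combination h

end D0

namespace D1

/-- `u` -/
noncomputable def u (k : Type) [Field k] : D1 k := algebraMap (BR 0 4 (1 : k)) (D1 k) (BR.u 0 4 1)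
/-- `w` -/
noncomputable def w (k : Type) [Field k] : D1 k := algebraMap (BR 0 4 (1 : k)) (D1 k) (BR.w 0 4 1)
/-- `y` -/
noncomputable def y (k : Type) [Field k] : D1 k := algebraMap (BR 0 4 (1 : k)) (D1 k) (BR.y 0 4 1)
/-- `1 / y` -/
noncomputable def s (k : Type) [Field k] : D1 k := IsLocalization.Away.invSelf (BR.y 0 4 (1 : k))
/-- `x = u² - w` -/
noncomputable def x (k : Type) [Field k] : D1 k := u k ^ 2 - w k

lemma ys : y k * s k = 1 := IsLocalization.Away.mul_invSelf _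

lemma rel : y k ^ 2 = x k ^ 3 + 4 * x k := by
  have h := congrArg (algebraMap (BR 0 4 (1 : k)) (D1 k)) (BR.rel 0 4 (1 : k))
  rw [map_one, one_mul] at h
  simp only [map_add, map_mul, map_pow, map_natCast, map_sub] at h
  push_cast at h
  unfold y x u w
  linear_combination h

end D1

include hi in
lemma hi' (E : Type) [CommRing E] [Algebra k E] : (algebraMap k E i) ^ 2 = -1 := by
  rw [← map_pow, hi, map_neg, map_one]

include h2 in
lemma hr' (E : Type) [CommRing E] [Algebra k E] : 2 * (algebraMap k E (2⁻¹)) = 1 := by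
  have h : (2 : E) = algebraMap k E 2 := (map_ofNat _ _).symm
  rw [h, ← map_mul, mul_inv_cancel₀ h2, map_one]

/-- the map from the surface for `c = 1` -/
noncomputable def ψ : BR 0 4 (1 : k) →ₐ[k] D0 k :=
  BR.lift (D0.w k) (D0.w k ^ 2 - (-(algebraMap k (D0 k) i) * D0.m k))
    ((1 + algebraMap k (D0 k) i) * (D0.y k + D0.u k ^ 3)) (by
      have h := f3 (hi' hi (D0 k)) (D0.ut (k := k)) D0.rel (rfl : D0.m k = _)
      rw [map_one, one_mul]
      push_cast
      linear_combination h)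

lemma ψ_u : ψ hi (BR.u 0 4 1) = D0.w k := BR.lift_u _ _ _ _
lemma ψ_w : ψ hi (BR.w 0 4 1) = D0.w k ^ 2 - (-(algebraMap k (D0 k) i) * D0.m k) :=
  BR.lift_w _ _ _ _
lemma ψ_y : ψ hi (BR.y 0 4 1) = (1 + algebraMap k (D0 k) i) * (D0.y k + D0.u k ^ 3) :=
  BR.lift_y _ _ _ _

include h2 in
lemma ψ_unit : IsUnit (ψ hi (BR.y 0 4 1)) := by
  rw [ψ_y]
  have h := f3' (hi' hi (D0 k)) (D0.ut (k := k)) D0.rel (rfl : D0.m k = _)
  apply isUnit_of_dvd_unit ⟨_, h.symm⟩
  have h8 : (8 : k) ≠ 0 := by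
    have : (8 : k) = 2 ^ 3 := by norm_num
    rw [this]
    exact pow_ne_zero 3 h2
  have h8' : (8 : D0 k) = algebraMap k (D0 k) 8 := (map_ofNat _ _).symm
  rw [h8']
  exact (isUnit_iff_ne_zero.2 h8).map _

/-- auxiliary element -/
noncomputable def UU (i : k) : D1 k :=
  -(1 + algebraMap k (D1 k) i) * algebraMap k (D1 k) (2⁻¹) * (D1.x k ^ 2 + 4) * D1.s k

/-- the map from the surface for `c = 0` -/
noncomputable def γ : BR 0 4 (0 : k) →ₐ[k] D1 k :=
  BR.lift (UU i) (D1.u k) (UU i * (algebraMap k (D1 k) i * D1.x k) - UU i ^ 3) (by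
      have h := f5 (f4 (hi' hi (D1 k)) (hr' h2 (D1 k)) (D1.ys (k := k)) D1.rel (rfl : UU i = _))
      rw [map_zero, zero_mul, sub_zero]
      push_cast
      linear_combination h)

lemma γ_u : γ hi h2 (BR.u 0 4 0) = UU i := BR.lift_u _ _ _ _
lemma γ_w : γ hi h2 (BR.w 0 4 0) = D1.u k := BR.lift_w _ _ _ _
lemma γ_y : γ hi h2 (BR.y 0 4 0) = UU i * (algebraMap k (D1 k) i * D1.x k) - UU i ^ 3 :=
  BR.lift_y _ _ _ _

lemma γ_unit : IsUnit (γ hi h2 (BR.u 0 4 0)) := by
  rw [γ_u]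
  have h := f6 (hi' hi (D1 k)) (hr' h2 (D1 k)) (D1.ys (k := k)) D1.rel (rfl : UU i = _)
  have hy : IsUnit (D1.y k) := IsUnit.of_mul_eq_one _ D1.ys
  apply isUnit_of_dvd_unit _ hy
  exact ⟨(1 + algebraMap k (D1 k) i) * (algebraMap k (D1 k) i * D1.x k), by rw [← h]; ring⟩

/-- the map of localizations -/
noncomputable def FF : D1 k →ₐ[k] D0 k :=
  IsLocalization.liftAlgHom (M := Submonoid.powers (BR.y 0 4 (1 : k))) (f := ψ hi) (by
    rintro ⟨_, n, rfl⟩
    change IsUnit (ψ hi (BR.y 0 4 1 ^ n))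
    rw [map_pow]
    exact (ψ_unit hi h2).pow n)

/-- the map of localizations -/
noncomputable def GF : D0 k →ₐ[k] D1 k :=
  IsLocalization.liftAlgHom (M := Submonoid.powers (BR.u 0 4 (0 : k))) (f := γ hi h2) (by
    rintro ⟨_, n, rfl⟩
    change IsUnit (γ hi h2 (BR.u 0 4 0 ^ n))
    rw [map_pow]
    exact (γ_unit hi h2).pow n)

lemma FF_alg (b : BR 0 4 (1 : k)) : FF hi h2 (algebraMap _ (D1 k) b) = ψ hi b :=
  IsLocalization.lift_eq _ _

lemma GF_alg (b : BR 0 4 (0 : k)) : GF hi h2 (algebraMap _ (D0 k) b) = γ hi h2 b :=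
  IsLocalization.lift_eq _ _

lemma FF_u : FF hi h2 (D1.u k) = D0.w k := by rw [D1.u, FF_alg, ψ_u]
lemma FF_x : FF hi h2 (D1.x k) = -(algebraMap k (D0 k) i) * D0.m k := by
  rw [D1.x, map_sub, map_pow, FF_u, D1.w, FF_alg, ψ_w]; ring
lemma FF_y : FF hi h2 (D1.y k) = (1 + algebraMap k (D0 k) i) * (D0.y k + D0.u k ^ 3) := by
  rw [D1.y, FF_alg, ψ_y]
lemma GF_u : GF hi h2 (D0.u k) = UU i := by rw [D0.u, GF_alg, γ_u]
lemma GF_w : GF hi h2 (D0.w k) = D1.u k := by rw [D0.w, GF_alg, γ_w]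
lemma GF_y : GF hi h2 (D0.y k) = UU i * (algebraMap k (D1 k) i * D1.x k) - UU i ^ 3 := by
  rw [D0.y, GF_alg, γ_y]

lemma GF_m : GF hi h2 (D0.m k) = algebraMap k (D1 k) i * D1.x k := by
  have h1 : UU i * GF hi h2 (D0.t k) = 1 := by
    rw [← GF_u hi h2, ← map_mul, D0.ut, map_one]
  rw [D0.m, map_add, map_mul, map_pow, GF_u, GF_y]
  linear_combination (algebraMap k (D1 k) i * D1.x k - UU i ^ 2) * h1

lemma FF_UU : FF hi h2 (UU i) = D0.u k := by
  have hm := f1 (D0.ut (k := k)) (rfl : D0.m k = _)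
  have hm2 := f2 (D0.ut (k := k)) D0.rel (rfl : D0.m k = _)
  have hI := hi' hi (D0 k)
  have hr := hr' h2 (D0 k)
  have h1 : FF hi h2 (D1.y k) * FF hi h2 (D1.s k) = 1 := by rw [← map_mul, D1.ys, map_one]
  rw [FF_y] at h1
  have h4 : FF hi h2 4 = 4 := map_ofNat _ _
  rw [UU, map_mul, map_mul, map_mul, map_neg, map_add, map_one, AlgHom.commutes, AlgHom.commutes,
    map_add, map_pow, FF_x, h4]
  -- `-(1 + i) / 2 (X² + 4) s = u`
  have h5 : (-(algebraMap k (D0 k) i) * D0.m k) ^ 2 + 4 = -2 * D0.u k ^ 2 * D0.m k := by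
    linear_combination (D0.m k ^ 2) * hI + hm2
  rw [h5]
  calc -(1 + algebraMap k (D0 k) i) * algebraMap k (D0 k) 2⁻¹ * (-2 * D0.u k ^ 2 * D0.m k) *
        FF hi h2 (D1.s k) =
      (2 * algebraMap k (D0 k) 2⁻¹) * D0.u k * (((1 + algebraMap k (D0 k) i) *
        (D0.u k * D0.m k)) * FF hi h2 (D1.s k)) := by ring
    _ = D0.u k := by rw [hm, h1, hr]; ring

/-- the isomorphism -/
noncomputable def oddEquiv : D1 k ≃ₐ[k] D0 k :=
  AlgEquiv.ofAlgHom (FF hi h2) (GF hi h2)
    (by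
      apply IsLocalization.algHom_ext (Submonoid.powers (BR.u 0 4 (0 : k)))
      apply BR.algHom_ext
      · change FF hi h2 (GF hi h2 (D0.u k)) = D0.u k
        rw [GF_u, FF_UU]
      · change FF hi h2 (GF hi h2 (D0.w k)) = D0.w k
        rw [GF_w, FF_u]
      · change FF hi h2 (GF hi h2 (D0.y k)) = D0.y k
        have hm := f1 (D0.ut (k := k)) (rfl : D0.m k = _)
        have hI := hi' hi (D0 k)
        rw [GF_y, map_sub, map_mul, map_mul, map_pow, FF_UU, FF_x, AlgHom.commutes]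
        linear_combination hm - (D0.u k * D0.m k) * hI)
    (by
      apply IsLocalization.algHom_ext (Submonoid.powers (BR.y 0 4 (1 : k)))
      have hI := hi' hi (D1 k)
      apply BR.algHom_ext
      · change GF hi h2 (FF hi h2 (D1.u k)) = D1.u k
        rw [FF_u, GF_w]
      · change GF hi h2 (FF hi h2 (D1.w k)) = D1.w k
        have h : D1.w k = D1.u k ^ 2 - D1.x k := by rw [D1.x]; ring
        rw [h, map_sub, map_pow, FF_u, FF_x, map_sub, map_pow, GF_w, map_mul, map_neg,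
          AlgHom.commutes, GF_m]
        linear_combination (D1.x k) * hI
      · change GF hi h2 (FF hi h2 (D1.y k)) = D1.y k
        have h := f6 hI (hr' h2 (D1 k)) (D1.ys (k := k)) D1.rel (rfl : UU i = _)
        rw [FF_y, map_mul, map_add, map_one, AlgHom.commutes, map_add, map_pow, GF_y, GF_u]
        linear_combination h)

end odd

end Q40.BT
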