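import Pool.Agent.Q40.BT.Val

set_option autoImplicit false

/-! The contradiction. -/

namespace Q40.BT

open Polynomial IntermediateField

variable {V K kap A L Lam : Type} [CommRing V] [IsDomain V] [ValuationRing V]
  [Field K] [Field kap] [CommRing A] [Field L] [Field Lam]
  [Algebra V K] [Algebra V kap] [Algebra V A] [Algebra V L] [Algebra V Lam]
  [Algebra K L] [Algebra A L] [Algebra kap Lam] [Algebra A Lam]
  [IsScalarTower V A L] [IsScalarTower V K L] [IsScalarTower V A Lam]
  [IsScalarTower V kap Lam] [IsFractionRing V K]

/-- A pair with algebraically independent residues is algebraically independent. -/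
lemma ai_K (S : Sit V K kap A L Lam) {ι : Type} (x : ι → A)
    (h : AlgebraicIndependent kap (fun i => algebraMap A Lam (x i))) :
    AlgebraicIndependent K (fun i => algebraMap A L (x i)) := by
  rw [ai_iff_li] at h ⊢
  have h1 : ∀ m : ι →₀ ℕ, (m.prod fun i n => algebraMap A Lam (x i) ^ n) =
      algebraMap A Lam (m.prod fun i n => x i ^ n) := by
    intro m
    simp only [Finsupp.prod, map_prod, map_pow]
  have h2 : ∀ m : ι →₀ ℕ, (m.prod fun i n => algebraMap A L (x i) ^ n) =
      algebraMap A L (m.prod fun i n => x i ^ n) := by
    intro m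
    simp only [Finsupp.prod, map_prod, map_pow]
  simp only [h1] at h
  simp only [h2]
  exact li_K S _ h

/-- residues of elements of `A ∩ K(x, y)` are in `kap (x, y)` -/
lemma vlc (S : Sit V K kap A L Lam) {e d : ℕ} (hg : Good kap e d) {x y a : A}
    (h : y ^ 2 + e * y = x ^ 3 + d * x)
    (hx : Transcendental kap (algebraMap A Lam x))
    (ha : algebraMap A L a ∈ adjoin K {algebraMap A L x, algebraMap A L y}) :
    algebraMap A Lam a ∈ adjoin kap {algebraMap A Lam x, algebraMap A Lam y} := by
  have hL : algebraMap A L y ^ 2 + e * algebraMap A L y =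
      algebraMap A L x ^ 3 + d * algebraMap A L x := by
    have := congrArg (algebraMap A L) h
    simpa only [map_add, map_mul, map_pow, map_natCast] using this
  have hLam : algebraMap A Lam y ^ 2 + e * algebraMap A Lam y =
      algebraMap A Lam x ^ 3 + d * algebraMap A Lam x := by
    have := congrArg (algebraMap A Lam) h
    simpa only [map_add, map_mul, map_pow, map_natCast] using this
  obtain ⟨s₁, s₂, h1, h2⟩ := frac_of_mem hL ha
  have h3 : fam (algebraMap A L x) (algebraMap A L y) = fun j => algebraMap A L (fam x y j) := by
    funext j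
    rw [map_fam]
  have h4 : fam (algebraMap A Lam x) (algebraMap A Lam y) =
      fun j => algebraMap A Lam (fam x y j) := by
    funext j
    rw [map_fam]
  have h5 := fam_li hg hx hLam
  rw [h4] at h5
  rw [h3] at h1 h2
  obtain ⟨t₁, t₂, h6, h7⟩ := vl S (fam x y) h5 a s₁ s₂ h1 h2
  rw [← h4] at h6 h7
  exact mem_of_frac t₁ t₂ h6 h7

lemma ai_pair_transc {E N : Type} [Field E] [Field N] [Algebra E N] {a b : N}
    (h : AlgebraicIndependent E ![a, b]) : Transcendental E a := h.transcendental 0

theorem contra (S : Sit V K kap A L Lam) {e d : ℕ} (hg : Good V e d) {τ : V} (hτ : τ ≠ 0)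
    (hτ' : ¬ IsUnit τ) {u w y x' y' z' : A}
    (h : y ^ 2 + e * y = (u ^ 2 - algebraMap V A τ * w) ^ 3 + d * (u ^ 2 - algebraMap V A τ * w))
    (h' : y' ^ 2 + e * y' = x' ^ 3 + d * x')
    (hai : AlgebraicIndependent kap ![algebraMap A Lam u, algebraMap A Lam w])
    (hai' : AlgebraicIndependent kap ![algebraMap A Lam x', algebraMap A Lam z'])
    (hL : adjoin K {algebraMap A L u, algebraMap A L w, algebraMap A L y} = ⊤)
    (hL' : adjoin K {algebraMap A L x', algebraMap A L y', algebraMap A L z'} = ⊤)
    (hLam : adjoin kap {algebraMap A Lam x', algebraMap A Lam y', algebraMap A Lam z'} = ⊤) :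
    False := by
  set x : A := u ^ 2 - algebraMap V A τ * w with hx
  have hgK : Good K e d := hg.map (algebraMap V K)
  have hgk : Good kap e d := hg.map (algebraMap V kap)
  have curve : ∀ {B : Type} [CommRing B] (φ : A →+* B) {p q : A},
      q ^ 2 + e * q = p ^ 3 + d * p → φ q ^ 2 + e * φ q = φ p ^ 3 + d * φ p := by
    intro B _ φ p q hpq
    have := congrArg φ hpq
    simpa only [map_add, map_mul, map_pow, map_natCast] using this
  -- algebraic independence in `L`
  have haiL : AlgebraicIndependent K ![algebraMap A L u, algebraMap A L w] := by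
    have h1 : AlgebraicIndependent kap (fun i => algebraMap A Lam (![u, w] i)) := by
      convert hai using 1
      funext i
      fin_cases i <;> rfl
    have h2 := ai_K S _ h1
    convert h2 using 1
    funext i
    fin_cases i <;> rfl
  -- `L = K (x, y, u)`
  have hτK : algebraMap K L (algebraMap V K τ) ≠ 0 := by
    rw [_root_.map_ne_zero]
    exact (map_ne_zero_iff _ (IsFractionRing.injective V K)).2 hτ
  have hxL : algebraMap A L x = algebraMap A L u ^ 2 -
      algebraMap K L (algebraMap V K τ) * algebraMap A L w := by
    rw [hx, map_sub, map_pow, map_mul, ← IsScalarTower.algebraMap_apply V A L,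
      IsScalarTower.algebraMap_apply V K L]
  have htop : adjoin K {algebraMap A L x, algebraMap A L y, algebraMap A L u} = ⊤ := by
    rw [eq_top_iff, ← hL, adjoin_le_iff]
    have mx : algebraMap A L x ∈ adjoin K {algebraMap A L x, algebraMap A L y,
      algebraMap A L u} := subset_adjoin K _ (by simp)
    have my : algebraMap A L y ∈ adjoin K {algebraMap A L x, algebraMap A L y,
      algebraMap A L u} := subset_adjoin K _ (by simp)
    have mu : algebraMap A L u ∈ adjoin K {algebraMap A L x, algebraMap A L y,
      algebraMap A L u} := subset_adjoin K _ (by simp)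
    rintro t (rfl | rfl | rfl)
    · exact mu
    · have : algebraMap A L w = (algebraMap A L u ^ 2 - algebraMap A L x) /
          algebraMap K L (algebraMap V K τ) := by
        rw [eq_div_iff hτK, hxL]; ring
      rw [this]
      exact div_mem (sub_mem (_root_.pow_mem mu 2) mx) (_root_.algebraMap_mem _ _)
    · exact my
  have hu : Transcendental (adjoin K {algebraMap A L x, algebraMap A L y}) (algebraMap A L u) :=
    td haiL htop (curve (algebraMap A L) h)
  have hz' : Transcendental (adjoin K {algebraMap A L x', algebraMap A L y'})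
      (algebraMap A L z') :=
    td haiL hL' (curve (algebraMap A L) h')
  have perm : ∀ {E N : Type} [Field E] [Field N] [Algebra E N] {p q r : N},
      adjoin E {p, q, r} = ⊤ → adjoin E (insert r {p, q}) = ⊤ := by
    intro E N _ _ _ p q r h0
    rw [← h0]
    congr 1
    ext t
    simp only [Set.mem_insert_iff, Set.mem_singleton_iff]
    tauto
  have key1 := rigK hgK hu (mem_of_top (perm htop) (algebraMap A L x'))
    (mem_of_top (perm htop) (algebraMap A L y')) (curve (algebraMap A L) h')
  have key2 := rigK hgK hz' (mem_of_top (perm hL') (algebraMap A L x))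
    (mem_of_top (perm hL') (algebraMap A L y)) (curve (algebraMap A L) h)
  -- residues
  have hxLam : algebraMap A Lam x = algebraMap A Lam u ^ 2 := by
    rw [hx, map_sub, map_pow, map_mul, ← IsScalarTower.algebraMap_apply V A Lam,
      IsScalarTower.algebraMap_apply V kap Lam, S.ker τ hτ', map_zero, zero_mul, sub_zero]
  have hut : Transcendental kap (algebraMap A Lam u) := ai_pair_transc hai
  have hxt : Transcendental kap (algebraMap A Lam x) := by
    rw [hxLam]
    intro h0
    exact hut (h0.of_pow two_pos)
  have hxt' : Transcendental kap (algebraMap A Lam x') := ai_pair_transc hai'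
  have k1 := vlc S hgk h hxt key1.1
  have k2 := vlc S hgk h hxt key1.2
  have k3 := vlc S hgk h' hxt' key2.1
  have hle : adjoin kap {algebraMap A Lam x', algebraMap A Lam y'} ≤
      adjoin kap {algebraMap A Lam x, algebraMap A Lam y} := by
    rw [adjoin_le_iff]
    rintro t (rfl | rfl)
    · exact k1
    · exact k2
  have hzt : Transcendental (adjoin kap {algebraMap A Lam x', algebraMap A Lam y'})
      (algebraMap A Lam z') :=
    td hai' hLam (curve (algebraMap A Lam) h')
  have k4 : algebraMap A Lam u ∈ adjoin kap {algebraMap A Lam x', algebraMap A Lam y'} := by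
    apply sqK hzt (mem_of_top (perm hLam) _)
    rw [← hxLam]
    exact k3
  have k5 := hle k4
  rw [hxLam] at k5
  refine not_mem_sq_y hgk hut ?_ k5
  rw [← hxLam]
  exact curve (algebraMap A Lam) h

end Q40.BT
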