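import Mathlib

set_option autoImplicit false

/-!
# Birational trivializations of families of varieties

The definitions for the problem: families of projective varieties all of whose fibres are
birational to one another, and birational trivializations at a point of the base.
-/

open AlgebraicGeometry CategoryTheory Limits

namespace Q40.BT

attribute [local instance] MvPolynomial.gradedAlgebra

/-- Projective `n`-space over `k`: the scheme `Proj k[x_0, ..., x_n]`, graded by degree. -/
noncomputable def PSpace (n : ℕ) (k : Type) [Field k] : Scheme.{0} :=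
  Proj (MvPolynomial.homogeneousSubmodule (Fin (n + 1)) k)

/-- The structure morphism of projective `n`-space over `k`. -/
noncomputable def PSpace.str (n : ℕ) (k : Type) [Field k] : PSpace n k ⟶ Spec (.of k) :=
  Proj.toSpecZero (MvPolynomial.homogeneousSubmodule (Fin (n + 1)) k) ≫
    Spec.map (CommRingCat.ofHom
      (algebraMap k (MvPolynomial.homogeneousSubmodule (Fin (n + 1)) k 0)))

variable {k : Type} [Field k]

/-- The `k`-scheme `X`, with structure morphism `s`, is an irreducible variety: it is integral,
separated and of finite type over `k`. -/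
structure IsVariety {X : Scheme.{0}} (s : X ⟶ Spec (.of k)) : Prop where
  integral : IsIntegral X
  separated : IsSeparated s
  locallyOfFiniteType : LocallyOfFiniteType s
  quasiCompact : QuasiCompact s

/-- The `k`-scheme `X` is a projective variety: an irreducible variety that is isomorphic to a
closed subscheme of some projective space over `k`. -/
structure IsProjectiveVariety {X : Scheme.{0}} (s : X ⟶ Spec (.of k)) : Prop where
  variety : IsVariety s
  projective : ∃ (n : ℕ) (i : X ⟶ PSpace n k), IsClosedImmersion i ∧ i ≫ PSpace.str n k = s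

/-- `b` is a point of the `k`-scheme `B` (with structure morphism `sB`), that is, a section
`Spec k ⟶ B` of the structure morphism. For an algebraically closed field `k` and `B` of finite
type these are the closed points of `B`. -/
def IsPoint {B : Scheme.{0}} (sB : B ⟶ Spec (.of k)) (b : Spec (.of k) ⟶ B) : Prop :=
  b ≫ sB = 𝟙 (Spec (.of k))

/-- The families of the problem. The base `B` is an irreducible variety over `k`, the total space
`X` is a closed subscheme of `B ×_k ℙ^t`, the projection `f : X ⟶ B` is flat, its fibres
`X_b = X ×_B {b}` at all points `b` of `B` are irreducible varieties, and any two fibres are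
birational to each other over `k`. -/
structure IsFamily {B X : Scheme.{0}} (sB : B ⟶ Spec (.of k)) (f : X ⟶ B) : Prop where
  base : IsVariety sB
  closed : ∃ (t : ℕ) (i : X ⟶ pullback sB (PSpace.str t k)),
    IsClosedImmersion i ∧ i ≫ pullback.fst sB (PSpace.str t k) = f
  flat : Flat f
  fibre : ∀ b : Spec (.of k) ⟶ B, IsPoint sB b → IsVariety (pullback.snd f b)
  birational : ∀ b₁ b₂ : Spec (.of k) ⟶ B, IsPoint sB b₁ → IsPoint sB b₂ →
    Scheme.BirationalOver (pullback.snd f b₁) (pullback.snd f b₂)

/-- `X₀`, with structure morphism `s₀`, is birational over `k` to the fibres of `f`. -/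
def IsModel {B X X₀ : Scheme.{0}} (sB : B ⟶ Spec (.of k)) (f : X ⟶ B)
    (s₀ : X₀ ⟶ Spec (.of k)) : Prop :=
  ∀ b : Spec (.of k) ⟶ B, IsPoint sB b → Scheme.BirationalOver (pullback.snd f b) s₀

/-- The family `f : X ⟶ B` has a birational trivialization at the point `b`, with model `X₀`.
The data are:
* an open subscheme `U` of `B`;
* an integral scheme `B'`, a finite surjective morphism `π : B' ⟶ U` and a point
  `b' : Spec k ⟶ B'` with `π (b') = b` (so that `b` is in `U`; as `π` is finite, `B'` is
  automatically an irreducible variety over `k`);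
* a birational map `Φ` from `X' = X ×_B B'` to `Y' = B' ×_k X₀` over `B'`, represented by an
  isomorphism over `B'` between the dense open subschemes `Φ.source` of `X'` and `Φ.target`
  of `Y'`, such that the generic point `η` of the fibre `X' ×_{B'} {b'}` (a copy of `X_b`) is
  in `Φ.source`. -/
def HasTrivialization {B X X₀ : Scheme.{0}} (sB : B ⟶ Spec (.of k)) (f : X ⟶ B)
    (s₀ : X₀ ⟶ Spec (.of k)) (b : Spec (.of k) ⟶ B) : Prop :=
  ∃ (U : B.Opens) (B' : Scheme.{0}) (π : B' ⟶ U) (b' : Spec (.of k) ⟶ B'),
    IsIntegral B' ∧ IsFinite π ∧ Surjective π ∧ b' ≫ π ≫ U.ι = b ∧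
    ∃ Φ : (pullback f (π ≫ U.ι)).PartialIso (pullback (π ≫ U.ι ≫ sB) s₀),
      Φ.IsOver (pullback.snd f (π ≫ U.ι)) (pullback.fst (π ≫ U.ι ≫ sB) s₀) ∧
      ∃ η : (pullback (pullback.snd f (π ≫ U.ι)) b' : Scheme.{0}),
        IsGenericPoint η Set.univ ∧
          (pullback.fst (pullback.snd f (π ≫ U.ι)) b') η ∈ Φ.source

end Q40.BT
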