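import Pool.Agent.Q40.BT.Ring

set_option autoImplicit false

/-! The ring is a domain. -/

namespace Q40.BT

open Polynomial

section dom

variable {R : Type} [CommRing R] [IsDomain R]

/-- auxiliary embedding of `R[u, w]` in a field -/
noncomputable def emb2 : MvPolynomial (Fin 2) R →+*
    RatFunc (FractionRing (MvPolynomial (Fin 1) R)) :=
  (algebraMap (FractionRing (MvPolynomial (Fin 1) R))[X] (RatFunc _)).comp
    ((mapRingHom (algebraMap (MvPolynomial (Fin 1) R) (FractionRing (MvPolynomial (Fin 1) R)))).comp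
      (MvPolynomial.finSuccEquiv R 1 : MvPolynomial (Fin 2) R →+* (MvPolynomial (Fin 1) R)[X]))

lemma emb2_injective : Function.Injective (emb2 (R := R)) := by
  unfold emb2
  rw [RingHom.coe_comp, RingHom.coe_comp]
  refine (RatFunc.algebraMap_injective _).comp (Function.Injective.comp ?_ ?_)
  · rw [coe_mapRingHom]
    exact Polynomial.map_injective _ (IsFractionRing.injective _ _)
  · exact (MvPolynomial.finSuccEquiv R 1).injective

lemma emb2_u : emb2 (MvPolynomial.X 0 : MvPolynomial (Fin 2) R) = RatFunc.X := by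
  unfold emb2
  rw [RingHom.comp_apply, RingHom.comp_apply]
  have : (MvPolynomial.finSuccEquiv R 1 : MvPolynomial (Fin 2) R →+* (MvPolynomial (Fin 1) R)[X])
    (MvPolynomial.X 0) = X := MvPolynomial.finSuccEquiv_X_zero
  rw [this]
  simp

lemma emb2_cw (c : R) : ∃ b, emb2 (MvPolynomial.C c * MvPolynomial.X 1 :
    MvPolynomial (Fin 2) R) = RatFunc.C b := by
  unfold emb2
  rw [RingHom.comp_apply, RingHom.comp_apply]
  have : (MvPolynomial.finSuccEquiv R 1 : MvPolynomial (Fin 2) R →+* (MvPolynomial (Fin 1) R)[X])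
    (MvPolynomial.C c * MvPolynomial.X 1) = C (MvPolynomial.C c * MvPolynomial.X 0) := by
    rw [map_mul, C_mul]
    congr 1
    · change MvPolynomial.finSuccEquiv R 1 (MvPolynomial.C c) = _
      rw [MvPolynomial.finSuccEquiv_apply, MvPolynomial.eval₂Hom_C]
      rfl
    · exact MvPolynomial.finSuccEquiv_X_succ (j := 0)
  rw [this]
  refine ⟨algebraMap (MvPolynomial (Fin 1) R) _ (MvPolynomial.C c * MvPolynomial.X 0), ?_⟩
  rw [coe_mapRingHom, map_C, RatFunc.algebraMap_C]

theorem gp_prime {e d : ℕ} (hg : Good R e d) (c : R) : Prime (gp e d c) := by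
  have hirr : Irreducible ((gp e d c).map emb2) := by
    apply irreducible_of_degree_le_three_of_not_isRoot
    · rw [(gp_monic e d c).natDegree_map, natDegree_eq_of_degree_eq_some (gp_degree e d c)]
      simp
    · intro q hq
      have h1 : q ^ 2 + e * q = emb2 (xx c) ^ 3 + d * emb2 (xx c) := by
        rw [IsRoot.def, eval_map, gp, eval₂_add, eval₂_sub, eval₂_mul, eval₂_pow, eval₂_X,
          eval₂_C, eval₂_C, map_natCast, map_add, map_mul, map_natCast, map_pow] at hq
        linear_combination hq
      have hg' : Good (FractionRing (MvPolynomial (Fin 1) R)) e d :=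
        (hg.map MvPolynomial.C).map (algebraMap (MvPolynomial (Fin 1) R) (FractionRing _))
      obtain ⟨a, b, ha, -⟩ := rig hg' h1
      obtain ⟨b', hb'⟩ := emb2_cw c
      have h2 : (RatFunc.X : RatFunc (FractionRing (MvPolynomial (Fin 1) R))) ^ 2 =
          RatFunc.C (a + b') := by
        rw [map_add, ← ha, ← hb', xx, map_sub, map_pow, emb2_u]
        ring
      have h3 : (X ^ 2 : (FractionRing (MvPolynomial (Fin 1) R))[X]) = C (a + b') := by
        apply RatFunc.algebraMap_injective
        rw [map_pow, RatFunc.algebraMap_X, RatFunc.algebraMap_C, h2]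
      have h4 := congrArg natDegree h3
      rw [natDegree_X_pow, natDegree_C] at h4
      omega
  refine ⟨(gp_monic e d c).ne_zero, ?_, ?_⟩
  · intro hu
    exact hirr.not_isUnit (hu.map (mapRingHom (emb2 (R := R))))
  · intro a b hab
    have h1 : (gp e d c).map emb2 ∣ a.map emb2 * b.map emb2 := by
      rw [← Polynomial.map_mul]
      exact Polynomial.map_dvd _ hab
    rcases hirr.prime.dvd_or_dvd h1 with h2 | h2
    · exact Or.inl ((map_dvd_map _ emb2_injective (gp_monic e d c)).1 h2)
    · exact Or.inr ((map_dvd_map _ emb2_injective (gp_monic e d c)).1 h2)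

theorem BR.isDomain {e d : ℕ} (hg : Good R e d) (c : R) : IsDomain (BR e d c) :=
  AdjoinRoot.isDomain_of_prime (gp_prime hg c)

lemma BR.of_injective {e d : ℕ} (c : R) : Function.Injective (AdjoinRoot.of (gp e d c)) :=
  AdjoinRoot.of.injective_of_degree_ne_zero (by rw [gp_degree]; norm_num)

/-- `u` and `w` are algebraically independent. -/
lemma BR.ai {e d : ℕ} (c : R) : AlgebraicIndependent R ![BR.u e d c, BR.w e d c] := by
  have h := (MvPolynomial.algebraicIndependent_X (Fin 2) R).map'
    (f := IsScalarTower.toAlgHom R (MvPolynomial (Fin 2) R) (BR e d c)) (BR.of_injective c)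
  convert h using 1
  funext i
  fin_cases i <;> rfl

lemma BR.algebraMap_injective {e d : ℕ} (c : R) : Function.Injective (algebraMap R (BR e d c)) :=
  (BR.of_injective c).comp (MvPolynomial.C_injective (Fin 2) R)

end dom

section ker

variable {R S : Type} [CommRing R] [CommRing S] {e d : ℕ} {c : R} {c' : S}

/-- base change map -/
noncomputable def BR.map (φ : R →+* S) (h : φ c = c') : BR e d c →+* BR e d c' :=
  BR.liftR ((algebraMap S (BR e d c')).comp φ) (BR.u e d c') (BR.w e d c') (BR.y e d c') (by
    rw [RingHom.comp_apply, h]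
    exact BR.rel e d c')

lemma BR.map_u (φ : R →+* S) (h : φ c = c') : BR.map φ h (BR.u e d c) = BR.u e d c' :=
  BR.liftR_u _ _ _ _ _

lemma BR.map_w (φ : R →+* S) (h : φ c = c') : BR.map φ h (BR.w e d c) = BR.w e d c' :=
  BR.liftR_w _ _ _ _ _

lemma BR.map_y (φ : R →+* S) (h : φ c = c') : BR.map φ h (BR.y e d c) = BR.y e d c' :=
  BR.liftR_y _ _ _ _ _

lemma BR.map_algebraMap (φ : R →+* S) (h : φ c = c') (r : R) :
    BR.map φ h (algebraMap R (BR e d c) r) = algebraMap S (BR e d c') (φ r) :=
  BR.liftR_algebraMap _ _ _ _ _ r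

/-- the kernel of a base change map along a surjection -/
theorem BR.ker_map (φ : R →+* S) (h : φ c = c') (hφ : Function.Surjective φ) :
    RingHom.ker (BR.map (e := e) (d := d) φ h) =
      (RingHom.ker φ).map (algebraMap R (BR e d c)) := by
  apply le_antisymm
  · set I : Ideal (BR e d c) := (RingHom.ker φ).map (algebraMap R (BR e d c)) with hI
    let q : R →+* (BR e d c ⧸ I) := (Ideal.Quotient.mk I).comp (algebraMap R (BR e d c))
    have hq : RingHom.ker φ ≤ RingHom.ker q := by
      intro r hr
      rw [RingHom.mem_ker]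
      exact Ideal.Quotient.eq_zero_iff_mem.2 (Ideal.mem_map_of_mem _ hr)
    let ψ : S →+* (BR e d c ⧸ I) := (RingHom.liftOfSurjective φ hφ) ⟨q, hq⟩
    have hψ : ∀ r, ψ (φ r) = q r := fun r =>
      RingHom.liftOfRightInverse_comp_apply φ _ (Function.rightInverse_surjInv hφ) ⟨q, hq⟩ r
    let β : BR e d c' →+* (BR e d c ⧸ I) :=
      BR.liftR ψ (Ideal.Quotient.mk I (BR.u e d c)) (Ideal.Quotient.mk I (BR.w e d c))
        (Ideal.Quotient.mk I (BR.y e d c)) (by
          have h1 : ψ c' = Ideal.Quotient.mk I (algebraMap R (BR e d c) c) := by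
            rw [← h]; exact hψ c
          rw [h1]
          have := congrArg (Ideal.Quotient.mk I) (BR.rel e d c)
          simpa only [map_add, map_mul, map_pow, map_natCast, map_sub] using this)
    have hβ : β.comp (BR.map φ h) = Ideal.Quotient.mk I := by
      apply BR.hom_ext
      · intro r
        rw [RingHom.comp_apply, BR.map_algebraMap, BR.liftR_algebraMap]
        exact hψ r
      · rw [RingHom.comp_apply, BR.map_u]
        exact BR.liftR_u _ _ _ _ _
      · rw [RingHom.comp_apply, BR.map_w]
        exact BR.liftR_w _ _ _ _ _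
      · rw [RingHom.comp_apply, BR.map_y]
        exact BR.liftR_y _ _ _ _ _
    intro x hx
    rw [RingHom.mem_ker] at hx
    have h2 := DFunLike.congr_fun hβ x
    rw [RingHom.comp_apply, hx, map_zero] at h2
    exact Ideal.Quotient.eq_zero_iff_mem.1 h2.symm
  · rw [Ideal.map_le_iff_le_comap]
    intro r hr
    rw [RingHom.mem_ker] at hr
    rw [Ideal.mem_comap, RingHom.mem_ker, BR.map_algebraMap, hr, map_zero]

end ker

end Q40.BT
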