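import Pool.Agent.Q40.BT.Gen
import Pool.Agent.Q40.BT.Ring2

set_option autoImplicit false

/-! The homogeneous equation of the family. -/

open MvPolynomial AlgebraicGeometry CategoryTheory Limits

namespace Q40.BT

open Pool.Agent.Helper198.Sch Q40.Gen

attribute [local instance] MvPolynomial.gradedAlgebra

section eq

variable (e d : ℕ) {R : Type} [CommRing R] (c : R)

/-- The homogeneous sextic in the variables `y = X 0`, `u = X 1`, `w = X 2`, `z = X 3`. -/
noncomputable def GG : MvPolynomial (Fin 4) R :=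
  X 0 ^ 2 * X 3 ^ 4 + (e : MvPolynomial (Fin 4) R) * X 0 * X 3 ^ 5 -
    (X 1 ^ 2 - C c * X 2 * X 3) ^ 3 -
    (d : MvPolynomial (Fin 4) R) * (X 1 ^ 2 - C c * X 2 * X 3) * X 3 ^ 4

lemma GG_hom : (GG e d c).IsHomogeneous 6 := by
  have hn : ∀ n : ℕ, ((n : MvPolynomial (Fin 4) R)).IsHomogeneous 0 := by
    intro n
    rw [← map_natCast (C : R →+* MvPolynomial (Fin 4) R)]
    exact isHomogeneous_C _ _
  have hx : (X 1 ^ 2 - C c * X 2 * X 3 : MvPolynomial (Fin 4) R).IsHomogeneous 2 := by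
    refine IsHomogeneous.sub ?_ ?_
    · exact (isHomogeneous_X R 1).pow 2
    · exact ((isHomogeneous_C _ c).mul (isHomogeneous_X R 2)).mul (isHomogeneous_X R 3)
  unfold GG
  refine IsHomogeneous.sub (IsHomogeneous.sub (IsHomogeneous.add ?_ ?_) ?_) ?_
  · exact ((isHomogeneous_X R 0).pow 2).mul ((isHomogeneous_X R 3).pow 4)
  · exact ((hn e).mul (isHomogeneous_X R 0)).mul ((isHomogeneous_X R 3).pow 5)
  · exact hx.pow 3
  · exact ((hn d).mul hx).mul ((isHomogeneous_X R 3).pow 4)

lemma GG_set_hom : ∀ f ∈ ({GG e d c} : Set (MvPolynomial (Fin 4) R)), ∃ n, f.IsHomogeneous n := by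
  rintro f rfl
  exact ⟨6, GG_hom e d c⟩

/-- the homogeneous ideal of the family -/
noncomputable def JG : HI (Fin 4) R := HI.ofSet {GG e d c} (GG_set_hom e d c)

lemma JG_toIdeal : (JG e d c).toIdeal = Ideal.span {GG e d c} := rfl

lemma aeval_GG {E : Type*} [CommRing E] [Algebra R E] (v : Fin 4 → E) :
    aeval v (GG e d c) = v 0 ^ 2 * v 3 ^ 4 + e * v 0 * v 3 ^ 5 -
      (v 1 ^ 2 - algebraMap R E c * v 2 * v 3) ^ 3 -
      d * (v 1 ^ 2 - algebraMap R E c * v 2 * v 3) * v 3 ^ 4 := by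
  unfold GG
  simp only [map_sub, map_add, map_mul, map_pow, map_natCast, aeval_X, aeval_C]

lemma GG_mem : GG e d c ∈ (JG e d c).toIdeal := mem_ofSet rfl

/-- the point with coordinates `y, u, w, 1` -/
noncomputable def vBR : Fin 4 → BR e d c :=
  ![BR.y e d c, BR.u e d c, BR.w e d c, 1]

lemma vBR_eq : ∀ f ∈ (JG e d c).toIdeal, aeval (vBR e d c) f = 0 := by
  apply aeval_ofSet
  rintro f rfl
  rw [aeval_GG]
  have h := BR.rel e d c
  change BR.y e d c ^ 2 * 1 ^ 4 + e * BR.y e d c * 1 ^ 5 -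
      (BR.u e d c ^ 2 - algebraMap R _ c * BR.w e d c * 1) ^ 3 -
      d * (BR.u e d c ^ 2 - algebraMap R _ c * BR.w e d c * 1) * 1 ^ 4 = 0
  rw [one_pow, one_pow, mul_one, mul_one, mul_one, mul_one]
  linear_combination h

lemma rel_frac : frac (JG e d c) 3 0 ^ 2 + e * frac (JG e d c) 3 0 =
    (frac (JG e d c) 3 1 ^ 2 - algebraMap R _ c * frac (JG e d c) 3 2) ^ 3 +
      d * (frac (JG e d c) 3 1 ^ 2 - algebraMap R _ c * frac (JG e d c) 3 2) := by
  have h := aeval_frac_eq_zero (JG e d c) 3 _ (GG_mem e d c)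
  rw [aeval_GG, frac_self, one_pow, one_pow, mul_one, mul_one, mul_one, mul_one] at h
  linear_combination h

/-- the chart `z ≠ 0` -/
noncomputable def chTo : Ch (JG e d c) 3 →ₐ[R] BR e d c :=
  chLift (JG e d c) 3 (vBR e d c) rfl (vBR_eq e d c)

/-- the inverse -/
noncomputable def chFrom : BR e d c →ₐ[R] Ch (JG e d c) 3 :=
  BR.lift _ _ _ (rel_frac e d c)

lemma chTo_frac (i : Fin 4) : chTo e d c (frac (JG e d c) 3 i) = vBR e d c i :=
  chLift_frac _ _ _ _ _ _

lemma chFrom_vBR (i : Fin 4) : chFrom e d c (vBR e d c i) = frac (JG e d c) 3 i := by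
  fin_cases i
  · exact BR.lift_y _ _ _ (rel_frac e d c)
  · exact BR.lift_u _ _ _ (rel_frac e d c)
  · exact BR.lift_w _ _ _ (rel_frac e d c)
  · change chFrom e d c 1 = frac (JG e d c) 3 3
    rw [map_one, frac_self]

/-- the isomorphism -/
noncomputable def chEquiv : Ch (JG e d c) 3 ≃ₐ[R] BR e d c :=
  AlgEquiv.ofAlgHom (chTo e d c) (chFrom e d c)
    (by
      apply BR.algHom_ext
      · change chTo e d c (chFrom e d c (vBR e d c 1)) = _
        rw [chFrom_vBR, chTo_frac]; rfl
      · change chTo e d c (chFrom e d c (vBR e d c 2)) = _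
        rw [chFrom_vBR, chTo_frac]; rfl
      · change chTo e d c (chFrom e d c (vBR e d c 0)) = _
        rw [chFrom_vBR, chTo_frac]; rfl)
    (by
      apply ch_algHom_ext
      intro i
      change chFrom e d c (chTo e d c (frac (JG e d c) 3 i)) = _
      rw [chTo_frac, chFrom_vBR]
      rfl)

end eq

section base

variable {e d : ℕ} {R R' : Type} [CommRing R] [CommRing R'] (φ : R →+* R') {c : R} {c' : R'}

lemma map_GG (h : φ c = c') : MvPolynomial.map φ (GG e d c) = GG e d c' := by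
  unfold GG
  simp only [map_sub, map_add, map_mul, map_pow, map_natCast, map_X, map_C, h]

lemma rel_JG (h : φ c = c') : V.Rel φ (JG e d c) (JG e d c') := by
  apply rel_ofSet
  rintro f rfl
  exact map_GG φ h

lemma JG_le (h : φ c = c') :
    (JG e d c').toIdeal ≤ (JG e d c).toIdeal.map (MvPolynomial.map φ) := by
  apply le_map_ofSet
  rintro f rfl
  exact ⟨_, rfl, map_GG φ h⟩

end base

section dom

variable {e d : ℕ} {R : Type} [CommRing R] [IsDomain R] (c : R)

lemma nzd_z {F : MvPolynomial (Fin 4) R} (h : X 3 * F ∈ (JG e d c).toIdeal) :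
    F ∈ (JG e d c).toIdeal := by
  rw [JG_toIdeal, Ideal.mem_span_singleton] at h ⊢
  obtain ⟨H, hH⟩ := h
  have h1 : X 3 ∣ GG e d c * H := ⟨F, hH.symm⟩
  rw [X_dvd_mul_iff] at h1
  rcases h1 with ⟨K, hK⟩ | ⟨K, rfl⟩
  · exfalso
    have h2 := congrArg (aeval (![0, 1, 0, 0] : Fin 4 → R)) hK
    rw [aeval_GG, map_mul, aeval_X] at h2
    simp at h2
  · refine ⟨K, ?_⟩
    have h2 : X 3 * F = X 3 * (GG e d c * K) := by rw [hH]; ring
    exact mul_left_cancel₀ (X_ne_zero 3) h2

lemma nzd_z_pow {F : MvPolynomial (Fin 4) R} (n : ℕ) (h : X 3 ^ n * F ∈ (JG e d c).toIdeal) :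
    F ∈ (JG e d c).toIdeal := by
  induction n with
  | zero => simpa using h
  | succ n ih =>
    apply ih
    apply nzd_z
    rw [← mul_assoc, ← pow_succ']
    exact h

/-- a homogeneous polynomial vanishing in the chart ring is in the ideal -/
lemma mem_of_aeval {F : MvPolynomial (Fin 4) R} {n : ℕ} (hF : F.IsHomogeneous n)
    (h : aeval (frac (JG e d c) 3) F = 0) : F ∈ (JG e d c).toIdeal := by
  have h1 := chVal_aeval (JG e d c) 3 hF
  rw [h, map_zero, mul_zero] at h1
  have h2 := (IsLocalization.map_eq_zero_iff (Submonoid.powers (gen (JG e d c) 3))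
    (Localization.Away (gen (JG e d c) 3)) (Ideal.Quotient.mk (JG e d c).toIdeal F)).1 h1.symm
  obtain ⟨⟨_, m, rfl⟩, hm⟩ := h2
  apply nzd_z_pow c m
  rw [← Ideal.Quotient.eq_zero_iff_mem, map_mul, map_pow]
  exact hm

lemma JG_isPrime (hg : Good R e d) : (JG e d c).toIdeal.IsPrime := by
  have hd : IsDomain (Ch (JG e d c) 3) :=
    have := BR.isDomain hg c
    (chEquiv e d c).toMulEquiv.isDomain _
  apply (JG e d c).isHomogeneous.isPrime_of_homogeneous_mem_or_mem
  · intro h
    have h1 : (1 : MvPolynomial (Fin 4) R) ∈ (JG e d c).toIdeal := by rw [h]; trivial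
    have h2 := aeval_frac_eq_zero (JG e d c) 3 _ h1
    rw [map_one] at h2
    exact one_ne_zero h2
  · rintro x y ⟨n, hx⟩ ⟨m, hy⟩ hxy
    have h1 := aeval_frac_eq_zero (JG e d c) 3 _ hxy
    rw [map_mul, mul_eq_zero] at h1
    rcases h1 with h1 | h1
    · exact Or.inl (mem_of_aeval c hx h1)
    · exact Or.inr (mem_of_aeval c hy h1)

lemma frac_ne_zero (hg : Good R e d) (i : Fin 4) : frac (JG e d c) 3 i ≠ 0 := by
  have hd := BR.isDomain hg c
  intro h
  have h1 := chTo_frac e d c i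
  rw [h, map_zero] at h1
  have hu : ∀ j : Fin 2, AdjoinRoot.of (gp e d c) (X j) ≠ 0 := by
    intro j h0
    exact X_ne_zero j (BR.of_injective c (h0.trans (map_zero _).symm))
  have hy : BR.y e d c ≠ 0 := by
    apply AdjoinRoot.mk_ne_zero_of_natDegree_lt (gp_monic e d c) Polynomial.X_ne_zero
    rw [Polynomial.natDegree_X, Polynomial.natDegree_eq_of_degree_eq_some (gp_degree e d c)]
    norm_num
  fin_cases i
  · exact hy h1.symm
  · exact hu 0 h1.symm
  · exact hu 1 h1.symm
  · exact one_ne_zero h1.symm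

lemma gen_ne_zero (hg : Good R e d) (i : Fin 4) : gen (JG e d c) i ≠ 0 := by
  intro h
  have h1 : X i ∈ (JG e d c).toIdeal := Ideal.Quotient.eq_zero_iff_mem.1 h
  have h2 := aeval_frac_eq_zero (JG e d c) 3 _ h1
  rw [aeval_X] at h2
  exact frac_ne_zero c hg i h2

lemma ch_isDomain (hg : Good R e d) (i : Fin 4) : IsDomain (Ch (JG e d c) i) := by
  have hp := JG_isPrime c hg
  have h1 : IsDomain (MvPolynomial (Fin 4) R ⧸ (JG e d c).toIdeal) := Ideal.Quotient.isDomain _
  have h2 : IsDomain (Localization.Away (gen (JG e d c) i)) :=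
    IsLocalization.isDomain_localization
      (powers_le_nonZeroDivisors_of_noZeroDivisors (gen_ne_zero c hg i))
  exact (chVal_injective (JG e d c) i).isDomain (chVal (JG e d c) i).toRingHom

lemma ch_algebraMap_injective (hg : Good R e d) (i : Fin 4) :
    Function.Injective (algebraMap R (Ch (JG e d c) i)) := by
  have hp := JG_isPrime c hg
  have h1 : IsDomain (MvPolynomial (Fin 4) R ⧸ (JG e d c).toIdeal) := Ideal.Quotient.isDomain _
  rw [injective_iff_map_eq_zero]
  intro r hr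
  have h2 := congrArg (chVal (JG e d c) i) hr
  rw [map_zero, AlgHom.commutes, IsScalarTower.algebraMap_apply R
    (MvPolynomial (Fin 4) R ⧸ (JG e d c).toIdeal) (Localization.Away (gen (JG e d c) i))] at h2
  have h3 : Function.Injective (algebraMap (MvPolynomial (Fin 4) R ⧸ (JG e d c).toIdeal)
      (Localization.Away (gen (JG e d c) i))) :=
    IsLocalization.injective _
      (powers_le_nonZeroDivisors_of_noZeroDivisors (gen_ne_zero c hg i))
  have h4 : algebraMap R (MvPolynomial (Fin 4) R ⧸ (JG e d c).toIdeal) r = 0 :=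
    h3 (h2.trans (map_zero _).symm)
  have h5 : C r ∈ (JG e d c).toIdeal := Ideal.Quotient.eq_zero_iff_mem.1 h4
  have h6 := vBR_eq e d c _ h5
  rw [aeval_C] at h6
  exact BR.algebraMap_injective c (h6.trans (map_zero _).symm)

end dom

end Q40.BT
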