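import Pool.Agent.Q40.BT.Fam

set_option autoImplicit false

/-! Geometric properties of the family. -/

open MvPolynomial AlgebraicGeometry CategoryTheory Limits

namespace Q40.BT

open Pool.Agent.Helper198.Sch Q40.Gen

attribute [local instance] MvPolynomial.gradedAlgebra

section proper

variable {σ : Type} [Finite σ] {R : Type} [CommRing R] (J : HI σ R)

instance finiteType_quot : Algebra.FiniteType (qgrad J.toIdeal 0) (MvPolynomial σ R ⧸ J.toIdeal) := by
  have : Algebra.FiniteType R (MvPolynomial σ R ⧸ J.toIdeal) := inferInstance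
  have : IsScalarTower R (qgrad J.toIdeal 0) (MvPolynomial σ R ⧸ J.toIdeal) :=
    IsScalarTower.of_algebraMap_eq (R := R) (S := qgrad J.toIdeal 0)
      (A := MvPolynomial σ R ⧸ J.toIdeal) (fun _ => rfl)
  exact Algebra.FiniteType.of_restrictScalars_finiteType R _ _

omit [Finite σ] in
lemma surj_zero : Function.Surjective (algebraMap R (qgrad J.toIdeal 0)) := by
  rintro ⟨x, hx⟩
  obtain ⟨f, hf, rfl⟩ := mem_qgrad.1 hx
  have h1 : f = C (f.coeff 0) := by
    apply totalDegree_eq_zero_iff_eq_C.1
    exact Nat.le_zero.1 hf.totalDegree_le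
  refine ⟨f.coeff 0, ?_⟩
  apply Subtype.ext
  change Ideal.Quotient.mk J.toIdeal (C (f.coeff 0)) = Ideal.Quotient.mk J.toIdeal f
  rw [← h1]

instance isProper_str : IsProper (V.str J) := by
  have h1 : IsProper (Proj.toSpecZero (qgrad J.toIdeal)) := inferInstance
  have h2 : IsClosedImmersion (Spec.map (CommRingCat.ofHom (algebraMap R (qgrad J.toIdeal 0)))) :=
    IsClosedImmersion.spec_of_surjective _ (surj_zero J)
  have h3 : IsProper (Spec.map (CommRingCat.ofHom (algebraMap R (qgrad J.toIdeal 0)))) :=
    inferInstance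
  exact MorphismProperty.comp_mem @IsProper _ _ h1 h3

end proper

section flat

variable {e d : ℕ} {R : Type} [CommRing R] [IsDomain R] [IsPrincipalIdealRing R]

lemma ch_flat (hg : Good R e d) (c : R) (i : Fin 4) : Module.Flat R (Ch (JG e d c) i) := by
  have h1 := ch_isDomain c hg i
  have h2 := ch_algebraMap_injective c hg i
  have h3 : Module.IsTorsionFree R (Ch (JG e d c) i) := by
    have : FaithfulSMul R (Ch (JG e d c) i) := (faithfulSMul_iff_algebraMap_injective _ _).2 h2
    infer_instance
  infer_instance

lemma flat_str (hg : Good R e d) (c : R) : Flat (V.str (JG e d c)) := by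
  apply IsZariskiLocalAtSource.of_openCover (P := @Flat) (V.cover (JG e d c)).openCover
  intro (i : Fin 4)
  change Flat (V.chart (JG e d c) i ≫ V.str (JG e d c))
  rw [V.chart_str, HasRingHomProperty.Spec_iff (P := @Flat)]
  exact ch_flat hg c i

end flat

section integral

variable {e d : ℕ} {R : Type} [CommRing R] [IsDomain R]

lemma isIntegral_V (hg : Good R e d) (c : R) : IsIntegral (V (JG e d c)) := by
  have h3 := ch_isDomain c hg 3
  apply isIntegral_of_charts (JG e d c) id (V.exists_mem_D _) (fun i => ch_isDomain c hg i)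
    (V.chart (JG e d c) 3 (genericPoint (Spec (.of (Ch (JG e d c) 3)))))
  intro i
  rw [chart_mem_D]
  have : genericPoint (Spec (.of (Ch (JG e d c) 3))) = (⊥ : PrimeSpectrum (Ch (JG e d c) 3)) :=
    genericPoint_eq_bot_of_affine (.of (Ch (JG e d c) 3))
  rw [this]
  exact fun h => frac_ne_zero c hg i h

end integral

end Q40.BT
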