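import Pool.Agent.Q40.BT.Geo2

set_option autoImplicit false

/-! The main theorem. -/

namespace Q40.BT

open AlgebraicGeometry CategoryTheory Limits IsLocalRing TensorProduct
open Pool.Agent.Helper198.Sch Q40.Gen

open Polynomial in
/-- The family has no birational trivialization at the origin. -/
theorem not_hasTrivialization {k : Type} [Field k] [IsAlgClosed k] {e d : ℕ} (hg : Good k e d)
    {X₀ : Scheme.{0}} (s₀ : X₀ ⟶ Spec (.of k)) (hX : IsIntegral X₀)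
    (hm : IsModel (sBB k) (ff k e d) s₀) :
    ¬ HasTrivialization (sBB k) (ff k e d) s₀ (b₀ k) := by
  rintro ⟨U, B', π, b', hB', hπ, hsurj, hb, Φ, hΦ, η, hη, hηm⟩
  have hb2 : b' ≫ (π ≫ U.ι) = b₀ k := hb
  let β : B' := b' (closedPoint k)
  obtain ⟨O, iR, iD, iV, v, hv, hinj⟩ := exists_val β
  obtain ⟨γ, hγ⟩ : ∃ γ : CommRingCat.of k[X] ⟶ .of O, v ≫ (π ≫ U.ι) = Spec.map γ :=
    ⟨Spec.preimage _, (Spec.map_preimage _).symm⟩
  let τ : O := γ.hom X
  have hτ : ¬ IsUnit τ := tau_not_unit _ b' hb2 v hv γ hγ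
  have hτ0 : τ ≠ 0 := tau_ne_zero π β γ (hinj _ γ hγ X)
  let iA : Algebra k O := (γ.hom.comp C).toAlgebra
  have hOk : v ≫ (π ≫ U.ι ≫ sBB k) = Spec.map (CommRingCat.ofHom (algebraMap k O)) := by
    have e1 : v ≫ (π ≫ U.ι ≫ sBB k) = (v ≫ (π ≫ U.ι)) ≫ sBB k := by
      simp only [Category.assoc]
    rw [e1, hγ, ← Spec.map_comp]
    rfl
  -- the pullback of the family to the valuation ring
  have hZ1 : IsPullback (V.map γ.hom (Jt k e d) (JG e d τ) (rel_JG γ.hom rfl))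
      (V.str (JG e d τ)) (ff k e d) (v ≫ (π ≫ U.ι)) := by
    rw [hγ]
    exact isPullback_fam γ.hom
  have hZ := IsPullback.of_right' hZ1 (IsPullback.of_hasPullback (ff k e d) (π ≫ U.ι))
  have hT := IsPullback.of_hasPullback
    (Φ.source.ι ≫ pullback.snd (ff k e d) (π ≫ U.ι)) v
  obtain ⟨a, ha, hap, hapb⟩ := open_lift hZ Φ.source.ι hT
  -- the pullback of the product to the valuation ring
  have hY0 := (IsPullback.of_hasPullback
    (Spec.map (CommRingCat.ofHom (algebraMap k O))) s₀).flip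
  have hY2 : IsPullback (pullback.snd (Spec.map (CommRingCat.ofHom (algebraMap k O))) s₀)
      (pullback.fst (Spec.map (CommRingCat.ofHom (algebraMap k O))) s₀) s₀
      (v ≫ (π ≫ U.ι ≫ sBB k)) := by
    rw [hOk]
    exact hY0
  have hY := IsPullback.of_right' hY2 (IsPullback.of_hasPullback (π ≫ U.ι ≫ sBB k) s₀).flip
  have hT' : IsPullback (pullback.fst (Φ.source.ι ≫ pullback.snd (ff k e d) (π ≫ U.ι)) v)
      (pullback.snd (Φ.source.ι ≫ pullback.snd (ff k e d) (π ≫ U.ι)) v)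
      ((Φ.iso.hom ≫ Φ.target.ι) ≫ pullback.fst (π ≫ U.ι ≫ sBB k) s₀) v := by
    have e1 : (Φ.iso.hom ≫ Φ.target.ι) ≫ pullback.fst (π ≫ U.ι ≫ sBB k) s₀ =
        Φ.source.ι ≫ pullback.snd (ff k e d) (π ≫ U.ι) := by
      rw [Category.assoc]
      exact hΦ
    rw [e1]
    exact hT
  obtain ⟨a', ha', hap', -⟩ := open_lift hY (Φ.iso.hom ≫ Φ.target.ι) hT'
  -- the point
  have hpt : (pullback.snd (ff k e d) (π ≫ U.ι))
      ((pullback.fst (pullback.snd (ff k e d) (π ≫ U.ι)) b') η) = v (closedPoint O) := by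
    rw [hv, ← Scheme.Hom.comp_apply, pullback.condition, Scheme.Hom.comp_apply]
    congr 1
    exact Subsingleton.elim (α := PrimeSpectrum k) _ _
  obtain ⟨z, hz1, hz2⟩ := exists_pt hZ _ _ hpt
  have hz3 : V.map γ.hom (Jt k e d) (JG e d τ) (rel_JG γ.hom rfl) z ∈ V.D (Jt k e d) 3 := by
    have e1 := (IsPullback.of_hasPullback (ff k e d) (π ≫ U.ι)).lift_fst _ _
      (by rw [hZ1.w, Category.assoc] : V.map γ.hom (Jt k e d) (JG e d τ) (rel_JG γ.hom rfl) ≫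
        ff k e d = (V.str (JG e d τ) ≫ v) ≫ (π ≫ U.ι))
    rw [← e1, Scheme.Hom.comp_apply, hz1]
    exact mem_chart _ b' hb2 η hη hg
  have hz4 : z ∈ V.D (JG e d τ) 3 := (map_mem_D _ _ _ _ _ _).1 hz3
  have hsp := specializes_of_special (hg.map (algebraMap k O)) hτ z hz4 hz2
  have hza : z ∈ a.opensRange := by
    obtain ⟨t, -, ht⟩ := exists_pt hapb ⟨_, hηm⟩ z hz1.symm
    exact ⟨t, ht⟩
  obtain ⟨t₀, ht₀⟩ := hsp.mem_open a.opensRange.isOpen hza
  -- the chart of the model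
  obtain ⟨R, j₀, hj₀, ⟨y₀, hy₀⟩, -⟩ := Scheme.exists_affine_mem_range_and_range_subset
    (U := (⊤ : X₀.Opens))
    (x := pullback.snd (Spec.map (CommRingCat.ofHom (algebraMap k O))) s₀ (a' t₀)) trivial
  have hne : Nonempty (Spec R) := ⟨y₀⟩
  have hE : IsIntegral (Spec R) := isIntegral_of_isOpenImmersion j₀
  have hRd : IsDomain R := (affine_isIntegral_iff R).1 hE
  let iR : Algebra k R := (Spec.preimage (j₀ ≫ s₀)).hom.toAlgebra
  have hj : j₀ ≫ s₀ = Spec.map (CommRingCat.ofHom (algebraMap k R)) :=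
    (Spec.map_preimage _).symm
  obtain ⟨j₂, hj₂, ej₂, hr⟩ := tensor_chart hY0 (A₀ := R) j₀ hj
  obtain ⟨q', hq'⟩ := hr (a' t₀) ⟨y₀, hy₀⟩
  obtain ⟨T, a₁, a₂, w, i₁, i₂, e12, hw⟩ := exists_common
    (pZ := V.str (JG e d τ)) (pY := pullback.fst (Spec.map (CommRingCat.ofHom (algebraMap k O))) s₀)
    a a' (hap.trans hap'.symm) (jc e d τ) j₂ t₀ _ q' ht₀ hq'.symm
  rw [jc_str, ej₂] at e12
  obtain ⟨M, f₁, f₂, f₃, f₄, f₅, ψ, hψ, hψ'⟩ := exists_model hg hX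
    ((isModel_V hg (b₀ k)).symm.trans (hm (b₀ k) (isPoint_b₀ k))) (A₀ := R) j₀ hj
  exact sch_contra hg hτ0 hτ a₁ a₂ e12 w (congrArg PrimeSpectrum.asIdeal hw) ψ hψ hψ'

end Q40.BT
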