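import Pool.Agent.Q40.BT.Rig

set_option autoImplicit false

/-! Field theory: consequences of rigidity. -/

namespace Q40.BT

open Polynomial IntermediateField

section simple

variable {F N : Type*} [Field F] [Field N] [Algebra F N]

/-- rigidity in a simple transcendental extension -/
theorem rigF {e d : ℕ} (hg : Good F e d) {z : N} (hz : Transcendental F z) {p q : N}
    (hp : p ∈ F⟮z⟯) (hq : q ∈ F⟮z⟯) (h : q ^ 2 + e * q = p ^ 3 + d * p) :
    ∃ a b : F, p = algebraMap F N a ∧ q = algebraMap F N b := by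
  let φ := RatFunc.algEquivOfTranscendental z hz
  have h1 : (φ.symm ⟨q, hq⟩) ^ 2 + e * (φ.symm ⟨q, hq⟩) =
      (φ.symm ⟨p, hp⟩) ^ 3 + d * (φ.symm ⟨p, hp⟩) := by
    apply φ.injective
    simp only [map_add, map_mul, map_pow, map_natCast, AlgEquiv.apply_symm_apply]
    apply Subtype.ext
    push_cast
    exact h
  obtain ⟨a, b, ha, hb⟩ := rig hg h1
  refine ⟨a, b, ?_, ?_⟩
  · have h2 : (⟨p, hp⟩ : F⟮z⟯) = φ (RatFunc.C a) := by rw [← ha, AlgEquiv.apply_symm_apply]
    rw [← RatFunc.algebraMap_eq_C, AlgEquiv.commutes] at h2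
    exact congrArg Subtype.val h2
  · have h2 : (⟨q, hq⟩ : F⟮z⟯) = φ (RatFunc.C b) := by rw [← hb, AlgEquiv.apply_symm_apply]
    rw [← RatFunc.algebraMap_eq_C, AlgEquiv.commutes] at h2
    exact congrArg Subtype.val h2

/-- an element of a simple transcendental extension whose square is a constant is a constant -/
theorem sqF {z : N} (hz : Transcendental F z) {p : N} (hp : p ∈ F⟮z⟯) {c : F}
    (h : p ^ 2 = algebraMap F N c) : ∃ a : F, p = algebraMap F N a := by
  let φ := RatFunc.algEquivOfTranscendental z hz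
  have h1 : (φ.symm ⟨p, hp⟩) ^ 2 = RatFunc.C c := by
    apply φ.injective
    rw [map_pow, AlgEquiv.apply_symm_apply, ← RatFunc.algebraMap_eq_C, AlgEquiv.commutes]
    apply Subtype.ext
    exact h
  obtain ⟨a, ha⟩ := const_of_sq h1
  refine ⟨a, ?_⟩
  have h2 : (⟨p, hp⟩ : F⟮z⟯) = φ (RatFunc.C a) := by rw [← ha, AlgEquiv.apply_symm_apply]
  rw [← RatFunc.algebraMap_eq_C, AlgEquiv.commutes] at h2
  exact congrArg Subtype.val h2

/-- `u` is not a rational function of `u²` -/
theorem not_mem_sq {u : N} (hu : Transcendental F u) : u ∉ F⟮u ^ 2⟯ := by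
  intro h
  obtain ⟨r, s, hrs⟩ := (mem_adjoin_simple_iff F u).1 h
  have hu0 : u ≠ 0 := by
    rintro rfl
    exact hu isAlgebraic_zero
  have hs0 : aeval (u ^ 2) s ≠ 0 := by
    intro h0
    rw [h0, div_zero] at hrs
    exact hu0 hrs
  have h1 : aeval u (X * expand F 2 s - expand F 2 r) = 0 := by
    rw [map_sub, map_mul, aeval_X, expand_aeval, expand_aeval, sub_eq_zero]
    field_simp at hrs
    rw [mul_comm] at hrs
    linear_combination hrs
  have h2 : X * expand F 2 s = expand F 2 r := by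
    by_contra hcon
    exact hu ⟨_, sub_ne_zero.2 hcon, h1⟩
  have hs : s ≠ 0 := by
    rintro rfl
    simp at hs0
  have h3 := congrArg natDegree h2
  rw [natDegree_X_mul (by rwa [Ne, expand_eq_zero two_pos]), natDegree_expand,
    natDegree_expand] at h3
  omega

/-- decomposition of elements of a quadratic extension -/
theorem quad_mem {y : N} {c e : F} (hy : y ^ 2 + algebraMap F N e * y = algebraMap F N c) {t : N}
    (ht : t ∈ F⟮y⟯) : ∃ a b : F, t = algebraMap F N a + algebraMap F N b * y := by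
  let Q : F[X] := X ^ 2 + C e * X - C c
  have hQ : Q = X ^ 2 + (C e * X - C c) := by
    change _ - _ = _
    ring
  have hdeg : (C e * X - C c : F[X]).degree < 2 := by
    have h1 : (C e * X - C c : F[X]) = C e * X + C (-c) := by rw [C_neg]; ring
    rw [h1]
    exact degree_linear_lt
  have hQm : Q.Monic := by
    rw [hQ]
    exact monic_X_pow_add hdeg
  have hQ0 : aeval y Q = 0 := by
    simp only [Q, map_sub, map_add, map_mul, map_pow, aeval_X, aeval_C]
    rw [hy, sub_self]
  have hint : IsIntegral F y := ⟨Q, hQm, hQ0⟩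
  have h1 : t ∈ Algebra.adjoin F {y} := by
    rw [← IntermediateField.adjoin_simple_toSubalgebra_of_isAlgebraic hint.isAlgebraic]
    exact ht
  rw [Algebra.adjoin_singleton_eq_range_aeval] at h1
  obtain ⟨P, rfl⟩ := h1
  have h2 : aeval y (P %ₘ Q) = aeval y P := aeval_modByMonic_eq_self_of_root hQ0
  have h3 : (P %ₘ Q).degree < 2 := by
    have h4 := degree_modByMonic_lt P hQm
    have h5 : Q.degree = 2 := by
      rw [hQ]
      rw [degree_add_eq_left_of_degree_lt] <;> rw [degree_X_pow]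
      · rfl
      · exact hdeg
    rwa [h5] at h4
  have h4 : P %ₘ Q = C ((P %ₘ Q).coeff 1) * X + C ((P %ₘ Q).coeff 0) := by
    apply eq_X_add_C_of_degree_le_one
    exact Order.le_of_lt_succ h3
  refine ⟨(P %ₘ Q).coeff 0, (P %ₘ Q).coeff 1, ?_⟩
  change aeval y P = _
  rw [← h2]
  conv_lhs => rw [h4]
  simp only [map_add, map_mul, aeval_C, aeval_X]
  ring

end simple

section inter

variable {E N : Type*} [Field E] [Field N] [Algebra E N]

theorem rigK {e d : ℕ} (hg : Good E e d) {K : IntermediateField E N} {z : N}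
    (hz : Transcendental K z) {p q : N} (hp : p ∈ K⟮z⟯) (hq : q ∈ K⟮z⟯)
    (h : q ^ 2 + e * q = p ^ 3 + d * p) : p ∈ K ∧ q ∈ K := by
  obtain ⟨a, b, rfl, rfl⟩ := rigF (hg.map (algebraMap E K)) hz hp hq h
  exact ⟨a.2, b.2⟩

theorem sqK {K : IntermediateField E N} {z : N}
    (hz : Transcendental K z) {p : N} (hp : p ∈ K⟮z⟯) (h : p ^ 2 ∈ K) : p ∈ K := by
  obtain ⟨a, rfl⟩ := sqF hz hp (c := ⟨p ^ 2, h⟩) rfl
  exact a.2

/-- membership in the top of a tower -/
lemma mem_of_top {S : Set N} {z : N} (h : adjoin E (insert z S) = ⊤) (t : N) :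
    t ∈ (adjoin (adjoin E S) {z} : IntermediateField (adjoin E S) N) := by
  have h1 : t ∈ adjoin E (S ∪ {z}) := by
    rw [Set.union_singleton, h]
    trivial
  rw [← adjoin_adjoin_left] at h1
  exact h1

/-- `u` is not a rational function of `u²` and `y` when `y² + e y = u⁶ + d u²`. -/
theorem not_mem_sq_y {e d : ℕ} (hg : Good E e d) {u y : N} (hu : Transcendental E u)
    (h : y ^ 2 + e * y = (u ^ 2) ^ 3 + d * u ^ 2) : u ∉ adjoin E {u ^ 2, y} := by
  intro hmem
  let K : IntermediateField E N := E⟮u ^ 2⟯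
  have hu2K : u ^ 2 ∈ K := mem_adjoin_simple_self E (u ^ 2)
  have h1 : u ∈ K⟮y⟯ := by
    have h2 : u ∈ adjoin E ({u ^ 2} ∪ {y}) := hmem
    rw [← adjoin_adjoin_left] at h2
    exact h2
  have hcK : (u ^ 2) ^ 3 + d * u ^ 2 ∈ K :=
    add_mem (pow_mem hu2K 3) (mul_mem (_root_.natCast_mem K d) hu2K)
  obtain ⟨a, b, hab⟩ := quad_mem (F := K) (e := (e : K)) (c := ⟨_, hcK⟩) (y := y)
    (by rw [map_natCast, h]; rfl) h1
  have hKu : K ≤ E⟮u⟯ := by
    rw [adjoin_simple_le_iff]
    exact pow_mem (mem_adjoin_simple_self E u) 2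
  by_cases hb : b = 0
  · rw [hb, map_zero, zero_mul, add_zero] at hab
    apply not_mem_sq hu
    change u ∈ K
    have : (algebraMap K N a) ∈ K := a.2
    rw [← hab] at this
    exact this
  · have hb' : algebraMap K N b ≠ 0 := (_root_.map_ne_zero _).2 hb
    have hy : y = (u - algebraMap K N a) / algebraMap K N b := by
      rw [eq_div_iff hb']
      linear_combination -hab
    have hy' : y ∈ E⟮u⟯ := by
      rw [hy]
      exact div_mem (sub_mem (mem_adjoin_simple_self E u) (hKu a.2)) (hKu b.2)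
    obtain ⟨a', b', h3, -⟩ := rigF hg hu (hKu hu2K) hy' h
    apply hu
    have h4 : IsAlgebraic E (u ^ 2) := by rw [h3]; exact isAlgebraic_algebraMap a'
    exact h4.of_pow two_pos

end inter

end Q40.BT
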