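import Pool.Agent.Q40.BT.Fld

set_option autoImplicit false

/-! Transcendence degree arguments. -/

namespace Q40.BT

open Polynomial IntermediateField

section td

variable {E N : Type} [Field E] [Field N] [Algebra E N]

lemma trdeg_le_one {x : N} (h : ∀ t : N, IsAlgebraic (Algebra.adjoin E {x}) t) :
    Algebra.trdeg E N ≤ 1 := by
  have : Algebra.IsAlgebraic (Algebra.adjoin E {x}) N := ⟨h⟩
  have := Algebra.IsAlgebraic.trdeg_le_cardinalMk E ({x} : Set N)
  simpa using this

lemma two_le_trdeg {a b : N} (h : AlgebraicIndependent E ![a, b]) : 2 ≤ Algebra.trdeg E N := by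
  have := h.cardinalMk_le_trdeg
  simpa using this

lemma curve_alg {e d : ℕ} {x y : N} (h : y ^ 2 + e * y = x ^ 3 + d * x) :
    IsAlgebraic (Algebra.adjoin E {x}) y := by
  let x' : Algebra.adjoin E {x} := ⟨x, Algebra.subset_adjoin rfl⟩
  let c : Algebra.adjoin E {x} := x' ^ 3 + d * x'
  have hQm : (X ^ 2 + ((e : (Algebra.adjoin E {x})[X]) * X - C c) :
      (Algebra.adjoin E {x})[X]).Monic := by
    apply monic_X_pow_add
    have h1 : ((e : (Algebra.adjoin E {x})[X]) * X - C c) =
      C (e : Algebra.adjoin E {x}) * X + C (-c) := by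
      rw [C_neg, map_natCast]; ring
    rw [h1]
    exact degree_linear_lt
  apply IsIntegral.isAlgebraic
  refine ⟨_, hQm, ?_⟩
  rw [← aeval_def]
  simp only [map_sub, map_add, map_mul, map_pow, aeval_X, aeval_C, map_natCast, c]
  change y ^ 2 + (e * y - (x ^ 3 + d * x)) = 0
  linear_combination h

lemma alg_trans {s t : Set N} (h : ∀ x ∈ s, IsAlgebraic (Algebra.adjoin E t) x)
    {a : N} (ha : IsAlgebraic (Algebra.adjoin E s) a) : IsAlgebraic (Algebra.adjoin E t) a :=
  ha.adjoin_of_forall_isAlgebraic (fun x hx => h x hx.1)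

lemma alg_self {s : Set N} {x : N} (hx : x ∈ s) : IsAlgebraic (Algebra.adjoin E s) x :=
  isAlgebraic_algebraMap (⟨x, Algebra.subset_adjoin hx⟩ : Algebra.adjoin E s)

lemma alg_top {s : Set N} (h : adjoin E s = ⊤) (t : N) : IsAlgebraic (Algebra.adjoin E s) t := by
  rw [← IntermediateField.isAlgebraic_adjoin_iff]
  have ht : t ∈ adjoin E s := by rw [h]; trivial
  exact isAlgebraic_algebraMap (⟨t, ht⟩ : adjoin E s)

theorem td {e d : ℕ} {x y z a b : N} (hAI : AlgebraicIndependent E ![a, b])
    (htop : adjoin E {x, y, z} = ⊤) (h : y ^ 2 + e * y = x ^ 3 + d * x) :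
    Transcendental (adjoin E {x, y}) z := by
  intro hz
  rw [IntermediateField.isAlgebraic_adjoin_iff] at hz
  have hxy : ∀ t ∈ ({x, y} : Set N), IsAlgebraic (Algebra.adjoin E {x}) t := by
    rintro t (rfl | rfl)
    · exact alg_self rfl
    · exact curve_alg h
  have hz' : IsAlgebraic (Algebra.adjoin E {x}) z := alg_trans hxy hz
  have h1 : ∀ t : N, IsAlgebraic (Algebra.adjoin E {x}) t := by
    intro t
    refine alg_trans ?_ (alg_top htop t)
    rintro s (rfl | rfl | rfl)
    · exact alg_self rfl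
    · exact curve_alg h
    · exact hz'
  have h2 := (two_le_trdeg hAI).trans (trdeg_le_one h1)
  exact absurd h2 (by norm_num)

theorem ai_iff_li {ι : Type} (x : ι → N) : AlgebraicIndependent E x ↔
    LinearIndependent E (fun m : ι →₀ ℕ => m.prod fun i n => x i ^ n) := by
  have h : (MvPolynomial.aeval x : MvPolynomial ι E →ₐ[E] N).toLinearMap =
      (Finsupp.linearCombination E (fun m : ι →₀ ℕ => m.prod fun i n => x i ^ n)) ∘ₗ
        ((MvPolynomial.basisMonomials ι E).repr : MvPolynomial ι E →ₗ[E] (ι →₀ ℕ) →₀ E) := by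
    apply (MvPolynomial.basisMonomials ι E).ext
    intro m
    rw [LinearMap.comp_apply]
    change MvPolynomial.aeval x ((MvPolynomial.basisMonomials ι E) m) =
      Finsupp.linearCombination E _ ((MvPolynomial.basisMonomials ι E).repr
        ((MvPolynomial.basisMonomials ι E) m))
    rw [Module.Basis.repr_self, Finsupp.linearCombination_single, one_smul,
      MvPolynomial.coe_basisMonomials, MvPolynomial.aeval_monomial, map_one, one_mul]
  have h' : (⇑(MvPolynomial.aeval x : MvPolynomial ι E →ₐ[E] N)) =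
      (Finsupp.linearCombination E (fun m : ι →₀ ℕ => m.prod fun i n => x i ^ n)) ∘
        (MvPolynomial.basisMonomials ι E).repr := by
    funext p
    exact DFunLike.congr_fun h p
  rw [algebraicIndependent_iff_injective_aeval, h', LinearIndependent]
  exact (MvPolynomial.basisMonomials ι E).repr.toEquiv.injective_comp _

end td

/-- the family `x^i`, `x^i y` -/
def fam {A : Type*} [CommRing A] (x y : A) : ℕ ⊕ ℕ → A :=
  Sum.elim (fun i => x ^ i) (fun i => x ^ i * y)

lemma map_fam {A B : Type*} [CommRing A] [CommRing B] (φ : A →+* B) (x y : A) (j : ℕ ⊕ ℕ) :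
    φ (fam x y j) = fam (φ x) (φ y) j := by
  rcases j with i | i <;> simp [fam]

section fam

variable {E N : Type} [Field E] [Field N] [Algebra E N]

lemma pow_li {x : N} (hx : Transcendental E x) : LinearIndependent E (fun i : ℕ => x ^ i) := by
  have h1 := (Polynomial.basisMonomials E).linearIndependent.map'
    (aeval x : E[X] →ₐ[E] N).toLinearMap (by
      rw [LinearMap.ker_eq_bot]
      exact transcendental_iff_injective.1 hx)
  have h2 : (⇑(aeval x : E[X] →ₐ[E] N).toLinearMap ∘ ⇑(Polynomial.basisMonomials E)) =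
      (fun i : ℕ => x ^ i) := by
    funext i
    simp
  rwa [h2] at h1

theorem fam_li {e d : ℕ} (hg : Good E e d) {x y : N} (hx : Transcendental E x)
    (h : y ^ 2 + e * y = x ^ 3 + d * x) : LinearIndependent E (fam x y) := by
  have hy : y ∉ E⟮x⟯ := by
    intro hy
    obtain ⟨a, b, ha, -⟩ := rigF hg hx (mem_adjoin_simple_self E x) hy h
    exact hx (ha ▸ isAlgebraic_algebraMap a)
  have hy0 : y ≠ 0 := by
    rintro rfl
    exact hy (zero_mem _)
  have h1 := pow_li hx
  have h2 : LinearIndependent E (fun i : ℕ => x ^ i * y) := by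
    have := h1.map' (LinearMap.mulRight E y) (by
      rw [LinearMap.ker_eq_bot]
      exact mul_left_injective₀ hy0)
    exact this
  refine h1.sum_type h2 ?_
  rw [Submodule.disjoint_def]
  intro t ht1 ht2
  have h3 : t ∈ E⟮x⟯ := by
    have : Submodule.span E (Set.range fun i : ℕ => x ^ i) ≤
        Subalgebra.toSubmodule (E⟮x⟯).toSubalgebra := by
      rw [Submodule.span_le]
      rintro _ ⟨i, rfl⟩
      exact pow_mem (mem_adjoin_simple_self E x) i
    exact this ht1
  have h4 : ∃ q ∈ E⟮x⟯, t = q * y := by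
    have : Submodule.span E (Set.range fun i : ℕ => x ^ i * y) ≤
        (Subalgebra.toSubmodule (E⟮x⟯).toSubalgebra).map (LinearMap.mulRight E y) := by
      rw [Submodule.span_le]
      rintro _ ⟨i, rfl⟩
      exact ⟨x ^ i, pow_mem (mem_adjoin_simple_self E x) i, rfl⟩
    obtain ⟨q, hq, rfl⟩ := this ht2
    exact ⟨q, hq, rfl⟩
  obtain ⟨q, hq, rfl⟩ := h4
  by_cases hq0 : q = 0
  · rw [hq0, zero_mul]
  · exfalso
    apply hy
    have : y = (q * y) / q := by field_simp
    rw [this]
    exact div_mem h3 hq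

lemma fam_mul {e d : ℕ} {x y : N} (h : y ^ 2 + e * y = x ^ 3 + d * x) :
    Submodule.span E (Set.range (fam x y)) * Submodule.span E (Set.range (fam x y)) ≤
      Submodule.span E (Set.range (fam x y)) := by
  rw [Submodule.span_mul_span, Submodule.span_le]
  have hl : ∀ i, x ^ i ∈ Submodule.span E (Set.range (fam x y)) := fun i =>
    Submodule.subset_span ⟨Sum.inl i, rfl⟩
  have hr : ∀ i, x ^ i * y ∈ Submodule.span E (Set.range (fam x y)) := fun i =>
    Submodule.subset_span ⟨Sum.inr i, rfl⟩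
  rintro _ ⟨_, ⟨i | i, rfl⟩, _, ⟨j | j, rfl⟩, rfl⟩
  · change x ^ i * x ^ j ∈ _
    rw [← pow_add]
    exact hl _
  · change x ^ i * (x ^ j * y) ∈ _
    rw [← mul_assoc, ← pow_add]
    exact hr _
  · change x ^ i * y * x ^ j ∈ _
    have : x ^ i * y * x ^ j = x ^ (i + j) * y := by rw [pow_add]; ring
    rw [this]
    exact hr _
  · change x ^ i * y * (x ^ j * y) ∈ _
    have : x ^ i * y * (x ^ j * y) = x ^ (i + j + 3) + d • x ^ (i + j + 1) -
        e • (x ^ (i + j) * y) := by
      rw [nsmul_eq_mul, nsmul_eq_mul]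
      rw [pow_add, pow_add, pow_add]
      linear_combination (x ^ i * x ^ j) * h
    rw [this]
    exact sub_mem (add_mem (hl _) (nsmul_mem (hl _) _)) (nsmul_mem (hr _) _)

theorem adjoin_le_span {e d : ℕ} {x y : N} (h : y ^ 2 + e * y = x ^ 3 + d * x) {t : N}
    (ht : t ∈ Algebra.adjoin E {x, y}) : t ∈ Submodule.span E (Set.range (fam x y)) := by
  have hl : ∀ i, x ^ i ∈ Submodule.span E (Set.range (fam x y)) := fun i =>
    Submodule.subset_span ⟨Sum.inl i, rfl⟩
  have hr : ∀ i, x ^ i * y ∈ Submodule.span E (Set.range (fam x y)) := fun i =>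
    Submodule.subset_span ⟨Sum.inr i, rfl⟩
  induction ht using Algebra.adjoin_induction with
  | mem s hs =>
    rcases hs with rfl | rfl
    · simpa using hl 1
    · simpa using hr 0
  | algebraMap r =>
    rw [Algebra.algebraMap_eq_smul_one]
    exact Submodule.smul_mem _ _ (by simpa using hl 0)
  | add a b _ _ ha hb => exact add_mem ha hb
  | mul a b _ _ ha hb => exact fam_mul h (Submodule.mul_mem_mul ha hb)

/-- elements of `E(x, y)` are fractions of linear combinations of `x^i`, `x^i y`. -/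
theorem frac_of_mem {e d : ℕ} {x y : N} (h : y ^ 2 + e * y = x ^ 3 + d * x) {t : N}
    (ht : t ∈ adjoin E {x, y}) : ∃ s₁ s₂ : (ℕ ⊕ ℕ) →₀ E,
      Finsupp.linearCombination E (fam x y) s₂ ≠ 0 ∧
      t * Finsupp.linearCombination E (fam x y) s₂ =
        Finsupp.linearCombination E (fam x y) s₁ := by
  obtain ⟨r, hr, s, hs, hrs⟩ := mem_adjoin_iff_div.1 ht
  obtain ⟨s₁, hs₁⟩ := (Finsupp.mem_span_range_iff_exists_finsupp).1 (adjoin_le_span h hr)
  obtain ⟨s₂, hs₂⟩ := (Finsupp.mem_span_range_iff_exists_finsupp).1 (adjoin_le_span h hs)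
  by_cases hs0 : s = 0
  · refine ⟨0, Finsupp.single (Sum.inl 0) 1, ?_, ?_⟩
    · simp [fam]
    · rw [hrs, hs0]; simp
  · refine ⟨s₁, s₂, ?_, ?_⟩
    · rw [Finsupp.linearCombination_apply, hs₂]
      exact hs0
    · rw [Finsupp.linearCombination_apply, Finsupp.linearCombination_apply, hs₁, hs₂, hrs,
        div_mul_cancel₀ _ hs0]

theorem mem_of_frac {x y t : N} (s₁ s₂ : (ℕ ⊕ ℕ) →₀ E)
    (h0 : Finsupp.linearCombination E (fam x y) s₂ ≠ 0)
    (h1 : t * Finsupp.linearCombination E (fam x y) s₂ =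
        Finsupp.linearCombination E (fam x y) s₁) : t ∈ adjoin E {x, y} := by
  have key : ∀ s : (ℕ ⊕ ℕ) →₀ E, Finsupp.linearCombination E (fam x y) s ∈ adjoin E {x, y} := by
    intro s
    have h2 : Submodule.span E (Set.range (fam x y)) ≤
        Subalgebra.toSubmodule (adjoin E {x, y}).toSubalgebra := by
      rw [Submodule.span_le]
      have hx : x ∈ adjoin E {x, y} := subset_adjoin E _ (by simp)
      have hy : y ∈ adjoin E {x, y} := subset_adjoin E _ (by simp)
      rintro _ ⟨i | i, rfl⟩
      · exact pow_mem hx i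
      · exact (adjoin E {x, y}).mul_mem (_root_.pow_mem hx i) hy
    exact h2 (Finsupp.mem_span_range_iff_exists_finsupp.2 ⟨s, rfl⟩)
  have : t = Finsupp.linearCombination E (fam x y) s₁ /
      Finsupp.linearCombination E (fam x y) s₂ := by
    rw [eq_div_iff h0, h1]
  rw [this]
  exact div_mem (key _) (key _)

end fam

end Q40.BT
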