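import Pool.Agent.Q40.BT.Sch1

set_option autoImplicit false

/-! General geometric lemmas. -/

namespace Q40.BT

open AlgebraicGeometry CategoryTheory Limits IsLocalRing

lemma exists_pt {X Y Z P : Scheme.{0}} {fst : P ⟶ X} {snd : P ⟶ Y} {f : X ⟶ Z} {g : Y ⟶ Z}
    (h : IsPullback fst snd f g) (x : X) (y : Y) (hxy : f x = g y) :
    ∃ p : P, fst p = x ∧ snd p = y := by
  obtain ⟨z, hz1, hz2⟩ := Scheme.Pullback.exists_preimage_pullback x y hxy
  refine ⟨h.isoPullback.inv z, ?_, ?_⟩
  · rw [← hz1, ← Scheme.Hom.comp_apply, h.isoPullback_inv_fst]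
  · rw [← hz2, ← Scheme.Hom.comp_apply, h.isoPullback_inv_snd]

/-- base change of an open immersion -/
lemma open_lift {X' B' S' Z W T₀ : Scheme.{0}} {p' : X' ⟶ B'} {v : S' ⟶ B'} {g' : Z ⟶ X'}
    {pZ : Z ⟶ S'} (hZ : IsPullback g' pZ p' v) (j : W ⟶ X') [IsOpenImmersion j] {t₁ : T₀ ⟶ W}
    {t₂ : T₀ ⟶ S'} (hT : IsPullback t₁ t₂ (j ≫ p') v) :
    ∃ a : T₀ ⟶ Z, IsOpenImmersion a ∧ a ≫ pZ = t₂ ∧ IsPullback t₁ a j g' := by
  let a : T₀ ⟶ Z := hZ.lift (t₁ ≫ j) t₂ (by rw [Category.assoc]; exact hT.w)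
  have h1 : a ≫ g' = t₁ ≫ j := hZ.lift_fst _ _ _
  have h2 : a ≫ pZ = t₂ := hZ.lift_snd _ _ _
  have h3 : IsPullback (a ≫ pZ) t₁ v (j ≫ p') := by rw [h2]; exact hT.flip
  have h4 : IsPullback a t₁ g' j := IsPullback.of_right h3 h1 hZ.flip
  refine ⟨a, ?_, h2, h4.flip⟩
  exact MorphismProperty.of_isPullback h4.flip inferInstance

lemma mem_pr_iff {T : Scheme.{0}} {R : CommRingCat.{0}} (a : T ⟶ Spec R) (w : T) (r : R) :
    r ∈ (pr a w).asIdeal ↔ (stk a w).hom r ∈ maximalIdeal (T.presheaf.stalk w) := by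
  rw [stk_eq]
  have h1 : IsLocalHom (a.stalkMap w).hom := inferInstance
  have h2 : IsLocalHom (i₀ a w).inv.hom := isLocalHom_of_isIso _
  rw [mem_maximalIdeal, mem_nonunits_iff]
  change _ ↔ ¬ IsUnit ((a.stalkMap w).hom ((i₀ a w).inv.hom
    (algebraMap R (Localization.AtPrime (pr a w).asIdeal) r)))
  rw [isUnit_map_iff, isUnit_map_iff, IsLocalization.AtPrime.isUnit_to_map_iff _ (pr a w).asIdeal,
    Ideal.mem_primeCompl_iff, not_not]

lemma inj_of_isIso {R S : CommRingCat.{0}} (f : R ⟶ S) [IsIso f] : Function.Injective f.hom :=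
  ((ConcreteCategory.isIso_iff_bijective f).1 inferInstance).injective

lemma specMap_appTop_injective {R S : CommRingCat.{0}} (f : R ⟶ S)
    (hf : Function.Injective f.hom) : Function.Injective (Spec.map f).appTop.hom := by
  intro x y hxy
  have h := Scheme.ΓSpecIso_naturality f
  have hx := congrArg (fun g => g.hom x) h
  have hy := congrArg (fun g => g.hom y) h
  simp only [CommRingCat.hom_comp, RingHom.comp_apply] at hx hy
  rw [hxy, hy] at hx
  exact (inj_of_isIso (Scheme.ΓSpecIso R).hom (hf hx)).symm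

lemma fromSpecStalk_appTop_injective {X : Scheme.{0}} [IsIntegral X] (x : X) :
    Function.Injective (X.fromSpecStalk x).appTop.hom := by
  have h1 : IsIso (homOfLE (le_top : (X.fromSpecStalk x) ⁻¹ᵁ ⊤ ≤ ⊤)) :=
    ⟨homOfLE le_rfl, Subsingleton.elim _ _, Subsingleton.elim _ _⟩
  have h2 : IsIso ((Spec (X.presheaf.stalk x)).presheaf.map
      (homOfLE (le_top : (X.fromSpecStalk x) ⁻¹ᵁ ⊤ ≤ ⊤)).op) := inferInstance
  have h3 : Function.Injective (X.presheaf.germ ⊤ x trivial).hom :=
    germ_injective_of_isIntegral X x _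
  rw [Scheme.fromSpecStalk_appTop]
  simp only [CommRingCat.hom_comp, RingHom.coe_comp]
  exact ((@inj_of_isIso _ _ _ h2).comp (inj_of_isIso _)).comp h3

/-- a valuation ring dominating a local ring of an integral scheme -/
theorem exists_val {B' : Scheme.{0}} [IsIntegral B'] (β : B') :
    ∃ (V : Type) (_ : CommRing V) (_ : IsDomain V) (_ : ValuationRing V)
      (v : Spec (.of V) ⟶ B'), v (closedPoint V) = β ∧
      ∀ {S : CommRingCat.{0}} (ρ : B' ⟶ Spec S) (γ : S ⟶ .of V), v ≫ ρ = Spec.map γ →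
        ∀ s : S, γ.hom s = 0 → ρ.appTop.hom ((Scheme.ΓSpecIso S).inv.hom s) = 0 := by
  let f : B'.presheaf.stalk β →+* B'.functionField := algebraMap _ _
  have hf : Function.Injective f := IsFractionRing.injective _ _
  obtain ⟨A, hA, hloc⟩ := exists_factor_valuationRing f
  let j : B'.presheaf.stalk β →+* A := f.codRestrict A.toSubring hA
  have hj : Function.Injective j := by
    intro x y hxy
    exact hf (congrArg Subtype.val hxy)
  have hjl : IsLocalHom j := hloc
  let v : Spec (.of A) ⟶ B' := Spec.map (CommRingCat.ofHom j) ≫ B'.fromSpecStalk β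
  refine ⟨A, inferInstance, inferInstance, inferInstance, v, ?_, ?_⟩
  · change (Spec.map (CommRingCat.ofHom j) ≫ B'.fromSpecStalk β) (closedPoint A) = β
    rw [Scheme.Hom.comp_apply]
    have h1 : Spec.map (CommRingCat.ofHom j) (closedPoint A) =
      closedPoint (B'.presheaf.stalk β) := comap_closedPoint j
    rw [h1, Scheme.fromSpecStalk_closedPoint]
  · intro S ρ γ h s hs
    have hv : Function.Injective v.appTop.hom := by
      change Function.Injective (Spec.map (CommRingCat.ofHom j) ≫ B'.fromSpecStalk β).appTop.hom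
      rw [Scheme.Hom.comp_appTop, CommRingCat.hom_comp, RingHom.coe_comp]
      exact (specMap_appTop_injective _ hj).comp (fromSpecStalk_appTop_injective β)
    apply hv
    rw [map_zero]
    have h1 := congrArg (fun g => g.hom s) (Scheme.ΓSpecIso_inv_naturality γ)
    simp only [CommRingCat.hom_comp, RingHom.comp_apply] at h1
    rw [hs, map_zero, ← h, Scheme.Hom.comp_appTop, CommRingCat.hom_comp,
      RingHom.comp_apply] at h1
    exact h1.symm

end Q40.BT
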