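import Pool.Agent.Q40.BT.Main

set_option autoImplicit false

/-! Charts. -/

namespace Q40.BT

open AlgebraicGeometry CategoryTheory Limits IsLocalRing TensorProduct
open Pool.Agent.Helper198.Sch Q40.Gen

/-- common open subschemes -/
lemma exists_common {S' Z Y E₁ E₂ T₀ : Scheme.{0}} {pZ : Z ⟶ S'} {pY : Y ⟶ S'} (a : T₀ ⟶ Z)
    (a' : T₀ ⟶ Y) [IsOpenImmersion a] [IsOpenImmersion a'] (h : a ≫ pZ = a' ≫ pY)
    (j₁ : E₁ ⟶ Z) (j₂ : E₂ ⟶ Y) [IsOpenImmersion j₁] [IsOpenImmersion j₂] (t₀ : T₀) (q : E₁)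
    (q' : E₂) (h₁ : a t₀ = j₁ q) (h₂ : a' t₀ = j₂ q') :
    ∃ (T : Scheme.{0}) (a₁ : T ⟶ E₁) (a₂ : T ⟶ E₂) (w : T),
      IsOpenImmersion a₁ ∧ IsOpenImmersion a₂ ∧ a₁ ≫ j₁ ≫ pZ = a₂ ≫ j₂ ≫ pY ∧ a₁ w = q := by
  obtain ⟨p₁, hp₁, hp₁'⟩ := exists_pt (IsPullback.of_hasPullback a j₁) t₀ q h₁
  obtain ⟨p₂, hp₂, hp₂'⟩ := exists_pt (IsPullback.of_hasPullback a' j₂) t₀ q' h₂
  obtain ⟨w, hw, hw'⟩ := exists_pt
    (IsPullback.of_hasPullback (pullback.fst a j₁) (pullback.fst a' j₂)) p₁ p₂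
    (hp₁.trans hp₂.symm)
  refine ⟨pullback (pullback.fst a j₁) (pullback.fst a' j₂), pullback.fst _ _ ≫ pullback.snd a j₁,
    pullback.snd _ _ ≫ pullback.snd a' j₂, w, inferInstance, inferInstance, ?_, ?_⟩
  · have e1 : pullback.snd a j₁ ≫ j₁ = pullback.fst a j₁ ≫ a := pullback.condition.symm
    have e2 : pullback.snd a' j₂ ≫ j₂ = pullback.fst a' j₂ ≫ a' := pullback.condition.symm
    rw [Category.assoc, Category.assoc, reassoc_of% e1, reassoc_of% e2, h,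
      pullback.condition_assoc]
  · rw [Scheme.Hom.comp_apply, hw, hp₁']

/-- the affine charts of a product -/
lemma tensor_chart {k O A₀ : Type} [Field k] [CommRing O] [Algebra k O] [CommRing A₀]
    [Algebra k A₀] {X₀ Y : Scheme.{0}} {s₀ : X₀ ⟶ Spec (.of k)} {p₁ : Y ⟶ Spec (.of O)}
    {p₂ : Y ⟶ X₀} (h : IsPullback p₂ p₁ s₀ (Spec.map (CommRingCat.ofHom (algebraMap k O))))
    (j₀ : Spec (.of A₀) ⟶ X₀) [IsOpenImmersion j₀]
    (hj : j₀ ≫ s₀ = Spec.map (CommRingCat.ofHom (algebraMap k A₀))) :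
    ∃ j₂ : Spec (.of (O ⊗[k] A₀)) ⟶ Y, IsOpenImmersion j₂ ∧
      j₂ ≫ p₁ = Spec.map (CommRingCat.ofHom (algebraMap O (O ⊗[k] A₀))) ∧
      ∀ y : Y, p₂ y ∈ Set.range j₀ → y ∈ Set.range j₂ := by
  have h1 := (isPullback_SpecMap_of_isPushout _ _ _ _
    (CommRingCat.isPushout_tensorProduct k O A₀)).flip
  rw [← hj] at h1
  obtain ⟨j₂, hj₂, e, hp⟩ := open_lift h j₀ h1
  refine ⟨j₂, hj₂, e, ?_⟩
  rintro y ⟨x, hx⟩
  obtain ⟨p, -, hp2⟩ := exists_pt hp x y hx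
  exact ⟨p, hp2⟩

/-- the function field of the model -/
lemma exists_model {k : Type} [Field k] [IsAlgClosed k] {e d : ℕ} (hg : Good k e d)
    {X₀ : Scheme.{0}} {s₀ : X₀ ⟶ Spec (.of k)} (hX : IsIntegral X₀)
    (hbir : Scheme.BirationalOver (V.str (JG e d (1 : k))) s₀)
    {A₀ : Type} [CommRing A₀] [IsDomain A₀] [Algebra k A₀] (j₀ : Spec (.of A₀) ⟶ X₀)
    [IsOpenImmersion j₀] (hj : j₀ ≫ s₀ = Spec.map (CommRingCat.ofHom (algebraMap k A₀))) :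
    ∃ (M : Type) (_ : Field M) (_ : Algebra A₀ M) (_ : IsFractionRing A₀ M) (_ : Algebra k M)
      (_ : IsScalarTower k A₀ M) (ψ : BR e d (1 : k) →ₐ[k] M), Function.Injective ψ ∧
      ∀ m : M, ∃ x y, ψ y ≠ 0 ∧ m * ψ y = ψ x := by
  obtain ⟨Ψ, hΨ⟩ := hbir
  have hV := isIntegral_V hg (1 : k)
  have hd := BR.isDomain hg (1 : k)
  have hne : Nonempty Ψ.source := by
    obtain ⟨x, hx⟩ := Ψ.dense_source.nonempty
    exact ⟨⟨x, hx⟩⟩
  have hS : IsIntegral Ψ.source := isIntegral_of_isOpenImmersion Ψ.source.ι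
  let ξ : Ψ.source := genericPoint Ψ.source
  let a' : (Ψ.source : Scheme.{0}) ⟶ X₀ := Ψ.iso.hom ≫ Ψ.target.ι
  have hEa : a' ≫ s₀ = Ψ.source.ι ≫ V.str (JG e d (1 : k)) := by
    rw [Category.assoc]
    exact hΨ
  have h1 : Ψ.source.ι ξ = jc e d (1 : k) (genericPoint _) :=
    (genericPoint_eq_of_isOpenImmersion _).trans (genericPoint_eq_of_isOpenImmersion _).symm
  have h2 : a' ξ = j₀ (genericPoint _) :=
    (genericPoint_eq_of_isOpenImmersion _).trans (genericPoint_eq_of_isOpenImmersion _).symm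
  obtain ⟨T, a₁, a₂, w, i₁, i₂, e12, hw⟩ := exists_common (pZ := V.str (JG e d (1 : k)))
    (pY := s₀) Ψ.source.ι a' hEa.symm (jc e d (1 : k)) j₀ ξ _ _ h1 h2
  rw [jc_str, hj] at e12
  have : Nonempty T := ⟨w⟩
  exact exists_functionField a₁ a₂ e12

end Q40.BT
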