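import Pool.Agent.Q40.BT.Defs
import Pool.Agent.Q40.BT.Fam2
import Pool.Agent.Q40.BT.Bir2

set_option autoImplicit false

/-! The family. -/

open AlgebraicGeometry CategoryTheory Limits

namespace Q40.BT

open Pool.Agent.Helper198.Sch Q40.Gen

attribute [local instance] MvPolynomial.gradedAlgebra

section bir

variable {k : Type} [Field k]

/-- structure morphism of an affine scheme -/
noncomputable abbrev sp (k A : Type) [Field k] [CommRing A] [Algebra k A] :
    Spec (.of A) ⟶ Spec (.of k) := Spec.map (CommRingCat.ofHom (algebraMap k A))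

lemma bir_of_iso {X Y : Scheme.{0}} {sX : X ⟶ Spec (.of k)} {sY : Y ⟶ Spec (.of k)} (e : X ≅ Y)
    (h : e.hom ≫ sY = sX) : Scheme.BirationalOver sX sY :=
  Scheme.Hom.birationalOver e.hom sY sX h

lemma bir_of_open {X U : Scheme.{0}} {sX : X ⟶ Spec (.of k)} {sU : U ⟶ Spec (.of k)} (j : U ⟶ X)
    [IsOpenImmersion j] [IsIntegral X] [Nonempty U] (h : j ≫ sX = sU) :
    Scheme.BirationalOver sU sX := by
  have : IsDominant j := by
    constructor
    exact j.isOpenEmbedding.isOpen_range.dense (Set.range_nonempty _)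
  exact Scheme.Hom.birationalOver j sX sU h

lemma bir_of_algEquiv {A B : Type} [CommRing A] [CommRing B] [Algebra k A] [Algebra k B]
    (φ : A ≃ₐ[k] B) : Scheme.BirationalOver (sp k A) (sp k B) := by
  refine bir_of_iso (Scheme.Spec.mapIso (φ.symm.toRingEquiv.toCommRingCatIso).op) ?_
  change Spec.map _ ≫ Spec.map _ = _
  rw [← Spec.map_comp]
  congr 1
  ext r
  exact φ.symm.commutes r

lemma bir_of_away {A : Type} [CommRing A] [IsDomain A] [Algebra k A] {a : A} (ha : a ≠ 0) :
    Scheme.BirationalOver (sp k (Localization.Away a)) (sp k A) := by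
  have h1 : IsOpenImmersion (Spec.map (CommRingCat.ofHom (algebraMap A (Localization.Away a)))) :=
    IsOpenImmersion.of_isLocalization a
  have h2 : IsDomain (Localization.Away a) := IsLocalization.isDomain_localization
    (powers_le_nonZeroDivisors_of_noZeroDivisors ha)
  have h3 : Nonempty (Spec (.of (Localization.Away a))) :=
    inferInstanceAs (Nonempty (PrimeSpectrum (Localization.Away a)))
  refine bir_of_open (Spec.map (CommRingCat.ofHom (algebraMap A (Localization.Away a)))) ?_
  rw [← Spec.map_comp, ← CommRingCat.ofHom_comp, ← IsScalarTower.algebraMap_eq]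

end bir

section fam

variable {k : Type} [Field k] [IsAlgClosed k] {e d : ℕ}

lemma u_ne_zero {R : Type} [CommRing R] [IsDomain R] (c : R) : BR.u e d c ≠ 0 := by
  intro h0
  exact MvPolynomial.X_ne_zero 0 (BR.of_injective c (h0.trans (map_zero _).symm))

lemma y_ne_zero {R : Type} [CommRing R] [IsDomain R] (c : R) : BR.y e d c ≠ 0 := by
  apply AdjoinRoot.mk_ne_zero_of_natDegree_lt (gp_monic e d c) Polynomial.X_ne_zero
  rw [Polynomial.natDegree_X, Polynomial.natDegree_eq_of_degree_eq_some (gp_degree e d c)]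
  norm_num

/-- the surfaces are birational -/
lemma bir_BR (hg : Good k e d) (c : k) :
    Scheme.BirationalOver (sp k (BR e d c)) (sp k (BR e d (1 : k))) := by
  by_cases hc : c = 0
  · subst hc
    rcases hg with ⟨rfl, rfl, h2⟩ | ⟨rfl, rfl, h2⟩
    · obtain ⟨i, hi⟩ := IsAlgClosed.exists_pow_nat_eq (-1 : k) two_pos
      have hg0 : Good k 0 4 := Or.inl ⟨rfl, rfl, h2⟩
      have hd0 := BR.isDomain hg0 (0 : k)
      have hd1 := BR.isDomain hg0 (1 : k)
      exact (bir_of_away (u_ne_zero (0 : k))).symm.trans
        ((bir_of_algEquiv (oddEquiv hi h2.ne_zero).symm).trans (bir_of_away (y_ne_zero (1 : k))))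
    · exact bir_of_algEquiv (twoEquiv h2)
  · exact bir_of_algEquiv (scaleEquiv e d hc)

/-- the chart of the projective surface -/
noncomputable def jc (e d : ℕ) {R : Type} [CommRing R] (c : R) :
    Spec (.of (BR e d c)) ⟶ V (JG e d c) :=
  Spec.map (CommRingCat.ofHom (chTo e d c).toRingHom) ≫ V.chart (JG e d c) 3

instance (e d : ℕ) {R : Type} [CommRing R] (c : R) :
    IsIso (Spec.map (CommRingCat.ofHom (chTo e d c).toRingHom)) := by
  have : IsIso (CommRingCat.ofHom (chTo e d c).toRingHom) := by
    rw [ConcreteCategory.isIso_iff_bijective]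
    exact (chEquiv e d c).bijective
  infer_instance

instance (e d : ℕ) {R : Type} [CommRing R] (c : R) : IsOpenImmersion (jc e d c) := by
  unfold jc; infer_instance

lemma jc_str (e d : ℕ) {R : Type} [CommRing R] (c : R) :
    jc e d c ≫ V.str (JG e d c) = Spec.map (CommRingCat.ofHom (algebraMap R (BR e d c))) := by
  unfold jc
  rw [Category.assoc, V.chart_str, ← Spec.map_comp, ← CommRingCat.ofHom_comp]
  congr 2
  ext r
  exact (chTo e d c).commutes r

lemma bir_V (hg : Good k e d) (c : k) :
    Scheme.BirationalOver (V.str (JG e d c)) (V.str (JG e d (1 : k))) := by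
  have h : ∀ c : k, Scheme.BirationalOver (sp k (BR e d c)) (V.str (JG e d c)) := by
    intro c
    have h1 := isIntegral_V hg c
    have h2 := BR.isDomain hg c
    have h3 : Nonempty (Spec (.of (BR e d c))) :=
      inferInstanceAs (Nonempty (PrimeSpectrum (BR e d c)))
    exact bir_of_open (jc e d c) (jc_str e d c)
  exact (h c).symm.trans ((bir_BR hg c).trans (h 1))

/-! ### The family over the affine line -/

open Polynomial in
/-- the base -/
noncomputable abbrev BB (k : Type) [Field k] : Scheme.{0} := Spec (.of k[X])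

open Polynomial in
/-- structure map of the base -/
noncomputable abbrev sBB (k : Type) [Field k] : BB k ⟶ Spec (.of k) := sp k k[X]

open Polynomial in
/-- the ideal of the family -/
noncomputable abbrev Jt (k : Type) [Field k] (e d : ℕ) : HI (Fin 4) k[X] := JG e d (X : k[X])

/-- the total space -/
noncomputable abbrev XX (k : Type) [Field k] (e d : ℕ) : Scheme.{0} := V (Jt k e d)

/-- the family -/
noncomputable abbrev ff (k : Type) [Field k] (e d : ℕ) : XX k e d ⟶ BB k := V.str (Jt k e d)

open Polynomial in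
lemma good_poly (hg : Good k e d) : Good k[X] e d := hg.map C

open Polynomial in
lemma isPullback_fam {S : Type} [CommRing S] (φ : k[X] →+* S) :
    IsPullback (V.map φ (Jt k e d) (JG e d (φ X)) (rel_JG φ rfl)) (V.str (JG e d (φ X)))
      (ff k e d) (Spec.map (CommRingCat.ofHom φ)) :=
  V.isPullback_map φ (Jt k e d) (JG e d (φ X)) (rel_JG φ rfl) (JG_le φ rfl)

open Polynomial in
/-- the base is a variety -/
lemma isVariety_base : IsVariety (sBB k) where
  integral := inferInstance
  separated := inferInstance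
  locallyOfFiniteType := by
    rw [HasRingHomProperty.Spec_iff (P := @LocallyOfFiniteType)]
    change (algebraMap k k[X]).FiniteType
    rw [RingHom.finiteType_algebraMap]
    infer_instance
  quasiCompact := inferInstance

open Polynomial in
/-- the fibres -/
lemma exists_fibre (b : Spec (.of k) ⟶ BB k) : ∃ (c : k)
    (ι : V (JG e d c) ≅ pullback (ff k e d) b), ι.hom ≫ pullback.snd (ff k e d) b =
      V.str (JG e d c) := by
  obtain ⟨φ, rfl⟩ : ∃ φ : k[X] →+* k, b = Spec.map (CommRingCat.ofHom φ) :=
    ⟨(Spec.preimage b).hom, by rw [CommRingCat.ofHom_hom, Spec.map_preimage]⟩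
  refine ⟨φ X, (isPullback_fam (e := e) (d := d) φ).isoPullback, ?_⟩
  exact (isPullback_fam (e := e) (d := d) φ).isoPullback_hom_snd

lemma isVariety_V (hg : Good k e d) (c : k) : IsVariety (V.str (JG e d c)) where
  integral := isIntegral_V hg c
  separated := inferInstance
  locallyOfFiniteType := inferInstance
  quasiCompact := inferInstance

lemma isVariety_fibre (hg : Good k e d) (b : Spec (.of k) ⟶ BB k) :
    IsVariety (pullback.snd (ff k e d) b) := by
  obtain ⟨c, ι, hι⟩ := exists_fibre (e := e) (d := d) b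
  have h1 := isIntegral_V hg c
  refine ⟨?_, inferInstance, inferInstance, inferInstance⟩
  have : Nonempty (pullback (ff k e d) b : Scheme.{0}) := ⟨ι.hom (genericPoint _)⟩
  exact isIntegral_of_isOpenImmersion ι.inv

lemma isModel_V (hg : Good k e d) (b : Spec (.of k) ⟶ BB k) :
    Scheme.BirationalOver (pullback.snd (ff k e d) b) (V.str (JG e d (1 : k))) := by
  obtain ⟨c, ι, hι⟩ := exists_fibre (e := e) (d := d) b
  exact (bir_of_iso ι hι).symm.trans (bir_V hg c)

lemma isProjectiveVariety_V (hg : Good k e d) (c : k) :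
    IsProjectiveVariety (V.str (JG e d c)) where
  variety := isVariety_V hg c
  projective := by
    have h : IsClosedImmersion (emb (JG e d c) (Equiv.refl (Fin 4))) := inferInstance
    exact ⟨3, emb (JG e d c) (Equiv.refl (Fin 4)), h, emb_str (JG e d c) (Equiv.refl (Fin 4))⟩

open Polynomial in
/-- the embedding in `B × ℙ³` -/
lemma exists_embedding (k : Type) [Field k] (e d : ℕ) :
    ∃ (t : ℕ) (i : XX k e d ⟶ pullback (sBB k) (PSpace.str t k)),
    IsClosedImmersion i ∧ i ≫ pullback.fst (sBB k) (PSpace.str t k) = ff k e d := by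
  let J₀ : HI (Fin 4) k := ⊥
  let J₁ : HI (Fin 4) k[X] := ⊥
  have h₀ : IsClosedImmersion (emb J₀ (Equiv.refl (Fin 4))) := inferInstance
  have r₁ : V.Rel (RingHom.id k[X]) J₁ (Jt k e d) := by
    change (⊥ : Ideal _) ≤ _
    exact bot_le
  have r₂ : V.Rel (algebraMap k k[X]) J₀ J₁ := by
    change (⊥ : Ideal _) ≤ _
    exact bot_le
  have hp := V.isPullback_map (algebraMap k k[X]) J₀ J₁ r₂ (by
    change (⊥ : Ideal _) ≤ _
    exact bot_le)
  -- `V J₁ ⟶ B × ℙ³`
  let a : V J₁ ⟶ pullback (sBB k) (V.str J₀) := hp.flip.isoPullback.hom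
  have e₂ : V.str J₀ = emb J₀ (Equiv.refl (Fin 4)) ≫ PSpace.str 3 k :=
    (emb_str J₀ (Equiv.refl (Fin 4))).symm
  let b : pullback (sBB k) (V.str J₀) ⟶ pullback (sBB k) (PSpace.str 3 k) :=
    pullback.map _ _ _ _ (𝟙 _) (emb J₀ (Equiv.refl (Fin 4))) (𝟙 _)
      ((Category.comp_id _).trans (Category.id_comp _).symm) ((Category.comp_id _).trans e₂)
  have hb : IsClosedImmersion b :=
    MorphismProperty.pullbackMap (P := @IsClosedImmersion) (f := sBB k) (g := V.str J₀)
      (f' := sBB k) (g' := PSpace.str 3 k) (i₁ := 𝟙 _) (i₂ := emb J₀ (Equiv.refl (Fin 4)))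
      inferInstance h₀ (Category.id_comp _).symm e₂
  have ha : IsClosedImmersion a := inferInstance
  have hm : IsClosedImmersion (V.map (RingHom.id k[X]) J₁ (Jt k e d) r₁) := inferInstance
  refine ⟨3, V.map (RingHom.id k[X]) J₁ (Jt k e d) r₁ ≫ a ≫ b, ?_, ?_⟩
  · exact MorphismProperty.comp_mem @IsClosedImmersion _ _ hm
      (MorphismProperty.comp_mem @IsClosedImmersion _ _ ha hb)
  · rw [Category.assoc, Category.assoc]
    have h1 : b ≫ pullback.fst (sBB k) (PSpace.str 3 k) = pullback.fst (sBB k) (V.str J₀) :=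
      (pullback.lift_fst _ _ _).trans (Category.comp_id _)
    have h2 : a ≫ pullback.fst (sBB k) (V.str J₀) = V.str J₁ :=
      hp.flip.isoPullback_hom_fst
    rw [h1, h2, V.map_str, CommRingCat.ofHom_id, Spec.map_id, Category.comp_id]

/-- The family is a family. -/
theorem isFamily (hg : Good k e d) : IsFamily (sBB k) (ff k e d) where
  base := isVariety_base
  closed := exists_embedding k e d
  flat := flat_str (good_poly hg) _
  fibre := fun b _ => isVariety_fibre hg b
  birational := fun b₁ b₂ _ _ => (isModel_V hg b₁).trans (isModel_V hg b₂).symm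

end fam

end Q40.BT
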