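import Pool.Agent.Q40.BT.Ring2
import Pool.Agent.W904.PG.T1

set_option autoImplicit false

/-! Localizations over a valuation ring. -/

namespace Q40.BT

open IsLocalRing TensorProduct

lemma mem_map_max {V A : Type} [CommRing V] [IsDomain V] [ValuationRing V] [CommRing A]
    [Algebra V A] {x : A} (hx : x ∈ (maximalIdeal V).map (algebraMap V A)) :
    ∃ v ∈ maximalIdeal V, ∃ a : A, x = algebraMap V A v * a := by
  induction hx using Submodule.span_induction with
  | mem x hx =>
    obtain ⟨v, hv, rfl⟩ := hx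
    exact ⟨v, hv, 1, by rw [mul_one]⟩
  | zero => exact ⟨0, zero_mem _, 0, by rw [mul_zero]⟩
  | add x y _ _ hx hy =>
    obtain ⟨v, hv, a, rfl⟩ := hx
    obtain ⟨v', hv', a', rfl⟩ := hy
    rcases ValuationRing.dvd_total v v' with ⟨t, rfl⟩ | ⟨t, rfl⟩
    · exact ⟨v, hv, a + algebraMap V A t * a', by rw [map_mul]; ring⟩
    · exact ⟨v', hv', algebraMap V A t * a + a', by rw [map_mul]; ring⟩
  | smul b x _ hx =>
    obtain ⟨v, hv, a, rfl⟩ := hx
    exact ⟨v, hv, b * a, by rw [smul_eq_mul]; ring⟩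

section

variable {k V A₀ A : Type} [Field k] [CommRing V] [IsDomain V] [ValuationRing V]
  [Algebra k V] [CommRing A₀] [IsDomain A₀] [Algebra k A₀] [CommRing A] [IsLocalRing A]
  [Algebra V A] [Algebra (V ⊗[k] A₀) A] [IsScalarTower V (V ⊗[k] A₀) A]

variable (k V A₀) in
/-- reduction -/
noncomputable def redT : V ⊗[k] A₀ →ₐ[V] ResidueField V ⊗[k] A₀ :=
  Algebra.TensorProduct.map (Algebra.ofId V (ResidueField V)) (AlgHom.id k A₀)

omit [IsDomain A₀] in
lemma redT_tmul (v : V) (a : A₀) : redT k V A₀ (v ⊗ₜ a) = residue V v ⊗ₜ a := rfl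

omit [IsDomain A₀] in
lemma ker_redT : RingHom.ker (redT k V A₀) =
    (maximalIdeal V).map (algebraMap V (V ⊗[k] A₀)) := by
  have h : RingHom.ker (redT k V A₀) = (RingHom.ker (Algebra.ofId V (ResidueField V))).map
      (Algebra.TensorProduct.includeLeft : V →ₐ[k] V ⊗[k] A₀) :=
    Algebra.TensorProduct.rTensor_ker (R := k) (S := V) (A := V) (B := ResidueField V)
      (C := A₀) (Algebra.ofId V (ResidueField V)) residue_surjective
  have h2 : RingHom.ker (Algebra.ofId V (ResidueField V)) = maximalIdeal V := by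
    ext v
    rw [RingHom.mem_ker]
    exact residue_eq_zero_iff v
  rw [h, h2]
  rfl

variable (k V A₀ A) in
lemma P₂_eq [IsAlgClosed k] (hmax : maximalIdeal A = (maximalIdeal V).map (algebraMap V A))
    (P₂ : Ideal (V ⊗[k] A₀)) [P₂.IsPrime] [IsLocalization.AtPrime A P₂] :
    P₂ = RingHom.ker (redT k V A₀) := by
  have hd : IsDomain (V ⊗[k] A₀) := Pool.Agent.W904.PG.dom
  have hd2 : IsDomain (ResidueField V ⊗[k] A₀) := Pool.Agent.W904.PG.dom
  have hQ : (RingHom.ker (redT k V A₀)).IsPrime := RingHom.ker_isPrime _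
  have hle : RingHom.ker (redT k V A₀) ≤ P₂ := by
    rw [ker_redT, Ideal.map_le_iff_le_comap]
    intro v hv
    rw [Ideal.mem_comap, ← IsLocalization.AtPrime.to_map_mem_maximal_iff A P₂,
      ← IsScalarTower.algebraMap_apply]
    rw [hmax]
    exact Ideal.mem_map_of_mem _ hv
  apply le_antisymm _ hle
  intro x hx
  rw [← IsLocalization.AtPrime.to_map_mem_maximal_iff A P₂, hmax] at hx
  obtain ⟨v, hv, a, hxa⟩ := mem_map_max hx
  obtain ⟨⟨b, s⟩, hbs⟩ := IsLocalization.surj P₂.primeCompl a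
  have hinj : Function.Injective (algebraMap (V ⊗[k] A₀) A) :=
    IsLocalization.injective A P₂.primeCompl_le_nonZeroDivisors
  have h1 : x * s = algebraMap V (V ⊗[k] A₀) v * b := by
    apply hinj
    rw [map_mul, map_mul, hxa, ← hbs, ← IsScalarTower.algebraMap_apply V (V ⊗[k] A₀) A]
    ring
  have h2 : x * s ∈ RingHom.ker (redT k V A₀) := by
    rw [h1, ker_redT]
    exact Ideal.mul_mem_right _ _ (Ideal.mem_map_of_mem _ hv)
  rcases hQ.mem_or_mem h2 with h3 | h3
  · exact h3
  · exact absurd (hle h3) s.2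

variable [IsLocalHom (algebraMap V A)]

lemma li_A₀ {P₂ : Ideal (V ⊗[k] A₀)} [P₂.IsPrime] [IsLocalization.AtPrime A P₂]
    (hP₂ : P₂ = RingHom.ker (redT k V A₀)) {ι : Type} (m : ι → A₀)
    (hm : LinearIndependent k m) :
    LinearIndependent (ResidueField V)
      (fun i => residue A (algebraMap (V ⊗[k] A₀) A (1 ⊗ₜ m i))) := by
  classical
  rw [linearIndependent_iff]
  intro c hc
  choose v hv using fun i => residue_surjective (c i)
  let x : V ⊗[k] A₀ := ∑ i ∈ c.support, v i ⊗ₜ m i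
  have h1 : residue A (algebraMap (V ⊗[k] A₀) A x) = 0 := by
    rw [← hc, Finsupp.linearCombination_apply, Finsupp.sum, map_sum, map_sum]
    refine Finset.sum_congr rfl (fun i _ => ?_)
    have h2 : (v i ⊗ₜ m i : V ⊗[k] A₀) = algebraMap V (V ⊗[k] A₀) (v i) * (1 ⊗ₜ m i) := by
      rw [Algebra.TensorProduct.algebraMap_apply, Algebra.TensorProduct.tmul_mul_tmul, mul_one,
        one_mul]
      rfl
    rw [h2, map_mul, map_mul, ← IsScalarTower.algebraMap_apply V (V ⊗[k] A₀) A,
      Algebra.smul_def]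
    congr 1
    rw [← hv i]
    rfl
  have h2 : x ∈ P₂ := by
    rw [← IsLocalization.AtPrime.to_map_mem_maximal_iff A P₂]
    exact (residue_eq_zero_iff _).1 h1
  rw [hP₂, RingHom.mem_ker, map_sum] at h2
  have h3 := Module.Flat.linearIndependent_one_tmul (S := ResidueField V) hm
  rw [linearIndependent_iff] at h3
  apply h3
  rw [← h2, Finsupp.linearCombination_apply, Finsupp.sum]
  refine Finset.sum_congr rfl (fun i _ => ?_)
  rw [redT_tmul, hv, TensorProduct.smul_tmul', smul_eq_mul, mul_one]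

end

end Q40.BT
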