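import Pool.Agent.Q40.BT.Loc

set_option autoImplicit false
set_option linter.unusedSectionVars false

/-! The contradiction for localizations. -/

namespace Q40.BT

open IsLocalRing TensorProduct IntermediateField

section gen

variable {F N : Type} [Field F] [Field N] [Algebra F N]

/-- images of generated algebras are in adjoined fields -/
lemma gen_adjoin {R B : Type} [CommRing R] [CommRing B] [Algebra R B] {S : Set B}
    (hS : Algebra.adjoin R S = ⊤) (ρ : B →+* N) (hρ : ∀ r, ∃ c, ρ (algebraMap R B r) =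
      algebraMap F N c) (b : B) : ρ b ∈ adjoin F (ρ '' S) := by
  have hb : b ∈ Algebra.adjoin R S := by rw [hS]; trivial
  induction hb using Algebra.adjoin_induction with
  | mem x hx => exact subset_adjoin F _ ⟨x, hx, rfl⟩
  | algebraMap r =>
    obtain ⟨c, hc⟩ := hρ r
    rw [hc]
    exact _root_.algebraMap_mem _ c
  | add x y _ _ hx hy => rw [map_add]; exact add_mem hx hy
  | mul x y _ _ hx hy => rw [map_mul]; exact mul_mem hx hy

end gen

section auto

open MvPolynomial in
lemma ai_auto {k N : Type} [Field k] [CommRing N] [Algebra k N] {a b : N}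
    (h : AlgebraicIndependent k ![a, b]) : AlgebraicIndependent k ![a ^ 2 - b, a] := by
  let σ : MvPolynomial (Fin 2) k →ₐ[k] MvPolynomial (Fin 2) k := aeval ![X 0 ^ 2 - X 1, X 0]
  let σ' : MvPolynomial (Fin 2) k →ₐ[k] MvPolynomial (Fin 2) k := aeval ![X 1, X 1 ^ 2 - X 0]
  have h1 : σ'.comp σ = AlgHom.id k _ := by
    apply MvPolynomial.algHom_ext
    intro i
    fin_cases i <;> simp [σ, σ']
  have h2 : Function.Injective σ := by
    intro p q hpq
    have := congrArg σ' hpq
    rwa [← AlgHom.comp_apply, ← AlgHom.comp_apply, h1] at this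
  have h3 : (aeval ![a ^ 2 - b, a] : MvPolynomial (Fin 2) k →ₐ[k] N) =
      (aeval ![a, b] : MvPolynomial (Fin 2) k →ₐ[k] N).comp σ := by
    apply MvPolynomial.algHom_ext
    intro i
    fin_cases i <;> simp [σ]
  rw [algebraicIndependent_iff_injective_aeval] at h ⊢
  rw [h3]
  exact h.comp h2

end auto

section M

variable {k V A₀ A M : Type} [Field k] [CommRing V] [IsDomain V] [ValuationRing V]
  [Algebra k V] [CommRing A₀] [IsDomain A₀] [Algebra k A₀] [CommRing A] [IsLocalRing A]
  [Algebra V A] [Algebra (V ⊗[k] A₀) A] [IsScalarTower V (V ⊗[k] A₀) A]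
  [Field M] [Algebra A₀ M] [IsFractionRing A₀ M] [Algebra k M] [IsScalarTower k A₀ M]
  [IsLocalHom (algebraMap V A)]

/-- the map `A₀ → A` -/
noncomputable def φ₀ (k V A₀ A : Type) [Field k] [CommRing V] [Algebra k V] [CommRing A₀]
    [Algebra k A₀] [CommRing A] [Algebra (V ⊗[k] A₀) A] : A₀ →+* A :=
  (algebraMap (V ⊗[k] A₀) A).comp
    (Algebra.TensorProduct.includeRight : A₀ →ₐ[k] V ⊗[k] A₀).toRingHom

lemma φ₀_apply (a : A₀) : φ₀ k V A₀ A a = algebraMap (V ⊗[k] A₀) A (1 ⊗ₜ a) := rfl

lemma φ₀_unit {P₂ : Ideal (V ⊗[k] A₀)} [P₂.IsPrime] [IsLocalization.AtPrime A P₂]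
    (hP₂ : P₂ = RingHom.ker (redT k V A₀)) (a : A₀) (ha : a ≠ 0) :
    IsUnit (φ₀ k V A₀ A a) := by
  rw [φ₀_apply]
  apply IsLocalization.map_units A (⟨1 ⊗ₜ a, ?_⟩ : P₂.primeCompl)
  rw [Ideal.mem_primeCompl_iff, hP₂, RingHom.mem_ker]
  change ¬ redT k V A₀ (1 ⊗ₜ a) = 0
  rw [redT_tmul, map_one]
  intro h0
  apply ha
  have := Module.Flat.tensorProduct_mk_injective (R := k) (S := ResidueField V) (M := A₀)
  apply this
  rw [map_zero]
  exact h0

/-- the map `M → A` -/
noncomputable def φM (M : Type) [Field M] [Algebra A₀ M] [IsFractionRing A₀ M]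
    (h : ∀ a : A₀, a ≠ 0 → IsUnit (φ₀ k V A₀ A a)) : M →+* A :=
  IsLocalization.lift (M := nonZeroDivisors A₀) (g := φ₀ k V A₀ A)
    (fun s => h s (nonZeroDivisors.coe_ne_zero s))

lemma φM_algebraMap (h : ∀ a : A₀, a ≠ 0 → IsUnit (φ₀ k V A₀ A a)) (a : A₀) :
    φM M h (algebraMap A₀ M a) = φ₀ k V A₀ A a :=
  IsLocalization.lift_eq _ _

lemma φM_k (h : ∀ a : A₀, a ≠ 0 → IsUnit (φ₀ k V A₀ A a)) (c : k) :
    φM M h (algebraMap k M c) = algebraMap V A (algebraMap k V c) := by
  rw [IsScalarTower.algebraMap_apply k A₀ M, φM_algebraMap, φ₀_apply,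
    IsScalarTower.algebraMap_apply V (V ⊗[k] A₀) A, Algebra.TensorProduct.algebraMap_apply]
  congr 1
  rw [Algebra.algebraMap_self, RingHom.id_apply, Algebra.algebraMap_eq_smul_one,
    TensorProduct.tmul_smul, Algebra.algebraMap_eq_smul_one, TensorProduct.smul_tmul']

lemma li_M {P₂ : Ideal (V ⊗[k] A₀)} [P₂.IsPrime] [IsLocalization.AtPrime A P₂]
    (hP₂ : P₂ = RingHom.ker (redT k V A₀))
    (h : ∀ a : A₀, a ≠ 0 → IsUnit (φ₀ k V A₀ A a)) {ι : Type} (m : ι → M)
    (hm : LinearIndependent k m) :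
    LinearIndependent (ResidueField V) (fun i => residue A (φM M h (m i))) := by
  classical
  rw [linearIndependent_iff]
  intro c hc
  obtain ⟨b, hb⟩ := IsLocalization.exist_integer_multiples (nonZeroDivisors A₀) c.support m
  choose! a ha using hb
  have hb0 : algebraMap A₀ M b ≠ 0 := by
    rw [Ne, IsFractionRing.to_map_eq_zero_iff]
    exact nonZeroDivisors.coe_ne_zero b
  have h1 : LinearIndependent k (fun i : c.support => a i) := by
    have h2 : LinearIndependent k (fun i : c.support => m i) :=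
      hm.comp _ Subtype.val_injective
    have h3 : LinearIndependent k (fun i : c.support => algebraMap A₀ M b * m i) :=
      h2.map' (LinearMap.mulLeft k (algebraMap A₀ M b)) (by
        rw [LinearMap.ker_eq_bot]
        exact mul_right_injective₀ hb0)
    apply LinearIndependent.of_comp (IsScalarTower.toAlgHom k A₀ M).toLinearMap
    have h3' : (⇑(IsScalarTower.toAlgHom k A₀ M).toLinearMap ∘ fun i : c.support => a i) =
        fun i : c.support => algebraMap A₀ M b * m i := by
      funext i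
      change algebraMap A₀ M (a i) = _
      rw [ha i i.2, Algebra.smul_def]
    rw [h3']
    exact h3
  have h4 := li_A₀ (A := A) hP₂ _ h1
  have h5 : ∀ i : c.support, residue A (algebraMap (V ⊗[k] A₀) A (1 ⊗ₜ a i)) =
      residue A (φ₀ k V A₀ A b) * residue A (φM M h (m i)) := by
    intro i
    rw [← φ₀_apply, ← φM_algebraMap (M := M) h, ha i i.2, ← map_mul, Algebra.smul_def, map_mul,
      φM_algebraMap]
  simp only [h5] at h4
  rw [Fintype.linearIndependent_iff] at h4
  have h6 := h4 (fun i => c i) (by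
    have h7 : ∑ i : c.support, c i • residue A (φM M h (m i)) = 0 := by
      rw [Finsupp.linearCombination_apply, Finsupp.sum] at hc
      rw [← hc]
      exact Finset.sum_coe_sort c.support (fun i => c i • residue A (φM M h (m i)))
    have h8 := congrArg (fun t => residue A (φ₀ k V A₀ A b) * t) h7
    simp only [Finset.mul_sum, mul_zero, mul_smul_comm] at h8
    exact h8)
  ext i
  by_contra hcon
  exact hcon (h6 ⟨i, Finsupp.mem_support_iff.2 hcon⟩)

lemma ai_M {P₂ : Ideal (V ⊗[k] A₀)} [P₂.IsPrime] [IsLocalization.AtPrime A P₂]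
    (hP₂ : P₂ = RingHom.ker (redT k V A₀))
    (h : ∀ a : A₀, a ≠ 0 → IsUnit (φ₀ k V A₀ A a)) {ι : Type} (x : ι → M)
    (hx : AlgebraicIndependent k x) :
    AlgebraicIndependent (ResidueField V) (fun i => residue A (φM M h (x i))) := by
  rw [ai_iff_li] at hx ⊢
  have h1 := li_M hP₂ h _ hx
  have h2 : (fun m : ι →₀ ℕ => m.prod fun i n => (residue A (φM M h (x i))) ^ n) =
      fun m : ι →₀ ℕ => residue A (φM M h (m.prod fun i n => x i ^ n)) := by
    funext m
    simp only [Finsupp.prod, map_prod, map_pow]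
  rw [h2]
  exact h1

end M

end Q40.BT
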