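import Pool.Agent.Q40.BT.Loc2

set_option autoImplicit false
set_option linter.unusedSectionVars false

/-! The contradiction for localizations. -/

namespace Q40.BT

open IsLocalRing TensorProduct IntermediateField

section

variable {k : Type} [Field k] [IsAlgClosed k]

/-- The ring side: the residues of `u` and `w` are algebraically independent. -/
lemma ai_left {V A : Type} [CommRing V] [IsDomain V] [ValuationRing V]
    [CommRing A] [IsLocalRing A] [Algebra V A] {e d : ℕ} {τ : V}
    (hτ : ¬ IsUnit τ) [Algebra (BR e d τ) A] [IsScalarTower V (BR e d τ) A]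
    [IsLocalHom (algebraMap V A)]
    (P₁ : Ideal (BR e d τ)) [P₁.IsPrime] [IsLocalization.AtPrime A P₁]
    (hP₁ : P₁ = (maximalIdeal V).map (algebraMap V (BR e d τ))) :
    AlgebraicIndependent (ResidueField V)
      ![residue A (algebraMap (BR e d τ) A (BR.u e d τ)),
        residue A (algebraMap (BR e d τ) A (BR.w e d τ))] := by
  have hτ' : residue V τ = 0 := (residue_eq_zero_iff τ).2 ((mem_maximalIdeal τ).2 hτ)
  have hV : ∀ v : V, algebraMap (ResidueField V) (ResidueField A) (residue V v) =
      residue A (algebraMap V A v) := fun v => rfl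
  have hrel : (residue A (algebraMap (BR e d τ) A (BR.y e d τ))) ^ 2 +
      e * (residue A (algebraMap (BR e d τ) A (BR.y e d τ))) =
      ((residue A (algebraMap (BR e d τ) A (BR.u e d τ))) ^ 2 -
        algebraMap (ResidueField V) (ResidueField A) 0 *
          (residue A (algebraMap (BR e d τ) A (BR.w e d τ)))) ^ 3 +
      d * ((residue A (algebraMap (BR e d τ) A (BR.u e d τ))) ^ 2 -
        algebraMap (ResidueField V) (ResidueField A) 0 *
          (residue A (algebraMap (BR e d τ) A (BR.w e d τ)))) := by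
    have h := congrArg (fun t => residue A (algebraMap (BR e d τ) A t)) (BR.rel e d τ)
    simp only [map_add, map_mul, map_pow, map_natCast, map_sub] at h
    rw [← IsScalarTower.algebraMap_apply V (BR e d τ) A, ← hV, hτ', map_zero] at h
    rw [map_zero]
    exact h
  let β : BR e d (0 : ResidueField V) →ₐ[ResidueField V] ResidueField A :=
    BR.lift _ _ _ hrel
  have hβ : ∀ b : BR e d τ, β (BR.map (residue V) hτ' b) = residue A (algebraMap (BR e d τ) A b) := by
    intro b
    have h1 : (β : BR e d (0 : ResidueField V) →+* ResidueField A).comp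
        (BR.map (residue V) hτ') = (residue A).comp (algebraMap (BR e d τ) A) := by
      apply BR.hom_ext
      · intro r
        rw [RingHom.comp_apply, BR.map_algebraMap, RingHom.comp_apply,
          ← IsScalarTower.algebraMap_apply V (BR e d τ) A, ← hV]
        exact β.commutes _
      · rw [RingHom.comp_apply, BR.map_u]
        exact BR.lift_u _ _ _ hrel
      · rw [RingHom.comp_apply, BR.map_w]
        exact BR.lift_w _ _ _ hrel
      · rw [RingHom.comp_apply, BR.map_y]
        exact BR.lift_y _ _ _ hrel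
    exact DFunLike.congr_fun h1 b
  have hsurj : Function.Surjective (BR.map (e := e) (d := d) (residue V) hτ') := by
    intro b
    have hb : b ∈ Algebra.adjoin (ResidueField V) {BR.u e d (0 : ResidueField V),
        BR.w e d (0 : ResidueField V), BR.y e d (0 : ResidueField V)} := by
      rw [BR.adjoin_eq_top]; trivial
    induction hb using Algebra.adjoin_induction with
    | mem x hx =>
      rcases hx with rfl | rfl | rfl
      · exact ⟨_, BR.map_u _ _⟩
      · exact ⟨_, BR.map_w _ _⟩
      · exact ⟨_, BR.map_y _ _⟩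
    | algebraMap r =>
      obtain ⟨v, rfl⟩ := residue_surjective r
      exact ⟨_, BR.map_algebraMap _ _ v⟩
    | add x y _ _ hx hy =>
      obtain ⟨a, rfl⟩ := hx
      obtain ⟨b, rfl⟩ := hy
      exact ⟨a + b, map_add _ _ _⟩
    | mul x y _ _ hx hy =>
      obtain ⟨a, rfl⟩ := hx
      obtain ⟨b, rfl⟩ := hy
      exact ⟨a * b, map_mul _ _ _⟩
  have hinj : Function.Injective β := by
    rw [injective_iff_map_eq_zero]
    intro b hb
    obtain ⟨a, rfl⟩ := hsurj b
    rw [hβ] at hb
    have h1 : a ∈ P₁ := by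
      rw [← IsLocalization.AtPrime.to_map_mem_maximal_iff A P₁]
      exact (residue_eq_zero_iff _).1 hb
    rw [hP₁] at h1
    have h2 := BR.ker_map (e := e) (d := d) (residue V) hτ' residue_surjective
    rw [ker_residue] at h2
    rw [← h2] at h1
    exact h1
  have h3 := (BR.ai (e := e) (d := d) (0 : ResidueField V)).map' hinj
  have h4 : (⇑β ∘ ![BR.u e d (0 : ResidueField V), BR.w e d (0 : ResidueField V)]) =
      ![residue A (algebraMap (BR e d τ) A (BR.u e d τ)),
        residue A (algebraMap (BR e d τ) A (BR.w e d τ))] := by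
    funext i
    fin_cases i
    · exact BR.lift_u _ _ _ hrel
    · exact BR.lift_w _ _ _ hrel
  rw [h4] at h3
  exact h3

theorem loc_contra {V A₀ A M : Type} [CommRing V] [IsDomain V] [ValuationRing V]
    [Algebra k V] [CommRing A₀] [IsDomain A₀] [Algebra k A₀] [CommRing A] [IsLocalRing A]
    [Algebra V A] [Algebra (V ⊗[k] A₀) A] [IsScalarTower V (V ⊗[k] A₀) A]
    [Field M] [Algebra A₀ M] [IsFractionRing A₀ M] [Algebra k M] [IsScalarTower k A₀ M]
    {e d : ℕ} (hg : Good k e d) {τ : V} (hτ0 : τ ≠ 0) (hτ : ¬ IsUnit τ)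
    [Algebra (BR e d τ) A] [IsScalarTower V (BR e d τ) A]
    (P₁ : Ideal (BR e d τ)) [P₁.IsPrime] [IsLocalization.AtPrime A P₁]
    (hP₁ : P₁ = (maximalIdeal V).map (algebraMap V (BR e d τ)))
    (P₂ : Ideal (V ⊗[k] A₀)) [P₂.IsPrime] [IsLocalization.AtPrime A P₂]
    (ψ : BR e d (1 : k) →ₐ[k] M) (hψ : Function.Injective ψ)
    (hψ' : ∀ m : M, ∃ a b, ψ b ≠ 0 ∧ m * ψ b = ψ a) : False := by
  have hgV : Good V e d := hg.map (algebraMap k V)
  have hmax : maximalIdeal A = (maximalIdeal V).map (algebraMap V A) := by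
    rw [← IsLocalization.AtPrime.map_eq_maximalIdeal P₁ A, hP₁, Ideal.map_map,
      ← IsScalarTower.algebraMap_eq]
  have hlocal : IsLocalHom (algebraMap V A) := by
    constructor
    intro v hv
    by_contra hcon
    have h1 : algebraMap V A v ∈ maximalIdeal A := by
      rw [hmax]
      exact Ideal.mem_map_of_mem _ ((mem_maximalIdeal v).2 hcon)
    exact (mem_maximalIdeal _).1 h1 hv
  have hP₂ := P₂_eq k V A₀ A hmax P₂
  have hd : IsDomain (V ⊗[k] A₀) := Pool.Agent.W904.PG.dom
  have hAd : IsDomain A :=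
    IsLocalization.isDomain_of_le_nonZeroDivisors (M := P₂.primeCompl) (S := A)
      P₂.primeCompl_le_nonZeroDivisors
  have hinj2 : Function.Injective (algebraMap (V ⊗[k] A₀) A) :=
    IsLocalization.injective A P₂.primeCompl_le_nonZeroDivisors
  have hVA : Function.Injective (algebraMap V A) := by
    rw [IsScalarTower.algebraMap_eq V (V ⊗[k] A₀) A]
    refine hinj2.comp ?_
    exact Algebra.TensorProduct.includeLeft_injective (S := k)
      (FaithfulSMul.algebraMap_injective k A₀)
  have hu := φ₀_unit (A := A) hP₂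
  -- the fields
  have hVL : Function.Injective (algebraMap V (FractionRing A)) := by
    rw [IsScalarTower.algebraMap_eq V A (FractionRing A)]
    exact (IsFractionRing.injective A (FractionRing A)).comp hVA
  have : FaithfulSMul V (FractionRing A) := (faithfulSMul_iff_algebraMap_injective _ _).2 hVL
  let _ : Algebra (FractionRing V) (FractionRing A) := FractionRing.liftAlgebra V (FractionRing A)
  have : IsScalarTower V (FractionRing V) (FractionRing A) :=
    FractionRing.isScalarTower_liftAlgebra V (FractionRing A)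
  have S : Sit V (FractionRing V) (ResidueField V) A (FractionRing A) (ResidueField A) :=
    ⟨IsFractionRing.injective A (FractionRing A),
      fun v hv => (residue_eq_zero_iff v).2 ((mem_maximalIdeal v).2 hv)⟩
  -- the elements
  have hx : ψ (BR.y e d 1) ^ 2 + e * ψ (BR.y e d 1) =
      ψ (BR.u e d 1 ^ 2 - BR.w e d 1) ^ 3 + d * ψ (BR.u e d 1 ^ 2 - BR.w e d 1) := by
    have h := congrArg ψ (BR.rel e d (1 : k))
    rw [map_one, one_mul] at h
    simpa only [map_add, map_mul, map_pow, map_natCast] using h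
  have hx' : φM M hu (ψ (BR.y e d 1)) ^ 2 + e * φM M hu (ψ (BR.y e d 1)) =
      φM M hu (ψ (BR.u e d 1 ^ 2 - BR.w e d 1)) ^ 3 +
        d * φM M hu (ψ (BR.u e d 1 ^ 2 - BR.w e d 1)) := by
    have h := congrArg (φM M hu) hx
    simpa only [map_add, map_mul, map_pow, map_natCast] using h
  have hrel : (algebraMap (BR e d τ) A (BR.y e d τ)) ^ 2 +
      e * (algebraMap (BR e d τ) A (BR.y e d τ)) =
      ((algebraMap (BR e d τ) A (BR.u e d τ)) ^ 2 - algebraMap V A τ *
        (algebraMap (BR e d τ) A (BR.w e d τ))) ^ 3 +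
      d * ((algebraMap (BR e d τ) A (BR.u e d τ)) ^ 2 - algebraMap V A τ *
        (algebraMap (BR e d τ) A (BR.w e d τ))) := by
    have h := congrArg (algebraMap (BR e d τ) A) (BR.rel e d τ)
    simp only [map_add, map_mul, map_pow, map_natCast, map_sub] at h
    rw [← IsScalarTower.algebraMap_apply V (BR e d τ) A] at h
    exact h
  -- generation
  have gL : ∀ t : FractionRing A, t ∈ adjoin (FractionRing V)
      {algebraMap A (FractionRing A) (algebraMap (BR e d τ) A (BR.u e d τ)),
        algebraMap A (FractionRing A) (algebraMap (BR e d τ) A (BR.w e d τ)),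
        algebraMap A (FractionRing A) (algebraMap (BR e d τ) A (BR.y e d τ))} := by
    have h1 : ∀ b : BR e d τ, algebraMap A (FractionRing A) (algebraMap (BR e d τ) A b) ∈
        adjoin (FractionRing V)
      {algebraMap A (FractionRing A) (algebraMap (BR e d τ) A (BR.u e d τ)),
        algebraMap A (FractionRing A) (algebraMap (BR e d τ) A (BR.w e d τ)),
        algebraMap A (FractionRing A) (algebraMap (BR e d τ) A (BR.y e d τ))} := by
      intro b
      have h2 := gen_adjoin (F := FractionRing V) (BR.adjoin_eq_top (R := V) (e := e) (d := d) (c := τ))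
        ((algebraMap A (FractionRing A)).comp (algebraMap (BR e d τ) A)) (by
          intro r
          refine ⟨algebraMap V (FractionRing V) r, ?_⟩
          rw [RingHom.comp_apply, ← IsScalarTower.algebraMap_apply V (BR e d τ) A,
            ← IsScalarTower.algebraMap_apply V A (FractionRing A),
            ← IsScalarTower.algebraMap_apply V (FractionRing V) (FractionRing A)]) b
      rw [Set.image_insert_eq, Set.image_insert_eq, Set.image_singleton] at h2
      exact h2
    intro t
    obtain ⟨a, b, hb, rfl⟩ := IsFractionRing.div_surjective (A := A) t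
    have h3 : ∀ a : A, algebraMap A (FractionRing A) a ∈ adjoin (FractionRing V)
      {algebraMap A (FractionRing A) (algebraMap (BR e d τ) A (BR.u e d τ)),
        algebraMap A (FractionRing A) (algebraMap (BR e d τ) A (BR.w e d τ)),
        algebraMap A (FractionRing A) (algebraMap (BR e d τ) A (BR.y e d τ))} := by
      intro a
      obtain ⟨⟨r, s⟩, hrs⟩ := IsLocalization.surj P₁.primeCompl a
      have hs : IsUnit (algebraMap (BR e d τ) A s) := IsLocalization.map_units A s
      have h4 : algebraMap A (FractionRing A) a =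
          algebraMap A (FractionRing A) (algebraMap (BR e d τ) A r) /
            algebraMap A (FractionRing A) (algebraMap (BR e d τ) A s) := by
        rw [eq_div_iff (hs.map (algebraMap A (FractionRing A))).ne_zero, ← map_mul, hrs]
      rw [h4]
      exact div_mem (h1 _) (h1 _)
    exact div_mem (h3 _) (h3 _)
  have gN : ∀ {F N : Type} [Field F] [Field N] [Algebra F N] (ρ : A →+* N)
      (_ : ∀ v : V, ∃ c, ρ (algebraMap V A v) = algebraMap F N c) (t : V ⊗[k] A₀),
      ρ (algebraMap (V ⊗[k] A₀) A t) ∈ adjoin F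
        {ρ (φM M hu (ψ (BR.u e d 1 ^ 2 - BR.w e d 1))), ρ (φM M hu (ψ (BR.y e d 1))),
          ρ (φM M hu (ψ (BR.u e d 1)))} := by
    intro F N _ _ _ ρ hρ t
    set W := adjoin F {ρ (φM M hu (ψ (BR.u e d 1 ^ 2 - BR.w e d 1))), ρ (φM M hu (ψ (BR.y e d 1))),
          ρ (φM M hu (ψ (BR.u e d 1)))} with hW
    have w1 : ρ (φM M hu (ψ (BR.u e d 1 ^ 2 - BR.w e d 1))) ∈ W := subset_adjoin F _ (by simp)
    have w2 : ρ (φM M hu (ψ (BR.y e d 1))) ∈ W := subset_adjoin F _ (by simp)
    have w3 : ρ (φM M hu (ψ (BR.u e d 1))) ∈ W := subset_adjoin F _ (by simp)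
    have w4 : ρ (φM M hu (ψ (BR.w e d 1))) ∈ W := by
      have h5 : ρ (φM M hu (ψ (BR.w e d 1))) = ρ (φM M hu (ψ (BR.u e d 1))) ^ 2 -
          ρ (φM M hu (ψ (BR.u e d 1 ^ 2 - BR.w e d 1))) := by
        simp only [map_sub, map_pow]
        ring
      rw [h5]
      exact sub_mem (_root_.pow_mem w3 2) w1
    have h1 : ∀ b : BR e d (1 : k), ρ (φM M hu (ψ b)) ∈ W := by
      intro b
      have h2 := gen_adjoin (F := F) (BR.adjoin_eq_top (R := k) (e := e) (d := d) (c := 1))
        ((ρ.comp (φM M hu)).comp (ψ : BR e d (1 : k) →+* M)) (by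
          intro r
          obtain ⟨c, hc⟩ := hρ (algebraMap k V r)
          refine ⟨c, ?_⟩
          rw [← hc, ← φM_k (M := M) hu, RingHom.comp_apply, RingHom.comp_apply]
          congr 2
          exact ψ.commutes r) b
      rw [Set.image_insert_eq, Set.image_insert_eq, Set.image_singleton] at h2
      refine (adjoin_le_iff.2 ?_) h2
      rintro t (rfl | rfl | rfl)
      · exact w3
      · exact w4
      · exact w2
    have h3 : ∀ m : M, ρ (φM M hu m) ∈ W := by
      intro m
      obtain ⟨a, b, hb, hab⟩ := hψ' m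
      have h4 : ρ (φM M hu (ψ b)) ≠ 0 := (_root_.map_ne_zero (ρ.comp (φM M hu))).2 hb
      have h5 : ρ (φM M hu m) = ρ (φM M hu (ψ a)) / ρ (φM M hu (ψ b)) := by
        rw [eq_div_iff h4, ← hab, map_mul, map_mul]
      rw [h5]
      exact div_mem (h1 _) (h1 _)
    induction t using TensorProduct.induction_on with
    | zero => rw [map_zero, map_zero]; exact zero_mem _
    | add x y hx hy => rw [map_add, map_add]; exact add_mem hx hy
    | tmul v a =>
      have h6 : (v ⊗ₜ a : V ⊗[k] A₀) = algebraMap V (V ⊗[k] A₀) v * (1 ⊗ₜ a) := by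
        rw [Algebra.TensorProduct.algebraMap_apply, Algebra.TensorProduct.tmul_mul_tmul, mul_one,
          one_mul]
        rfl
      rw [h6, map_mul, map_mul, ← IsScalarTower.algebraMap_apply V (V ⊗[k] A₀) A, ← φ₀_apply,
        ← φM_algebraMap (M := M) hu]
      obtain ⟨c, hc⟩ := hρ v
      rw [hc]
      exact mul_mem (_root_.algebraMap_mem _ _) (h3 _)
  have gA : ∀ a : A, ∃ r s : V ⊗[k] A₀, IsUnit (algebraMap (V ⊗[k] A₀) A s) ∧
      a * algebraMap (V ⊗[k] A₀) A s = algebraMap (V ⊗[k] A₀) A r := by
    intro a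
    obtain ⟨⟨r, s⟩, hrs⟩ := IsLocalization.surj P₂.primeCompl a
    exact ⟨r, s, IsLocalization.map_units A s, hrs⟩
  have gN' : ∀ {F N : Type} [Field F] [Field N] [Algebra F N] (ρ : A →+* N)
      (_ : ∀ v : V, ∃ c, ρ (algebraMap V A v) = algebraMap F N c) (a : A),
      ρ a ∈ adjoin F
        {ρ (φM M hu (ψ (BR.u e d 1 ^ 2 - BR.w e d 1))), ρ (φM M hu (ψ (BR.y e d 1))),
          ρ (φM M hu (ψ (BR.u e d 1)))} := by
    intro F N _ _ _ ρ hρ a
    obtain ⟨r, s, hs, hrs⟩ := gA a
    have h1 : ρ a = ρ (algebraMap (V ⊗[k] A₀) A r) / ρ (algebraMap (V ⊗[k] A₀) A s) := by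
      rw [eq_div_iff (hs.map ρ).ne_zero, ← map_mul, hrs]
    rw [h1]
    exact div_mem (gN ρ hρ _) (gN ρ hρ _)
  have hρL : ∀ v : V, ∃ c, algebraMap A (FractionRing A) (algebraMap V A v) =
      algebraMap (FractionRing V) (FractionRing A) c := by
    intro v
    refine ⟨algebraMap V (FractionRing V) v, ?_⟩
    rw [← IsScalarTower.algebraMap_apply V A (FractionRing A),
      ← IsScalarTower.algebraMap_apply V (FractionRing V) (FractionRing A)]
  have hρΛ : ∀ v : V, ∃ c, residue A (algebraMap V A v) =
      algebraMap (ResidueField V) (ResidueField A) c := fun v => ⟨residue V v, rfl⟩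
  refine contra S hgV hτ0 hτ hrel hx' (ai_left hτ P₁ hP₁)
    (z' := φM M hu (ψ (BR.u e d 1))) ?_ ?_ ?_ ?_
  · have h1 : AlgebraicIndependent k ![ψ (BR.u e d 1 ^ 2 - BR.w e d 1), ψ (BR.u e d 1)] := by
      have h2 := (BR.ai (e := e) (d := d) (1 : k)).map' hψ
      have h3 : (⇑ψ ∘ ![BR.u e d (1 : k), BR.w e d (1 : k)]) =
          ![ψ (BR.u e d (1 : k)), ψ (BR.w e d (1 : k))] := by
        funext i
        fin_cases i <;> rfl
      rw [h3] at h2
      have h4 := ai_auto h2
      rw [map_sub, map_pow]
      exact h4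
    have h5 := ai_M (A := A) hP₂ hu _ h1
    have h6 : (fun i => residue A (φM M hu
        (![ψ (BR.u e d 1 ^ 2 - BR.w e d 1), ψ (BR.u e d 1)] i))) =
        ![residue A (φM M hu (ψ (BR.u e d 1 ^ 2 - BR.w e d 1))),
          residue A (φM M hu (ψ (BR.u e d 1)))] := by
      funext i
      fin_cases i <;> rfl
    rw [h6] at h5
    exact h5
  · rw [eq_top_iff]
    intro t _
    exact gL t
  · rw [eq_top_iff]
    intro t _
    obtain ⟨a, b, hb, rfl⟩ := IsFractionRing.div_surjective (A := A) t
    exact div_mem (gN' (algebraMap A (FractionRing A)) hρL a)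
      (gN' (algebraMap A (FractionRing A)) hρL b)
  · rw [eq_top_iff]
    intro t _
    obtain ⟨a, rfl⟩ := residue_surjective t
    exact gN' (residue A) hρΛ a

end

end Q40.BT
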