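import Pool.Agent.Q40.BT.Sch1
import Pool.Agent.Q40.BT.Loc3

set_option autoImplicit false

/-! The contradiction for schemes with open immersions to two affine schemes. -/

namespace Q40.BT

open AlgebraicGeometry CategoryTheory Limits TensorProduct IsLocalRing

/-- common open subscheme of two affine integral schemes: the function field -/
lemma exists_functionField {k B A₀ : Type} [Field k] [CommRing B] [IsDomain B] [Algebra k B]
    [CommRing A₀] [IsDomain A₀] [Algebra k A₀] {T : Scheme.{0}} [Nonempty T]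
    (a : T ⟶ Spec (.of B)) (b : T ⟶ Spec (.of A₀)) [IsOpenImmersion a] [IsOpenImmersion b]
    (h : a ≫ Spec.map (CommRingCat.ofHom (algebraMap k B)) =
      b ≫ Spec.map (CommRingCat.ofHom (algebraMap k A₀))) :
    ∃ (M : Type) (_ : Field M) (_ : Algebra A₀ M) (_ : IsFractionRing A₀ M) (_ : Algebra k M)
      (_ : IsScalarTower k A₀ M) (ψ : B →ₐ[k] M), Function.Injective ψ ∧
      ∀ m : M, ∃ x y, ψ y ≠ 0 ∧ m * ψ y = ψ x := by
  have hT : IsIntegral T := isIntegral_of_isOpenImmersion a
  let ξ : T := genericPoint T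
  have h0 : ∀ {C : Type} [CommRing C] [IsDomain C] (c : T ⟶ Spec (.of C)) [IsOpenImmersion c],
      (pr c ξ).asIdeal = ⊥ := by
    intro C _ _ c _
    have h1 : c ξ = genericPoint (Spec (.of C)) := genericPoint_eq_of_isOpenImmersion c
    have h2 : genericPoint (Spec (.of C)) = (⊥ : PrimeSpectrum C) :=
      genericPoint_eq_bot_of_affine (.of C)
    have h3 : pr c ξ = (⊥ : PrimeSpectrum C) := h1.trans h2
    rw [h3]
    rfl
  let M : Type := T.presheaf.stalk ξ
  let fM : Field M := inferInstanceAs (Field T.functionField)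
  let aB : Algebra B M := (stk a ξ).hom.toAlgebra
  let aA : Algebra A₀ M := (stk b ξ).hom.toAlgebra
  have fr : ∀ {C : Type} [CommRing C] [IsDomain C] (c : T ⟶ Spec (.of C)) [IsOpenImmersion c],
      @IsFractionRing C _ M _ (stk c ξ).hom.toAlgebra := by
    intro C _ _ c _
    have h1 := stk_isLocalization c ξ
    have h2 : (pr c ξ).asIdeal.primeCompl = nonZeroDivisors C := by
      ext x
      rw [Ideal.mem_primeCompl_iff, h0 c, mem_nonZeroDivisors_iff_ne_zero]
      rfl
    unfold IsLocalization.AtPrime at h1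
    rw [h2] at h1
    exact h1
  have frB : IsFractionRing B M := fr a
  have frA : IsFractionRing A₀ M := fr b
  let ak : Algebra k M := ((algebraMap A₀ M).comp (algebraMap k A₀)).toAlgebra
  have st : IsScalarTower k A₀ M := IsScalarTower.of_algebraMap_eq (fun _ => rfl)
  have hk : ∀ r : k, algebraMap B M (algebraMap k B r) = algebraMap k M r := by
    intro r
    have h1 := stk_comp (CommRingCat.ofHom (algebraMap k B)) a ξ
    have h2 := stk_comp (CommRingCat.ofHom (algebraMap k A₀)) b ξ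
    rw [h, h2] at h1
    exact (congrArg (fun g => g.hom r) h1).symm
  let ψ : B →ₐ[k] M := { toRingHom := algebraMap B M, commutes' := hk }
  refine ⟨M, fM, aA, frA, ak, st, ψ, IsFractionRing.injective B M, ?_⟩
  intro m
  obtain ⟨x, y, hy, hxy⟩ := IsFractionRing.div_surjective (A := B) m
  have hy0 : algebraMap B M y ≠ 0 := by
    rw [Ne, IsFractionRing.to_map_eq_zero_iff]
    exact nonZeroDivisors.ne_zero hy
  refine ⟨x, y, hy0, ?_⟩
  rw [← hxy]
  exact div_mul_cancel₀ _ hy0

theorem sch_contra {k V A₀ : Type} [Field k] [IsAlgClosed k] [CommRing V] [IsDomain V]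
    [ValuationRing V] [Algebra k V] [CommRing A₀] [IsDomain A₀] [Algebra k A₀]
    {e d : ℕ} (hg : Good k e d) {τ : V} (hτ0 : τ ≠ 0) (hτ : ¬ IsUnit τ)
    {T : Scheme.{0}} (a₁ : T ⟶ Spec (.of (BR e d τ))) (a₂ : T ⟶ Spec (.of (V ⊗[k] A₀)))
    [IsOpenImmersion a₁] [IsOpenImmersion a₂]
    (h : a₁ ≫ Spec.map (CommRingCat.ofHom (algebraMap V (BR e d τ))) =
      a₂ ≫ Spec.map (CommRingCat.ofHom (algebraMap V (V ⊗[k] A₀))))
    (w : T) (hw : (pr a₁ w).asIdeal = (maximalIdeal V).map (algebraMap V (BR e d τ)))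
    {M : Type} [Field M] [Algebra A₀ M] [IsFractionRing A₀ M] [Algebra k M] [IsScalarTower k A₀ M]
    (ψ : BR e d (1 : k) →ₐ[k] M) (hψ : Function.Injective ψ)
    (hψ' : ∀ m : M, ∃ a b, ψ b ≠ 0 ∧ m * ψ b = ψ a) : False := by
  let A : Type := T.presheaf.stalk w
  have hA : IsLocalRing A := inferInstanceAs (IsLocalRing (T.presheaf.stalk w))
  let i₁ : Algebra (BR e d τ) A := (stk a₁ w).hom.toAlgebra
  let i₂ : Algebra (V ⊗[k] A₀) A := (stk a₂ w).hom.toAlgebra
  let i₃ : Algebra V A := ((algebraMap (BR e d τ) A).comp (algebraMap V (BR e d τ))).toAlgebra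
  have t₁ : IsScalarTower V (BR e d τ) A := IsScalarTower.of_algebraMap_eq (fun _ => rfl)
  have t₂ : IsScalarTower V (V ⊗[k] A₀) A := IsScalarTower.of_algebraMap_eq (by
    intro v
    have h1 := stk_comp (CommRingCat.ofHom (algebraMap V (BR e d τ))) a₁ w
    have h2 := stk_comp (CommRingCat.ofHom (algebraMap V (V ⊗[k] A₀))) a₂ w
    rw [h, h2] at h1
    exact (congrArg (fun g => g.hom v) h1).symm)
  have l₁ : IsLocalization.AtPrime A (pr a₁ w).asIdeal := stk_isLocalization a₁ w
  have l₂ : IsLocalization.AtPrime A (pr a₂ w).asIdeal := stk_isLocalization a₂ w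
  exact loc_contra (A := A) (M := M) hg hτ0 hτ (pr a₁ w).asIdeal hw (pr a₂ w).asIdeal ψ hψ hψ'

end Q40.BT
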