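import Pool.Agent.Q40.BT.Geo
import Pool.Agent.Q40.BT.Sch2
import Pool.Agent.Q40.BT.IsFam

set_option autoImplicit false

/-! There is no birational trivialization at the origin. -/

namespace Q40.BT

open AlgebraicGeometry CategoryTheory Limits IsLocalRing
open Pool.Agent.Helper198.Sch Q40.Gen

open Polynomial in
/-- the origin of the affine line -/
noncomputable abbrev b₀ (k : Type) [Field k] : Spec (.of k) ⟶ BB k :=
  Spec.map (CommRingCat.ofHom (evalRingHom (0 : k)))

open Polynomial in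
lemma isPoint_b₀ (k : Type) [Field k] : IsPoint (sBB k) (b₀ k) := by
  unfold IsPoint
  rw [← Spec.map_comp, ← CommRingCat.ofHom_comp]
  have h : (evalRingHom (0 : k)).comp (algebraMap k k[X]) = RingHom.id k := by
    ext r
    simp
  rw [h, CommRingCat.ofHom_id, Spec.map_id]

section tau

open Polynomial

variable {k : Type} [Field k] {B' : Scheme.{0}} {V : Type} [CommRing V] [IsDomain V]
  [ValuationRing V]

/-- the parameter is not a unit -/
lemma tau_not_unit (ρ : B' ⟶ BB k) (b' : Spec (.of k) ⟶ B') (hb : b' ≫ ρ = b₀ k)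
    (v : Spec (.of V) ⟶ B') (hv : v (closedPoint V) = b' (closedPoint k))
    (γ : CommRingCat.of k[X] ⟶ .of V) (hγ : v ≫ ρ = Spec.map γ) : ¬ IsUnit (γ.hom X) := by
  have h1 : (v ≫ ρ) (closedPoint V) = (b₀ k) (closedPoint k) := by
    rw [Scheme.Hom.comp_apply, hv, ← Scheme.Hom.comp_apply, hb]
  rw [hγ] at h1
  have h2 : (PrimeSpectrum.comap γ.hom (closedPoint V)).asIdeal =
      (PrimeSpectrum.comap (evalRingHom (0 : k)) (closedPoint k)).asIdeal :=
    congrArg PrimeSpectrum.asIdeal h1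
  have h3 : (X : k[X]) ∈ (PrimeSpectrum.comap (evalRingHom (0 : k)) (closedPoint k)).asIdeal := by
    rw [PrimeSpectrum.comap_asIdeal, Ideal.mem_comap]
    change evalRingHom (0 : k) X ∈ maximalIdeal k
    rw [coe_evalRingHom, eval_X]
    exact zero_mem _
  rw [← h2, PrimeSpectrum.comap_asIdeal, Ideal.mem_comap] at h3
  exact (mem_maximalIdeal _).1 h3

/-- the parameter is not zero -/
lemma tau_ne_zero {U : (BB k).Opens} (π : B' ⟶ U) [Surjective π] (β : B')
    (γ : CommRingCat.of k[X] ⟶ .of V)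
    (h : γ.hom X = 0 → (π ≫ U.ι).appTop.hom
      ((Scheme.ΓSpecIso (.of k[X])).inv.hom X) = 0) : γ.hom X ≠ 0 := by
  intro h0
  have h1 := h h0
  let η : BB k := (⊥ : PrimeSpectrum k[X])
  have hη : η ∈ U := by
    have h2 : genericPoint (BB k) = η := genericPoint_eq_bot_of_affine (.of k[X])
    rw [← h2]
    exact ((genericPoint_spec (BB k)).mem_open_set_iff U.isOpen).2
      ⟨_, trivial, (π β).2⟩
  obtain ⟨x, hx⟩ := π.surjective ⟨η, hη⟩
  have h2 : (π ≫ U.ι) x = η := by
    rw [Scheme.Hom.comp_apply, hx]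
    rfl
  have h3 : (X : k[X]) ∈ (pr (π ≫ U.ι) x).asIdeal := by
    rw [mem_pr_iff]
    have h4 : (stk (π ≫ U.ι) x).hom X = 0 := by
      change (B'.presheaf.germ ⊤ x trivial).hom ((π ≫ U.ι).appTop.hom
        ((Scheme.ΓSpecIso (.of k[X])).inv.hom X)) = 0
      rw [h1, map_zero]
    rw [h4]
    exact zero_mem _
  have h4 : pr (π ≫ U.ι) x = (⊥ : PrimeSpectrum k[X]) := h2
  rw [h4] at h3
  exact X_ne_zero ((Ideal.mem_bot).1 h3)

end tau

section special

variable {O : Type} [CommRing O] [IsDomain O] [ValuationRing O] {e d : ℕ} {τ : O}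

/-- the generic point of the special fibre -/
lemma P₁_prime (hg : Good O e d) (hτ : ¬ IsUnit τ) :
    ((maximalIdeal O).map (algebraMap O (BR e d τ))).IsPrime := by
  have hτ' : residue O τ = 0 := (residue_eq_zero_iff τ).2 ((mem_maximalIdeal τ).2 hτ)
  have h := BR.ker_map (e := e) (d := d) (residue O) hτ' residue_surjective
  rw [ker_residue] at h
  rw [← h]
  have := BR.isDomain (hg.map (residue O)) (0 : ResidueField O)
  exact RingHom.ker_isPrime _

/-- the generic point of the special fibre -/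
noncomputable def P₁ (hg : Good O e d) (hτ : ¬ IsUnit τ) : PrimeSpectrum (BR e d τ) :=
  ⟨(maximalIdeal O).map (algebraMap O (BR e d τ)), P₁_prime hg hτ⟩

lemma range_jc {R : Type} [CommRing R] {c : R} (x : V (JG e d c)) (hx : x ∈ V.D (JG e d c) 3) :
    ∃ q : Spec (.of (BR e d c)), jc e d c q = x := by
  obtain ⟨y, rfl⟩ := (V.mem_range_chart (JG e d c) 3 x).2 hx
  refine ⟨inv (Spec.map (CommRingCat.ofHom (chTo e d c).toRingHom)) y, ?_⟩
  unfold jc
  rw [Scheme.Hom.comp_apply, ← Scheme.Hom.comp_apply (inv _), IsIso.inv_hom_id]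
  rfl

lemma jc_mem {R : Type} [CommRing R] {c : R} (q : Spec (.of (BR e d c))) :
    jc e d c q ∈ V.D (JG e d c) 3 := by
  rw [← V.mem_range_chart]
  unfold jc
  rw [Scheme.Hom.comp_apply]
  exact ⟨_, rfl⟩

lemma specializes_of_special (hg : Good O e d) (hτ : ¬ IsUnit τ) (x : V (JG e d τ))
    (hx : x ∈ V.D (JG e d τ) 3) (hs : V.str (JG e d τ) x = closedPoint O) :
    jc e d τ (P₁ hg hτ) ⤳ x := by
  obtain ⟨q, rfl⟩ := range_jc x hx
  rw [← Scheme.Hom.comp_apply, jc_str] at hs
  have h1 : (PrimeSpectrum.comap (algebraMap O (BR e d τ)) q).asIdeal = maximalIdeal O :=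
    congrArg PrimeSpectrum.asIdeal hs
  have h2 : P₁ hg hτ ≤ (q : PrimeSpectrum (BR e d τ)) := by
    rw [← PrimeSpectrum.asIdeal_le_asIdeal]
    change (maximalIdeal O).map (algebraMap O (BR e d τ)) ≤ _
    rw [Ideal.map_le_iff_le_comap, ← h1]
    exact le_rfl
  have h3 : (P₁ hg hτ) ⤳ (q : PrimeSpectrum (BR e d τ)) :=
    (PrimeSpectrum.le_iff_specializes _ _).1 h2
  exact Specializes.map h3 (jc e d τ).continuous

end special

section chart

variable {k : Type} [Field k] [IsAlgClosed k] {e d : ℕ}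

open Polynomial in
/-- The generic point of the fibre lies in the chart. -/
lemma mem_chart {B' : Scheme.{0}} (ρ : B' ⟶ BB k) (b' : Spec (.of k) ⟶ B') (hb : b' ≫ ρ = b₀ k)
    (η : (pullback (pullback.snd (ff k e d) ρ) b' : Scheme.{0})) (hη : IsGenericPoint η Set.univ)
    (hg : Good k e d) :
    pullback.fst (ff k e d) ρ ((pullback.fst (pullback.snd (ff k e d) ρ) b') η) ∈
      V.D (Jt k e d) 3 := by
  have h1 : IsPullback (pullback.fst (pullback.snd (ff k e d) ρ) b' ≫ pullback.fst (ff k e d) ρ)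
      (pullback.snd (pullback.snd (ff k e d) ρ) b') (ff k e d) (b' ≫ ρ) :=
    (IsPullback.of_hasPullback (pullback.snd (ff k e d) ρ) b').paste_horiz
      (IsPullback.of_hasPullback (ff k e d) ρ)
  rw [hb] at h1
  have h2 := isPullback_fam (k := k) (e := e) (d := d) (evalRingHom 0)
  let c : k := evalRingHom (0 : k) X
  let θ : V (JG e d c) ≅ pullback (pullback.snd (ff k e d) ρ) b' := h2.isoIsPullback _ _ h1
  have hθ : θ.hom ≫ (pullback.fst (pullback.snd (ff k e d) ρ) b' ≫ pullback.fst (ff k e d) ρ) =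
      V.map (evalRingHom (0 : k)) (Jt k e d) (JG e d c) (rel_JG _ rfl) :=
    h2.isoIsPullback_hom_fst _ _ h1
  have hd := BR.isDomain hg c
  obtain ⟨q⟩ : Nonempty (Spec (.of (BR e d c))) :=
    inferInstanceAs (Nonempty (PrimeSpectrum (BR e d c)))
  have h3 : V.map (evalRingHom (0 : k)) (Jt k e d) (JG e d c) (rel_JG _ rfl) (jc e d c q) ∈
      V.D (Jt k e d) 3 := (map_mem_D _ _ _ _ _ _).2 (jc_mem q)
  rw [← hθ, Scheme.Hom.comp_apply] at h3
  let W := (pullback.fst (pullback.snd (ff k e d) ρ) b' ≫ pullback.fst (ff k e d) ρ) ⁻¹ᵁ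
    V.D (Jt k e d) 3
  have h4 : η ∈ W := (hη.mem_open_set_iff W.isOpen).2 ⟨_, trivial, h3⟩
  change (pullback.fst (pullback.snd (ff k e d) ρ) b' ≫ pullback.fst (ff k e d) ρ) η ∈
    V.D (Jt k e d) 3 at h4
  rw [Scheme.Hom.comp_apply] at h4
  exact h4

end chart

end Q40.BT
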