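import Mathlib

set_option autoImplicit false

/-! Rational points over `F(T)` of the curves `y² = x³ + 4x` (characteristic not two) and
`y² + y = x³` (characteristic two) are constant. -/

namespace Q40.BT

open Polynomial

variable {F : Type*} [Field F]

lemma const_of_isAlgebraic {q : RatFunc F} (h : IsAlgebraic F q) : ∃ b : F, q = RatFunc.C b := by
  by_contra hcon
  exact RatFunc.transcendental_of_ne_C q hcon h

lemma const_of_sq {q : RatFunc F} {c : F} (h : q ^ 2 = RatFunc.C c) : ∃ b : F, q = RatFunc.C b := by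
  apply const_of_isAlgebraic
  refine ⟨X ^ 2 - C c, X_pow_sub_C_ne_zero two_pos c, ?_⟩
  simp [h, ← RatFunc.algebraMap_eq_C]

lemma const_of_cube {q : RatFunc F} {c : F} (h : q ^ 3 = RatFunc.C c) :
    ∃ b : F, q = RatFunc.C b := by
  apply const_of_isAlgebraic
  refine ⟨X ^ 3 - C c, X_pow_sub_C_ne_zero three_pos c, ?_⟩
  simp [h, ← RatFunc.algebraMap_eq_C]

lemma mul_denom (p : RatFunc F) :
    p * algebraMap F[X] (RatFunc F) p.denom = algebraMap F[X] (RatFunc F) p.num := by
  have h0 : algebraMap F[X] (RatFunc F) p.denom ≠ 0 :=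
    (map_ne_zero_iff _ (RatFunc.algebraMap_injective F)).2 p.denom_ne_zero
  have h := RatFunc.num_div_denom p
  rw [div_eq_iff h0] at h
  exact h.symm

lemma four_C : (4 : RatFunc F) = RatFunc.C 4 := (map_ofNat RatFunc.C 4).symm

lemma four_pC : (4 : F[X]) = C 4 := (map_ofNat C 4).symm

/-- a polynomial of natDegree zero is a constant -/
lemma eq_C_of_nd {a : F[X]} (h : a.natDegree = 0) : ∃ c : F, a = C c :=
  ⟨_, eq_C_of_natDegree_eq_zero h⟩

lemma assoc_C {a b : F[X]} (h : Associated a b) : ∃ u : F, u ≠ 0 ∧ b = C u * a := by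
  obtain ⟨u, hu⟩ := h
  obtain ⟨c, hc, hcu⟩ := Polynomial.isUnit_iff.1 u.isUnit
  exact ⟨c, hc.ne_zero, by rw [← hu, ← hcu, mul_comm]⟩

/-- the case of characteristic not two -/
theorem rig_odd (h2 : (2 : F) ≠ 0) {p q : RatFunc F} (h : q ^ 2 = p ^ 3 + 4 * p) :
    ∃ a b : F, p = RatFunc.C a ∧ q = RatFunc.C b := by
  suffices hp : ∃ a : F, p = RatFunc.C a by
    obtain ⟨a, rfl⟩ := hp
    obtain ⟨b, rfl⟩ := const_of_sq (q := q) (c := a ^ 3 + 4 * a) (by
      rw [h, four_C, map_add, map_mul, map_pow])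
    exact ⟨a, b, rfl, rfl⟩
  set a := p.num with ha
  set b := p.denom with hb
  have hb0 : b ≠ 0 := p.denom_ne_zero
  have hcop : IsCoprime a b := RatFunc.isCoprime_num_denom p
  have hpab : p * algebraMap F[X] (RatFunc F) b = algebraMap F[X] (RatFunc F) a := by
    rw [ha, hb]
    exact mul_denom p
  have hinj : Function.Injective (algebraMap F[X] (RatFunc F)) := RatFunc.algebraMap_injective F
  have hbL : algebraMap F[X] (RatFunc F) b ≠ 0 := (map_ne_zero_iff _ hinj).2 hb0
  by_cases ha0 : a = 0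
  · refine ⟨0, ?_⟩
    rw [ha0, map_zero] at hpab
    rw [map_zero]
    exact (mul_eq_zero.1 hpab).resolve_right hbL
  -- `q b²` is a polynomial
  have hc : (q * algebraMap F[X] (RatFunc F) b ^ 2) ^ 2 =
      algebraMap F[X] (RatFunc F) (a * b * (a ^ 2 + 4 * b ^ 2)) := by
    have : (q * algebraMap F[X] (RatFunc F) b ^ 2) ^ 2 =
      ((p * algebraMap F[X] (RatFunc F) b) ^ 3 + 4 * (p * algebraMap F[X] (RatFunc F) b) *
        algebraMap F[X] (RatFunc F) b ^ 2) * algebraMap F[X] (RatFunc F) b := by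
      rw [mul_pow, h]; ring
    rw [this, hpab]
    simp only [map_mul, map_add, map_pow, map_ofNat]
    ring
  obtain ⟨c, hc1⟩ : ∃ c : F[X], algebraMap F[X] (RatFunc F) c =
      q * algebraMap F[X] (RatFunc F) b ^ 2 := by
    apply IsIntegrallyClosed.isIntegral_iff.1
    refine ⟨X ^ 2 - C (a * b * (a ^ 2 + 4 * b ^ 2)), monic_X_pow_sub_C _ two_ne_zero, ?_⟩
    rw [eval₂_sub, eval₂_pow, eval₂_X, eval₂_C, hc, sub_self]
  have hc2 : a * b * (a ^ 2 + 4 * b ^ 2) = c ^ 2 := by
    apply hinj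
    rw [map_pow, hc1, hc]
  have h4 : (4 : F) ≠ 0 := by
    have : (4 : F) = 2 * 2 := by norm_num
    rw [this]; exact mul_ne_zero h2 h2
  have h4u : IsUnit (4 : F[X]) := by
    rw [four_pC]
    exact Polynomial.isUnit_C.2 (isUnit_iff_ne_zero.2 h4)
  have hcop1 : IsCoprime (a * b) (a ^ 2 + 4 * b ^ 2) := by
    apply IsCoprime.mul_left
    · have : IsCoprime a (4 * b ^ 2 + a * a) := by
        apply IsCoprime.add_mul_left_right
        exact (isCoprime_mul_unit_left_right h4u a (b ^ 2)).2 hcop.pow_right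
      rw [show a ^ 2 + 4 * b ^ 2 = 4 * b ^ 2 + a * a by ring]
      exact this
    · have : IsCoprime b (a ^ 2 + b * (4 * b)) := by
        apply IsCoprime.add_mul_left_right
        exact hcop.symm.pow_right
      rw [show a ^ 2 + 4 * b ^ 2 = a ^ 2 + b * (4 * b) by ring]
      exact this
  obtain ⟨d1, hd1⟩ := exists_associated_pow_of_mul_eq_pow' hcop1 hc2
  obtain ⟨g, hg⟩ := exists_associated_pow_of_mul_eq_pow' hcop1.symm (by rw [mul_comm]; exact hc2)
  obtain ⟨e, he⟩ := exists_associated_pow_of_associated_pow_mul hcop hd1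
  obtain ⟨f, hf⟩ := exists_associated_pow_of_associated_pow_mul hcop.symm
    (by rw [mul_comm b a]; exact hd1)
  obtain ⟨α, hα, hα'⟩ := assoc_C he
  obtain ⟨β, hβ, hβ'⟩ := assoc_C hf
  obtain ⟨γ, hγ, hγ'⟩ := assoc_C hg
  have he0 : e ≠ 0 := by
    rintro rfl
    apply ha0
    rw [hα']; simp
  have hf0 : f ≠ 0 := by
    rintro rfl
    apply hb0
    rw [hβ']; simp
  by_cases hg0 : g = 0
  · -- then `a² = -4 b²`
    rw [hg0] at hγ'
    have h5 : a ^ 2 + 4 * b ^ 2 = 0 := by rw [hγ']; simp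
    have h6 : p ^ 2 = RatFunc.C (-4) := by
      have h7 : (p * algebraMap F[X] (RatFunc F) b) ^ 2 +
          4 * algebraMap F[X] (RatFunc F) b ^ 2 = 0 := by
        rw [hpab]
        have := congrArg (algebraMap F[X] (RatFunc F)) h5
        rwa [map_add, map_mul, map_pow, map_pow, map_ofNat, map_zero] at this
      have h8 : (p ^ 2 + 4) * algebraMap F[X] (RatFunc F) b ^ 2 = 0 := by
        rw [← h7]; ring
      have h9 : p ^ 2 + 4 = 0 := (mul_eq_zero.1 h8).resolve_right (pow_ne_zero _ hbL)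
      rw [eq_neg_of_add_eq_zero_left h9, four_C, map_neg]
    exact const_of_sq h6
  have hef : IsCoprime e f := by
    rw [hα', hβ'] at hcop
    have h1 := hcop.of_mul_left_right.of_mul_right_right
    rw [pow_two, pow_two] at h1
    exact h1.of_mul_left_right.of_mul_right_right
  have heq : C (α ^ 2) * e ^ 4 + C (4 * β ^ 2) * f ^ 4 + C (-γ) * g ^ 2 = 0 := by
    have h1 : a ^ 2 + 4 * b ^ 2 - C γ * g ^ 2 = 0 := by rw [hγ']; ring
    rw [hα', hβ'] at h1
    rw [← h1]
    simp only [C_mul, C_pow, C_neg]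
    rw [← four_pC]
    ring
  obtain ⟨h7, h8, -⟩ := Polynomial.flt_catalan (p := 4) (q := 4) (r := 2) (by norm_num)
    (by norm_num) (by norm_num) (by norm_num) (by exact_mod_cast h4) (by exact_mod_cast h4)
    (by exact_mod_cast h2) he0 hf0 hg0 hef (pow_ne_zero 2 hα) (mul_ne_zero h4 (pow_ne_zero 2 hβ))
    (neg_ne_zero.2 hγ) heq
  obtain ⟨e', rfl⟩ := eq_C_of_nd h7
  obtain ⟨f', rfl⟩ := eq_C_of_nd h8
  refine ⟨(α * e' ^ 2) / (β * f' ^ 2), ?_⟩
  have hf0' : f' ≠ 0 := fun h => hf0 (by rw [h, C_0])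
  have h9 : p = algebraMap F[X] (RatFunc F) a / algebraMap F[X] (RatFunc F) b := by
    rw [eq_div_iff hbL, hpab]
  rw [h9, hα', hβ', map_div₀]
  simp only [map_mul, map_pow, RatFunc.algebraMap_C]

/-- the case of characteristic two -/
theorem rig_two (h2 : (2 : F) = 0) {p q : RatFunc F} (h : q ^ 2 + q = p ^ 3) :
    ∃ a b : F, p = RatFunc.C a ∧ q = RatFunc.C b := by
  suffices hq : ∃ b : F, q = RatFunc.C b by
    obtain ⟨b, rfl⟩ := hq
    obtain ⟨a, rfl⟩ := const_of_cube (q := p) (c := b ^ 2 + b) (by rw [← h]; simp)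
    exact ⟨a, b, rfl, rfl⟩
  have h3 : (3 : F) ≠ 0 := by
    have : (3 : F) = 2 + 1 := by norm_num
    rw [this, h2, zero_add]; exact one_ne_zero
  by_cases hp0 : p = 0
  · rw [hp0] at h
    have h1 : q * (q + 1) = 0 := by linear_combination h
    rcases mul_eq_zero.1 h1 with h1 | h1
    · exact ⟨0, by rw [h1, map_zero]⟩
    · exact ⟨-1, by rw [eq_neg_of_add_eq_zero_left h1]; simp⟩
  set a := p.num with ha
  set b := p.denom with hb
  set m := q.num with hm
  set n := q.denom with hn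
  have hb0 : b ≠ 0 := p.denom_ne_zero
  have hn0 : n ≠ 0 := q.denom_ne_zero
  have hcop : IsCoprime a b := RatFunc.isCoprime_num_denom p
  have hcop' : IsCoprime m n := RatFunc.isCoprime_num_denom q
  have hpab : p * algebraMap F[X] (RatFunc F) b = algebraMap F[X] (RatFunc F) a := by
    rw [ha, hb]
    exact mul_denom p
  have hqmn : q * algebraMap F[X] (RatFunc F) n = algebraMap F[X] (RatFunc F) m := by
    rw [hm, hn]
    exact mul_denom q
  have hinj : Function.Injective (algebraMap F[X] (RatFunc F)) := RatFunc.algebraMap_injective F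
  have hbL : algebraMap F[X] (RatFunc F) b ≠ 0 := (map_ne_zero_iff _ hinj).2 hb0
  have hnL : algebraMap F[X] (RatFunc F) n ≠ 0 := (map_ne_zero_iff _ hinj).2 hn0
  have ha0 : a ≠ 0 := by
    intro h0
    rw [h0, map_zero] at hpab
    exact hp0 ((mul_eq_zero.1 hpab).resolve_right hbL)
  have heq1 : m * (m + n) * b ^ 3 = a ^ 3 * n ^ 2 := by
    apply hinj
    simp only [map_mul, map_add, map_pow]
    rw [← hpab, ← hqmn]
    linear_combination (algebraMap F[X] (RatFunc F) n ^ 2 * algebraMap F[X] (RatFunc F) b ^ 3) * h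
  have hcm : IsCoprime (m * (m + n)) (n ^ 2) := by
    apply IsCoprime.pow_right
    apply IsCoprime.mul_left hcop'
    have : IsCoprime (m + n * 1) n := IsCoprime.add_mul_left_left hcop' 1
    rwa [mul_one] at this
  have hd1 : n ^ 2 ∣ b ^ 3 := by
    apply hcm.symm.dvd_of_dvd_mul_left
    exact ⟨a ^ 3, by rw [heq1]; ring⟩
  have hd2 : b ^ 3 ∣ n ^ 2 := by
    apply (IsCoprime.pow (m := 3) (n := 3) hcop.symm).dvd_of_dvd_mul_left
    exact ⟨m * (m + n), by rw [← heq1]; ring⟩
  obtain ⟨u, hu, hu'⟩ := assoc_C (associated_of_dvd_dvd hd1 hd2)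
  -- b³ = u n²
  have hbn : b ∣ n := by
    have : b ^ 2 ∣ n ^ 2 := (pow_dvd_pow b (by norm_num)).trans hd2
    exact (IsIntegrallyClosed.pow_dvd_pow_iff two_ne_zero).1 this
  obtain ⟨e, he⟩ := hbn
  have hbe : b = C u * e ^ 2 := by
    rw [he] at hu'
    have h1 : b ^ 2 * b = b ^ 2 * (C u * e ^ 2) := by linear_combination hu'
    exact mul_left_cancel₀ (pow_ne_zero 2 hb0) h1
  have hne : n = C u * e ^ 3 := by rw [he, hbe]; ring
  have he0 : e ≠ 0 := by
    rintro rfl
    apply hn0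
    rw [hne]; simp
  have heq2 : m * (m + n) * C u = a ^ 3 := by
    have h1 : m * (m + n) * (C u * n ^ 2) = a ^ 3 * n ^ 2 := by rw [← hu', heq1]
    have h2 : n ^ 2 * (m * (m + n) * C u) = n ^ 2 * a ^ 3 := by linear_combination h1
    exact mul_left_cancel₀ (pow_ne_zero 2 hn0) h2
  have hcmn : IsCoprime m (m + n) := by
    have : IsCoprime m (n + m * 1) := IsCoprime.add_mul_left_right hcop' 1
    rwa [mul_one, add_comm] at this
  have huu : IsUnit (C u : F[X]) := Polynomial.isUnit_C.2 (isUnit_iff_ne_zero.2 hu)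
  have hass : Associated (a ^ 3) (m * (m + n)) := by
    rw [← heq2]
    exact (associated_mul_unit_left _ _ huu)
  obtain ⟨r, hr⟩ := exists_associated_pow_of_associated_pow_mul hcmn hass
  obtain ⟨s, hs⟩ := exists_associated_pow_of_associated_pow_mul hcmn.symm
    (by rw [mul_comm (m + n) m]; exact hass)
  obtain ⟨μ, hμ, hμ'⟩ := assoc_C hr
  obtain ⟨ν, hν, hν'⟩ := assoc_C hs
  have hm0 : m ≠ 0 := by
    intro h0
    rw [h0, zero_mul, zero_mul] at heq2
    exact pow_ne_zero 3 ha0 heq2.symm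
  have hmn0 : m + n ≠ 0 := by
    intro h0
    rw [h0, mul_zero, zero_mul] at heq2
    exact pow_ne_zero 3 ha0 heq2.symm
  have hr0 : r ≠ 0 := by
    rintro rfl
    exact hm0 (by rw [hμ']; simp)
  have hs0 : s ≠ 0 := by
    rintro rfl
    exact hmn0 (by rw [hν']; simp)
  have hre : IsCoprime r e := by
    rw [hμ', hne] at hcop'
    have h1 := hcop'.of_mul_left_right.of_mul_right_right
    rw [pow_succ, pow_succ] at h1
    exact h1.of_mul_left_right.of_mul_right_right
  have heq : C μ * r ^ 3 + C u * e ^ 3 + C (-ν) * s ^ 3 = 0 := by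
    rw [C_neg]
    have h1 : m + n = C ν * s ^ 3 := hν'
    rw [← hμ', ← hne]
    linear_combination h1
  obtain ⟨h7, h8, -⟩ := Polynomial.flt_catalan (p := 3) (q := 3) (r := 3) (by norm_num)
    (by norm_num) (by norm_num) (by norm_num) (by exact_mod_cast h3) (by exact_mod_cast h3)
    (by exact_mod_cast h3) hr0 he0 hs0 hre hμ hu (neg_ne_zero.2 hν) heq
  obtain ⟨r', rfl⟩ := eq_C_of_nd h7
  obtain ⟨e', rfl⟩ := eq_C_of_nd h8
  refine ⟨(μ * r' ^ 3) / (u * e' ^ 3), ?_⟩
  have h9 : q = algebraMap F[X] (RatFunc F) m / algebraMap F[X] (RatFunc F) n := by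
    rw [eq_div_iff hnL, hqmn]
  rw [h9, hμ', hne, map_div₀]
  simp only [map_mul, map_pow, RatFunc.algebraMap_C]

/-- The numbers `e`, `d` of the equation `y² + e y = x³ + d x` are chosen according to the
characteristic: `(0, 4)` if it is not two and `(1, 0)` if it is two. -/
def Good (R : Type*) [CommRing R] (e d : ℕ) : Prop :=
  (e = 0 ∧ d = 4 ∧ IsUnit (2 : R)) ∨ (e = 1 ∧ d = 0 ∧ (2 : R) = 0)

lemma Good.map {R S : Type*} [CommRing R] [CommRing S] {e d : ℕ} (h : Good R e d) (φ : R →+* S) :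
    Good S e d := by
  rcases h with ⟨h1, h2, h3⟩ | ⟨h1, h2, h3⟩
  · left
    refine ⟨h1, h2, ?_⟩
    have := h3.map φ
    rwa [map_ofNat] at this
  · right
    refine ⟨h1, h2, ?_⟩
    have := congrArg φ h3
    rwa [map_ofNat, map_zero] at this

theorem rig {e d : ℕ} (hg : Good F e d) {p q : RatFunc F} (h : q ^ 2 + e * q = p ^ 3 + d * p) :
    ∃ a b : F, p = RatFunc.C a ∧ q = RatFunc.C b := by
  rcases hg with ⟨rfl, rfl, h2⟩ | ⟨rfl, rfl, h2⟩
  · apply rig_odd h2.ne_zero
    simpa using h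
  · apply rig_two h2
    simpa using h

end Q40.BT
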