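import Pool.Agent.Q40.BT.Contra

set_option autoImplicit false

/-! The ring `R[u, w, y] / (y² + e y - (u² - c w)³ - d (u² - c w))`. -/

namespace Q40.BT

open Polynomial

section defs

variable (e d : ℕ) {R : Type} [CommRing R] (c : R)

/-- `u² - c w` -/
noncomputable def xx : MvPolynomial (Fin 2) R :=
  MvPolynomial.X 0 ^ 2 - MvPolynomial.C c * MvPolynomial.X 1

/-- the equation, as a polynomial in `y` -/
noncomputable def gp : (MvPolynomial (Fin 2) R)[X] :=
  X ^ 2 + (C (e : MvPolynomial (Fin 2) R) * X - C (xx c ^ 3 + d * xx c))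

lemma gp_aux [Nontrivial R] :
    (C (e : MvPolynomial (Fin 2) R) * X - C (xx c ^ 3 + d * xx c)).degree < 2 := by
  have h1 : (C (e : MvPolynomial (Fin 2) R) * X - C (xx c ^ 3 + d * xx c)) =
      C (e : MvPolynomial (Fin 2) R) * X + C (-(xx c ^ 3 + d * xx c)) := by rw [C_neg]; ring
  rw [h1]
  exact degree_linear_lt

lemma gp_monic : (gp e d c).Monic := by
  nontriviality R
  exact monic_X_pow_add (gp_aux e d c)

lemma gp_degree [Nontrivial R] : (gp e d c).degree = 2 := by
  unfold gp
  rw [degree_add_eq_left_of_degree_lt] <;> rw [degree_X_pow]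
  · rfl
  · exact gp_aux e d c

/-- the ring -/
abbrev BR : Type := AdjoinRoot (gp e d c)

namespace BR

/-- the element `u` -/
noncomputable def u : BR e d c := AdjoinRoot.of (gp e d c) (MvPolynomial.X 0)
/-- the element `w` -/
noncomputable def w : BR e d c := AdjoinRoot.of (gp e d c) (MvPolynomial.X 1)
/-- the element `y` -/
noncomputable def y : BR e d c := AdjoinRoot.root (gp e d c)

lemma algebraMap_eq (r : R) : algebraMap R (BR e d c) r =
    AdjoinRoot.of (gp e d c) (MvPolynomial.C r) := rfl

lemma rel : y e d c ^ 2 + e * y e d c = (u e d c ^ 2 - algebraMap R _ c * w e d c) ^ 3 +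
    d * (u e d c ^ 2 - algebraMap R _ c * w e d c) := by
  have h : (AdjoinRoot.mk (gp e d c)) (gp e d c) = 0 := AdjoinRoot.mk_self
  have h1 : (AdjoinRoot.mk (gp e d c)) (gp e d c) = y e d c ^ 2 + (e * y e d c -
      ((u e d c ^ 2 - algebraMap R _ c * w e d c) ^ 3 +
      d * (u e d c ^ 2 - algebraMap R _ c * w e d c))) := by
    conv_lhs => arg 2; unfold gp
    rw [map_add, map_sub, map_mul, map_pow, AdjoinRoot.mk_X, AdjoinRoot.mk_C, AdjoinRoot.mk_C,
      map_natCast, map_add, map_mul, map_natCast, map_pow]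
    unfold xx
    rw [map_sub, map_pow, map_mul, algebraMap_eq]
    rfl
  rw [h1] at h
  linear_combination h

variable {e d c}

section liftR

variable {E : Type*} [CommRing E] (φ : R →+* E)

/-- the universal property for ring maps -/
noncomputable def liftR (u w y : E)
    (h : y ^ 2 + e * y = (u ^ 2 - φ c * w) ^ 3 + d * (u ^ 2 - φ c * w)) : BR e d c →+* E :=
  AdjoinRoot.lift (MvPolynomial.eval₂Hom φ ![u, w]) y (by
    rw [gp, eval₂_add, eval₂_sub, eval₂_mul, eval₂_pow, eval₂_X, eval₂_C, eval₂_C]
    simp only [xx, map_add, map_sub, map_mul, map_pow, map_natCast,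
      MvPolynomial.eval₂Hom_X', MvPolynomial.eval₂Hom_C]
    simp only [Matrix.cons_val_zero, Matrix.cons_val_one]
    linear_combination h)

variable (u' w' y' : E) (h : y' ^ 2 + e * y' = (u' ^ 2 - φ c * w') ^ 3 +
      d * (u' ^ 2 - φ c * w'))

lemma liftR_u : liftR φ u' w' y' h (u e d c) = u' := by
  unfold liftR u
  rw [AdjoinRoot.lift_of, MvPolynomial.eval₂Hom_X']
  rfl

lemma liftR_w : liftR φ u' w' y' h (w e d c) = w' := by
  unfold liftR w
  rw [AdjoinRoot.lift_of, MvPolynomial.eval₂Hom_X']
  rfl

lemma liftR_y : liftR φ u' w' y' h (y e d c) = y' := by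
  unfold liftR y
  rw [AdjoinRoot.lift_root]

lemma liftR_algebraMap (r : R) : liftR φ u' w' y' h (algebraMap R (BR e d c) r) = φ r := by
  unfold liftR
  rw [algebraMap_eq, AdjoinRoot.lift_of, MvPolynomial.eval₂Hom_C]

end liftR

section lift

variable {E : Type*} [CommRing E] [Algebra R E]

/-- the universal property -/
noncomputable def lift (u w y : E)
    (h : y ^ 2 + e * y = (u ^ 2 - algebraMap R E c * w) ^ 3 +
      d * (u ^ 2 - algebraMap R E c * w)) : BR e d c →ₐ[R] E where
  toRingHom := liftR (algebraMap R E) u w y h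
  commutes' r := liftR_algebraMap _ _ _ _ _ r

variable (u' w' y' : E) (h : y' ^ 2 + e * y' = (u' ^ 2 - algebraMap R E c * w') ^ 3 +
      d * (u' ^ 2 - algebraMap R E c * w'))

lemma lift_u : lift u' w' y' h (u e d c) = u' := liftR_u _ _ _ _ h

lemma lift_w : lift u' w' y' h (w e d c) = w' := liftR_w _ _ _ _ h

lemma lift_y : lift u' w' y' h (y e d c) = y' := liftR_y _ _ _ _ h

end lift

lemma hom_ext {E : Type*} [CommRing E] {f g : BR e d c →+* E}
    (h0 : ∀ r, f (algebraMap R _ r) = g (algebraMap R _ r))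
    (hu : f (u e d c) = g (u e d c)) (hw : f (w e d c) = g (w e d c))
    (hy : f (y e d c) = g (y e d c)) : f = g := by
  apply AdjoinRoot.ringHom_ext
  · apply MvPolynomial.ringHom_ext
    · intro r
      exact h0 r
    · intro i
      fin_cases i
      · exact hu
      · exact hw
  · exact hy

lemma algHom_ext {E : Type*} [CommRing E] [Algebra R E] {f g : BR e d c →ₐ[R] E}
    (hu : f (u e d c) = g (u e d c)) (hw : f (w e d c) = g (w e d c))
    (hy : f (y e d c) = g (y e d c)) : f = g := by
  have : (f : BR e d c →+* E) = g := hom_ext (fun r => by simp) hu hw hy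
  apply AlgHom.ext
  intro x
  exact DFunLike.congr_fun this x

lemma adjoin_eq_top : Algebra.adjoin R {u e d c, w e d c, y e d c} = ⊤ := by
  rw [eq_top_iff]
  rintro x -
  obtain ⟨p, rfl⟩ := AdjoinRoot.mk_surjective x
  have hu : u e d c ∈ Algebra.adjoin R {u e d c, w e d c, y e d c} :=
    Algebra.subset_adjoin (by simp)
  have hw : w e d c ∈ Algebra.adjoin R {u e d c, w e d c, y e d c} :=
    Algebra.subset_adjoin (by simp)
  have hy : y e d c ∈ Algebra.adjoin R {u e d c, w e d c, y e d c} :=
    Algebra.subset_adjoin (by simp)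
  have h1 : ∀ q : MvPolynomial (Fin 2) R, AdjoinRoot.of (gp e d c) q ∈
      Algebra.adjoin R {u e d c, w e d c, y e d c} := by
    intro q
    induction q using MvPolynomial.induction_on with
    | C r => exact Subalgebra.algebraMap_mem _ r
    | add p q hp hq => rw [map_add]; exact add_mem hp hq
    | mul_X p i hp =>
      rw [map_mul]
      refine mul_mem hp ?_
      fin_cases i
      · exact hu
      · exact hw
  induction p using Polynomial.induction_on with
  | C a => exact h1 a
  | add p q hp hq => rw [map_add]; exact add_mem hp hq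
  | monomial n a h =>
    rw [pow_succ, ← mul_assoc, map_mul]
    exact mul_mem h hy

end BR

end defs

end Q40.BT
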