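import Mathlib

set_option autoImplicit false

/-! Stalks and open immersions to affine schemes. -/

namespace Q40.BT

open AlgebraicGeometry CategoryTheory Limits

/-- The map from `R` to the stalk of `T` at `w` given by `T ⟶ Spec R`. -/
noncomputable def stk {T : Scheme.{0}} {R : CommRingCat.{0}} (a : T ⟶ Spec R) (w : T) :
    R ⟶ T.presheaf.stalk w :=
  (Scheme.ΓSpecIso R).inv ≫ a.appTop ≫ T.presheaf.germ ⊤ w trivial

lemma stk_comp {T : Scheme.{0}} {R S : CommRingCat.{0}} (f : R ⟶ S) (a : T ⟶ Spec S) (w : T) :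
    stk (a ≫ Spec.map f) w = f ≫ stk a w := by
  unfold stk
  rw [Scheme.Hom.comp_appTop, Category.assoc, ← Category.assoc f,
    Scheme.ΓSpecIso_inv_naturality, Category.assoc]

/-- the prime of `R` given by a point -/
noncomputable def pr {T : Scheme.{0}} {R : CommRingCat.{0}} (a : T ⟶ Spec R) (w : T) :
    PrimeSpectrum R := a w

/-- the stalk of the affine scheme -/
noncomputable def i₀ {T : Scheme.{0}} {R : CommRingCat.{0}} (a : T ⟶ Spec R) (w : T) :
    (Spec R).presheaf.stalk (a w) ≅ CommRingCat.of (Localization.AtPrime (pr a w).asIdeal) :=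
  Spec.stalkIso R (pr a w)

lemma i₀_eq {T : Scheme.{0}} {R : CommRingCat.{0}} (a : T ⟶ Spec R) (w : T) :
    CommRingCat.ofHom (algebraMap R (Localization.AtPrime (pr a w).asIdeal)) ≫
      (i₀ a w).inv = (Scheme.ΓSpecIso R).inv ≫ (Spec R).presheaf.germ ⊤ (a w) trivial :=
  Spec.algebraMap_stalkIso_inv (pr a w)

lemma stk_eq {T : Scheme.{0}} {R : CommRingCat.{0}} (a : T ⟶ Spec R) (w : T) :
    stk a w = CommRingCat.ofHom (algebraMap R (Localization.AtPrime (pr a w).asIdeal)) ≫
      (i₀ a w).inv ≫ a.stalkMap w := by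
  have h : (Spec R).presheaf.germ ⊤ (a w) trivial ≫ a.stalkMap w =
      a.appTop ≫ T.presheaf.germ ⊤ w trivial := Scheme.Hom.germ_stalkMap a ⊤ w trivial
  rw [← Category.assoc, i₀_eq, Category.assoc, h]
  rfl

/-- For an open immersion the stalk of `T` is a localization of `R`. -/
lemma stk_isLocalization {T : Scheme.{0}} {R : CommRingCat.{0}} (a : T ⟶ Spec R)
    [IsOpenImmersion a] (w : T) :
    @IsLocalization.AtPrime R _ (T.presheaf.stalk w) _ (stk a w).hom.toAlgebra
      (pr a w).asIdeal _ := by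
  let _ : Algebra R (T.presheaf.stalk w) := (stk a w).hom.toAlgebra
  let i : CommRingCat.of (Localization.AtPrime (pr a w).asIdeal) ≅ T.presheaf.stalk w :=
    (i₀ a w).symm ≪≫ asIso (a.stalkMap w)
  let φ : Localization.AtPrime (pr a w).asIdeal ≃ₐ[R] T.presheaf.stalk w :=
    AlgEquiv.ofRingEquiv (f := i.commRingCatIsoToRingEquiv) (by
      intro r
      change _ = (stk a w).hom r
      rw [stk_eq]
      rfl)
  exact IsLocalization.isLocalization_of_algEquiv (pr a w).asIdeal.primeCompl φ

end Q40.BT
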