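import Pool.Agent.Q40.BT.Fld2

set_option autoImplicit false

/-! Linear independence of residues over a valuation ring. -/

namespace Q40.BT

open Polynomial IntermediateField

section content

variable {V K : Type} [CommRing V] [IsDomain V] [ValuationRing V] [Field K] [Algebra V K]
  [IsFractionRing V K] {J : Type}

lemma content (c : J →₀ K) (hc : c ≠ 0) : ∃ (l : K) (c' : J →₀ V), l ≠ 0 ∧
    (∀ j, algebraMap V K (c' j) = l * c j) ∧ ∃ j, IsUnit (c' j) := by
  classical
  let v := ValuationRing.valuation V K
  have hne : c.support.Nonempty := Finsupp.support_nonempty_iff.2 hc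
  obtain ⟨j₀, hj₀, hmax⟩ := c.support.exists_max_image (fun j => v (c j)) hne
  have hj₀' : c j₀ ≠ 0 := Finsupp.mem_support_iff.1 hj₀
  have h1 : ∀ j, ∃ a : V, algebraMap V K a = (c j₀)⁻¹ * c j := by
    intro j
    apply (ValuationRing.mem_integer_iff V K _).1
    change v _ ≤ 1
    rw [map_mul, map_inv₀]
    by_cases hj : j ∈ c.support
    · have h2 : v (c j₀) ≠ 0 := (Valuation.ne_zero_iff v).2 hj₀'
      calc (v (c j₀))⁻¹ * v (c j) ≤ (v (c j₀))⁻¹ * v (c j₀) := by
            gcongr
            exact hmax j hj
        _ = 1 := inv_mul_cancel₀ h2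
    · rw [Finsupp.notMem_support_iff.1 hj, map_zero, mul_zero]
      exact zero_le
  choose a ha using h1
  have hinj : Function.Injective (algebraMap V K) := IsFractionRing.injective V K
  have ha0 : ∀ j, j ∉ c.support → a j = 0 := by
    intro j hj
    apply hinj
    rw [ha, Finsupp.notMem_support_iff.1 hj, mul_zero, map_zero]
  refine ⟨(c j₀)⁻¹, Finsupp.onFinset c.support a (fun j hj => ?_), inv_ne_zero hj₀', ?_, j₀, ?_⟩
  · by_contra hcon
    exact hj (ha0 j hcon)
  · intro j
    rw [Finsupp.onFinset_apply, ha]
  · rw [Finsupp.onFinset_apply]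
    have : a j₀ = 1 := by
      apply hinj
      rw [ha, map_one, inv_mul_cancel₀ hj₀']
    rw [this]
    exact isUnit_one

end content

/-- The situation: a valuation ring `V` with fraction field `K` and residue field `kap`, and a
`V`-algebra `A` with maps to fields `L ⊇ K` and `Lam ⊇ kap`. -/
structure Sit (V K kap A L Lam : Type) [CommRing V] [Field K] [Field kap] [CommRing A] [Field L]
    [Field Lam] [Algebra V K] [Algebra V kap] [Algebra V A] [Algebra V L] [Algebra V Lam]
    [Algebra K L] [Algebra A L] [Algebra kap Lam] [Algebra A Lam]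
    [IsScalarTower V A L] [IsScalarTower V K L] [IsScalarTower V A Lam]
    [IsScalarTower V kap Lam] : Prop where
  inj : Function.Injective (algebraMap A L)
  ker : ∀ v : V, ¬ IsUnit v → algebraMap V kap v = 0

section VL

variable {V K kap A L Lam : Type} [CommRing V] [IsDomain V] [ValuationRing V]
  [Field K] [Field kap] [CommRing A] [Field L] [Field Lam]
  [Algebra V K] [Algebra V kap] [Algebra V A] [Algebra V L] [Algebra V Lam]
  [Algebra K L] [Algebra A L] [Algebra kap Lam] [Algebra A Lam]
  [IsScalarTower V A L] [IsScalarTower V K L] [IsScalarTower V A Lam]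
  [IsScalarTower V kap Lam] [IsFractionRing V K] {J : Type}

/-- reduction of the coefficients -/
noncomputable def red (kap : Type) [Field kap] [Algebra V kap] (c : J →₀ V) : J →₀ kap :=
  c.mapRange (algebraMap V kap) (map_zero _)

lemma map_lc_L (e : J → A) (c : J →₀ V) (c' : J →₀ K) (l : K)
    (h : ∀ j, algebraMap V K (c j) = l * c' j) :
    algebraMap A L (Finsupp.linearCombination V e c) = algebraMap K L l *
      Finsupp.linearCombination K (fun j => algebraMap A L (e j)) c' := by
  classical
  let s := c.support ∪ c'.support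
  rw [Finsupp.linearCombination_apply, Finsupp.linearCombination_apply,
    Finsupp.sum_of_support_subset (s := s) _ Finset.subset_union_left _ (by simp),
    Finsupp.sum_of_support_subset (s := s) _ Finset.subset_union_right _ (by simp),
    map_sum, Finset.mul_sum]
  refine Finset.sum_congr rfl (fun j _ => ?_)
  rw [Algebra.smul_def, map_mul, Algebra.smul_def, ← mul_assoc, ← map_mul (algebraMap K L), ← h,
    ← IsScalarTower.algebraMap_apply V A L, IsScalarTower.algebraMap_apply V K L]

lemma map_lc_Lam (e : J → A) (c : J →₀ V) :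
    algebraMap A Lam (Finsupp.linearCombination V e c) =
      Finsupp.linearCombination kap (fun j => algebraMap A Lam (e j)) (red kap c) := by
  classical
  rw [Finsupp.linearCombination_apply, Finsupp.linearCombination_apply, red,
    Finsupp.sum_mapRange_index (by simp), Finsupp.sum, Finsupp.sum, map_sum]
  refine Finset.sum_congr rfl (fun j _ => ?_)
  rw [Algebra.smul_def, map_mul, Algebra.smul_def, ← IsScalarTower.algebraMap_apply V A Lam,
    IsScalarTower.algebraMap_apply V kap Lam]

lemma red_ne_zero (c : J →₀ V) (h : ∃ j, IsUnit (c j)) : red kap c ≠ 0 := by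
  obtain ⟨j, hj⟩ := h
  intro h0
  have h1 : algebraMap V kap (c j) = 0 := by
    have := DFunLike.congr_fun h0 j
    simpa [red] using this
  exact (hj.map (algebraMap V kap)).ne_zero h1

lemma li_K (S : Sit V K kap A L Lam) (e : J → A) (he : LinearIndependent kap (fun j => algebraMap A Lam (e j))) :
    LinearIndependent K (fun j => algebraMap A L (e j)) := by
  rw [linearIndependent_iff]
  intro c hc
  by_contra hcon
  obtain ⟨l, c', hl, h1, h2⟩ := content (V := V) c hcon
  have h3 := map_lc_L (L := L) e c' c l h1
  rw [hc, mul_zero] at h3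
  have h4 : Finsupp.linearCombination V e c' = 0 := by
    apply S.inj
    rw [h3, map_zero]
  have h5 := map_lc_Lam (kap := kap) (Lam := Lam) e c'
  rw [h4, map_zero] at h5
  exact red_ne_zero (kap := kap) c' h2 ((linearIndependent_iff.1 he) _ h5.symm)

/-- The content lemma. -/
lemma vl (S : Sit V K kap A L Lam) (e : J → A) (he : LinearIndependent kap (fun j => algebraMap A Lam (e j)))
    (a : A) (s₁ s₂ : J →₀ K)
    (h0 : Finsupp.linearCombination K (fun j => algebraMap A L (e j)) s₂ ≠ 0)
    (h : algebraMap A L a * Finsupp.linearCombination K (fun j => algebraMap A L (e j)) s₂ =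
      Finsupp.linearCombination K (fun j => algebraMap A L (e j)) s₁) :
    ∃ t₁ t₂ : J →₀ kap,
      Finsupp.linearCombination kap (fun j => algebraMap A Lam (e j)) t₂ ≠ 0 ∧
      algebraMap A Lam a * Finsupp.linearCombination kap (fun j => algebraMap A Lam (e j)) t₂ =
        Finsupp.linearCombination kap (fun j => algebraMap A Lam (e j)) t₁ := by
  have hinj := S.inj
  have hs₂ : s₂ ≠ 0 := by
    rintro rfl
    exact h0 (map_zero _)
  obtain ⟨l, c₂, hl, h1, h2⟩ := content (V := V) s₂ hs₂
  have h3 := map_lc_L (L := L) e c₂ s₂ l h1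
  have h4 : Finsupp.linearCombination kap (fun j => algebraMap A Lam (e j)) (red kap c₂) ≠ 0 := by
    intro h5
    exact red_ne_zero (kap := kap) c₂ h2 ((linearIndependent_iff.1 he) _ h5)
  by_cases hs₁ : s₁ = 0
  · refine ⟨0, red kap c₂, h4, ?_⟩
    have : algebraMap A L a = 0 := by
      rw [hs₁, map_zero] at h
      exact (mul_eq_zero.1 h).resolve_right h0
    have ha : a = 0 := hinj (by rw [this, map_zero])
    rw [ha, map_zero, map_zero, zero_mul]
  · obtain ⟨l₁, c₁, hl₁, h5, h6⟩ := content (V := V) s₁ hs₁
    have h7 := map_lc_L (L := L) e c₁ s₁ l₁ h5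
    -- `l₁ a S₂ = l S₁`
    have h8 : algebraMap K L l₁ * algebraMap A L (a * Finsupp.linearCombination V e c₂) =
        algebraMap K L l * algebraMap A L (Finsupp.linearCombination V e c₁) := by
      rw [map_mul, h3, h7, ← h]
      ring
    have hr : ∃ r : V, algebraMap V K r = l / l₁ ∨ (algebraMap V K r = l₁ / l ∧ ¬ IsUnit r) := by
      rcases ValuationRing.isInteger_or_isInteger V (l / l₁) with ⟨r, hr⟩ | ⟨r, hr⟩
      · exact ⟨r, Or.inl hr⟩
      · by_cases hu : IsUnit r
        · obtain ⟨r', hr'⟩ := hu.exists_right_inv
          refine ⟨r', Or.inl ?_⟩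
          have h9 := congrArg (algebraMap V K) hr'
          rw [map_mul, hr, map_one, inv_div] at h9
          field_simp at h9 ⊢
          linear_combination h9
        · refine ⟨r, Or.inr ⟨?_, hu⟩⟩
          rw [hr, inv_div]
    obtain ⟨r, hr | ⟨hr, hu⟩⟩ := hr
    · refine ⟨algebraMap V kap r • red kap c₁, red kap c₂, h4, ?_⟩
      have h9 : a * Finsupp.linearCombination V e c₂ =
          algebraMap V A r * Finsupp.linearCombination V e c₁ := by
        apply hinj
        have hl₁' : algebraMap K L l₁ ≠ 0 := (_root_.map_ne_zero _).2 hl₁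
        apply mul_left_cancel₀ hl₁'
        rw [h8, map_mul, ← IsScalarTower.algebraMap_apply V A L,
          IsScalarTower.algebraMap_apply V K L, hr, ← mul_assoc, ← map_mul,
          mul_div_cancel₀ _ hl₁]
      have h10 := congrArg (algebraMap A Lam) h9
      rw [map_mul, map_mul, map_lc_Lam (kap := kap), map_lc_Lam (kap := kap),
        ← IsScalarTower.algebraMap_apply V A Lam,
        IsScalarTower.algebraMap_apply V kap Lam] at h10
      rw [h10, map_smul, Algebra.smul_def]
    · exfalso
      have h9 : algebraMap V A r * (a * Finsupp.linearCombination V e c₂) =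
          Finsupp.linearCombination V e c₁ := by
        apply hinj
        have hl' : algebraMap K L l ≠ 0 := (_root_.map_ne_zero _).2 hl
        apply mul_left_cancel₀ hl'
        rw [← h8, map_mul, ← IsScalarTower.algebraMap_apply V A L,
          IsScalarTower.algebraMap_apply V K L, hr, ← mul_assoc, ← map_mul,
          mul_div_cancel₀ _ hl]
      have h10 := congrArg (algebraMap A Lam) h9
      rw [map_mul, map_lc_Lam (kap := kap), ← IsScalarTower.algebraMap_apply V A Lam,
        IsScalarTower.algebraMap_apply V kap Lam,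
        S.ker r hu, map_zero,
        zero_mul] at h10
      exact red_ne_zero (kap := kap) c₁ h6 ((linearIndependent_iff.1 he) _ h10.symm)

end VL

end Q40.BT
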